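import Mathlib
import Pool.Agent.H772R2.NSZ.Comp2

/-!
The comparison theorem for different viscosities and data.
-/

set_option linter.unusedSectionVars false

open MeasureTheory Set Filter Topology Metric
open scoped InnerProductSpace NNReal ENNReal

namespace H772R2.NSZ

open H772R2.NSR (Frame grad_unique prim_cont)
open H772R2.NSG (cs)
open H772R2.NSV

variable {H K : Type*} [NormedAddCommGroup H] [InnerProductSpace ℝ H] [CompleteSpace H]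
  [NormedAddCommGroup K] [InnerProductSpace ℝ K] [CompleteSpace K]

variable {W : Submodule ℝ (H × K)} {m : H → K} {C C3 : ℝ} {ν T : ℝ}
variable {ι : Type*} {g : ι → H} {f : ι → K} {lam : ι → ℝ}

/-- The data. -/
structure Dat (W : Submodule ℝ (H × K)) (T : ℝ) (x0 : H) (z0 : K) (F F1 : ℝ → K) : Prop where
  mem : (x0, z0) ∈ W
  int : MemLp F1 2 (volume.restrict (Ioc 0 T))
  prim : ∀ a b, 0 ≤ a → a ≤ b → b ≤ T → F b - F a = ∫ s in a..b, F1 s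

/-- The distance of the data is at most `δ`. -/
structure Cl (T δ : ℝ) (z0 : K) (F F1 : ℝ → K) (zb0 : K) (Fb Fb1 : ℝ → K) : Prop where
  z : ‖z0 - zb0‖ ≤ δ
  F0 : ‖F 0 - Fb 0‖ ≤ δ
  F1 : ∫ s in (0 : ℝ)..T, ‖F1 s - Fb1 s‖ ^ 2 ≤ δ ^ 2

theorem Cl.mono {δ δ' : ℝ} {z0 zb0 : K} {F F1 Fb Fb1 : ℝ → K} (hδ : 0 ≤ δ)
    (h : Cl T δ z0 F F1 zb0 Fb Fb1) (hle : δ ≤ δ') : Cl T δ' z0 F F1 zb0 Fb Fb1 :=
  ⟨h.z.trans hle, h.F0.trans hle, h.F1.trans (by gcongr)⟩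

theorem ph_sum_le (hT : 0 ≤ T) (E : Eig W g f lam) {F F1 : ℝ → K} (z0 : K)
    (hF1 : MemLp F1 2 (volume.restrict (Ioc 0 T))) (S : Finset ι) :
    ∑ i ∈ S, ph f T F F1 z0 i ^ 2
      ≤ 3 * (‖z0‖ ^ 2 + ‖F 0‖ ^ 2 + T * ∫ s in (0 : ℝ)..T, ‖F1 s‖ ^ 2) := by
  have := fin_m T
  have hF1sq : IntegrableOn (fun s => ‖F1 s‖ ^ 2) (Ioc 0 T) :=
    (memLp_two_iff_integrable_sq_norm hF1.aestronglyMeasurable).mp hF1
  have hb : ∀ x : K, ∑ i ∈ S, ⟪f i, x⟫_ℝ ^ 2 ≤ ‖x‖ ^ 2 := by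
    intro x
    have := E.on.sum_inner_products_le (x := x) (s := S)
    simpa [Real.norm_eq_abs, sq_abs] using this
  have hci : ∀ i, IntegrableOn (fun s => ⟪f i, F1 s⟫_ℝ ^ 2) (Ioc 0 T) := fun i =>
    ((memLp_two_iff_integrable_sq_norm (comp_i hF1 (f i)).aestronglyMeasurable).mp
      (comp_i hF1 (f i))).congr (Eventually.of_forall fun s => by simp [sq_abs])
  have h3 : ∀ i, (∫ s in (0 : ℝ)..T, |⟪f i, F1 s⟫_ℝ|) ^ 2
      ≤ T * ∫ s in Ioc 0 T, ⟪f i, F1 s⟫_ℝ ^ 2 := by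
    intro i
    rw [intervalIntegral.integral_of_le hT]
    have k := cs (μ := volume.restrict (Ioc 0 T)) (a := fun s => |⟪f i, F1 s⟫_ℝ|)
      (b := fun _ => (1 : ℝ)) (comp_i hF1 (f i)).norm (memLp_const 1)
    have e1 : ∫ s in Ioc 0 T, |⟪f i, F1 s⟫_ℝ| * 1 = ∫ s in Ioc 0 T, |⟪f i, F1 s⟫_ℝ| := by simp
    have e2 : ∫ s in Ioc 0 T, ‖|⟪f i, F1 s⟫_ℝ|‖ ^ 2 = ∫ s in Ioc 0 T, ⟪f i, F1 s⟫_ℝ ^ 2 := by
      refine integral_congr_ae (Eventually.of_forall fun s => ?_)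
      simp [sq_abs]
    have e3 : ∫ _ in Ioc 0 T, ‖(1 : ℝ)‖ ^ 2 = T := by simp [hT]
    rw [e1, e2, e3] at k
    have h0 : 0 ≤ ∫ s in Ioc 0 T, |⟪f i, F1 s⟫_ℝ| := integral_nonneg fun s => abs_nonneg _
    have h1 : 0 ≤ ∫ s in Ioc 0 T, ⟪f i, F1 s⟫_ℝ ^ 2 := integral_nonneg fun s => sq_nonneg _
    calc (∫ s in Ioc 0 T, |⟪f i, F1 s⟫_ℝ|) ^ 2
        ≤ (Real.sqrt (∫ s in Ioc 0 T, ⟪f i, F1 s⟫_ℝ ^ 2) * Real.sqrt T) ^ 2 := by gcongr
      _ = T * ∫ s in Ioc 0 T, ⟪f i, F1 s⟫_ℝ ^ 2 := by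
          rw [mul_pow, Real.sq_sqrt h1, Real.sq_sqrt hT]; ring
  rw [intervalIntegral.integral_of_le hT]
  calc ∑ i ∈ S, ph f T F F1 z0 i ^ 2
      ≤ ∑ i ∈ S, 3 * (⟪f i, z0⟫_ℝ ^ 2 + ⟪f i, F 0⟫_ℝ ^ 2
        + T * ∫ s in Ioc 0 T, ⟪f i, F1 s⟫_ℝ ^ 2) := by
        refine Finset.sum_le_sum fun i _ => ?_
        have k := h3 i
        unfold ph
        set a := |⟪f i, z0⟫_ℝ| with ha
        set b := |⟪f i, F 0⟫_ℝ| with hb'
        set c := ∫ s in (0 : ℝ)..T, |⟪f i, F1 s⟫_ℝ| with hc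
        have ea : a ^ 2 = ⟪f i, z0⟫_ℝ ^ 2 := sq_abs _
        have eb : b ^ 2 = ⟪f i, F 0⟫_ℝ ^ 2 := sq_abs _
        rw [← ea, ← eb]
        nlinarith [sq_nonneg (a - b), sq_nonneg (a - c), sq_nonneg (b - c)]
    _ = 3 * (∑ i ∈ S, ⟪f i, z0⟫_ℝ ^ 2 + ∑ i ∈ S, ⟪f i, F 0⟫_ℝ ^ 2
        + T * ∫ s in Ioc 0 T, ∑ i ∈ S, ⟪f i, F1 s⟫_ℝ ^ 2) := by
        rw [integral_finsetSum _ (fun i _ => hci i), Finset.mul_sum, ← Finset.sum_add_distrib,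
          ← Finset.sum_add_distrib, Finset.mul_sum]
    _ ≤ _ := by
        have k1 := hb z0
        have k2 := hb (F 0)
        have k3 : ∫ s in Ioc 0 T, ∑ i ∈ S, ⟪f i, F1 s⟫_ℝ ^ 2 ≤ ∫ s in Ioc 0 T, ‖F1 s‖ ^ 2 := by
          refine integral_mono (integrable_finsetSum _ fun i _ => hci i) hF1sq fun s => ?_
          exact hb (F1 s)
        gcongr

/-- the part of the linear remainder that comes from the data. -/
theorem ext_le (E : Eig W g f lam) (hν : 0 < ν) (hT : 0 ≤ T) {F F1 : ℝ → K} {z0 : K}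
    (hF1 : MemLp F1 2 (volume.restrict (Ioc 0 T)))
    (hF : ∀ a b, 0 ≤ a → a ≤ b → b ≤ T → F b - F a = ∫ s in a..b, F1 s)
    {T' : ℝ} (hT' : T' ∈ Icc 0 T) {n : ℝ → ℝ} (hn : Vn ν T' n) {t : ℝ} (ht : t ∈ Icc 0 T')
    (i : ι) :
    |ex (lam i) n 0 t * ⟪f i, z0⟫_ℝ + ∫ s in (0 : ℝ)..t, lam i * ex (lam i) n s t
      * ⟪f i, F s⟫_ℝ| ≤ (1 + 1 / ν) * ph f T F F1 z0 i := by
  have hl := E.pos i
  have hFc := prim_cont hF1 hF
  have htT : t ≤ T := ht.2.trans hT'.2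
  set A : ℝ := |⟪f i, z0⟫_ℝ| with hA
  set Bq : ℝ := |⟪f i, F 0⟫_ℝ| + ∫ s in (0 : ℝ)..T, |⟪f i, F1 s⟫_ℝ| with hB
  have hph : ph f T F F1 z0 i = A + Bq := rfl
  have hA0 : 0 ≤ A := abs_nonneg _
  have hB0 : 0 ≤ Bq := add_nonneg (abs_nonneg _)
    (intervalIntegral.integral_nonneg hT fun s _ => abs_nonneg _)
  have hFb : ∀ s ∈ Icc 0 t, |⟪f i, F s⟫_ℝ| ≤ Bq := fun s hs =>
    prim_comp hT hF1 hF (f i) ⟨hs.1, hs.2.trans htT⟩
  have hd : ∀ s ∈ Icc 0 t, |ex (lam i) n s t| ≤ Real.exp (-(lam i * (ν * (t - s)))) := by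
    intro s hs
    rw [abs_of_pos (show 0 < ex (lam i) n s t from Real.exp_pos _)]
    exact ex_le hn hl hs.1 hs.2 ht.2
  have hu0 : uIcc 0 t = Icc 0 t := uIcc_of_le ht.1
  have hcn : ContinuousOn (fun s => lam i * ex (lam i) n s t * ⟪f i, F s⟫_ℝ) (Icc 0 t) :=
    (continuousOn_const.mul (ex_cont hn.int _ ht)).mul
      (continuousOn_const.inner (hFc.mono (Icc_subset_Icc_right htT)))
  have k1 : |∫ s in (0 : ℝ)..t, lam i * ex (lam i) n s t * ⟪f i, F s⟫_ℝ| ≤ 1 / ν * Bq := by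
    have h1 := intervalIntegral.norm_integral_le_integral_norm (μ := volume)
      (f := fun s => lam i * ex (lam i) n s t * ⟪f i, F s⟫_ℝ) ht.1
    have h2 : ∫ s in (0 : ℝ)..t, ‖lam i * ex (lam i) n s t * ⟪f i, F s⟫_ℝ‖
        ≤ ∫ s in (0 : ℝ)..t, (lam i * Real.exp (-(lam i * (ν * (t - s))))) * Bq := by
      refine intervalIntegral.integral_mono_on ht.1 ?_ ?_ fun s hs => ?_
      · exact ContinuousOn.intervalIntegrable (by rw [hu0]; exact hcn.norm)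
      · exact (by fun_prop : Continuous fun s => (lam i * Real.exp (-(lam i * (ν * (t - s)))))
          * Bq).intervalIntegrable _ _
      · rw [Real.norm_eq_abs, abs_mul, abs_mul, abs_of_pos hl]
        have a1 := hd s hs
        have a2 := hFb s hs
        gcongr
    refine h1.trans (h2.trans ?_)
    rw [intervalIntegral.integral_mul_const]
    gcongr
    exact exp_int hν
  have k2 : |ex (lam i) n 0 t * ⟪f i, z0⟫_ℝ| ≤ A := by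
    rw [abs_mul]
    have a1 := hd 0 ⟨le_rfl, ht.1⟩
    have hE1 : Real.exp (-(lam i * (ν * (t - 0)))) ≤ 1 := Real.exp_le_one_iff.mpr (by
      have : 0 ≤ t - 0 := by linarith [ht.1]
      have : 0 ≤ lam i * (ν * (t - 0)) := by positivity
      linarith)
    calc _ ≤ 1 * A := by gcongr; exact a1.trans hE1
      _ = A := one_mul A
  rw [hph]
  refine (abs_add_le _ _).trans ((add_le_add k2 k1).trans ?_)
  have : 0 < 1 / ν := by positivity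
  nlinarith

theorem rem2_eq {F Fb : ℝ → K} {z0 zb0 : K}
    (hF : ContinuousOn F (Icc 0 T)) (hFb : ContinuousOn Fb (Icc 0 T))
    {T' : ℝ} (hT' : T' ∈ Icc 0 T) {n nb : ℝ → ℝ} (hn : Vn ν T' n) (hnb : Vn ν T' nb)
    {t : ℝ} (ht : t ∈ Icc 0 T') (i : ι) :
    rem2 f lam n nb F Fb z0 zb0 i t = rem f lam n nb Fb zb0 i t
      + (ex (lam i) n 0 t * ⟪f i, z0 - zb0⟫_ℝ + ∫ s in (0 : ℝ)..t, lam i * ex (lam i) n s t
      * ⟪f i, F s - Fb s⟫_ℝ) := by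
  have htT : t ≤ T := ht.2.trans hT'.2
  have hu0 : uIcc 0 t = Icc 0 t := uIcc_of_le ht.1
  have hF' := hF.mono (Icc_subset_Icc_right htT)
  have hFb' := hFb.mono (Icc_subset_Icc_right htT)
  have hec := ex_cont hn.int (lam i) ht
  have hebc := ex_cont hnb.int (lam i) ht
  have hii : ∀ {φ : ℝ → ℝ}, ContinuousOn φ (Icc 0 t) → IntervalIntegrable φ volume 0 t := by
    intro φ hφ
    exact ContinuousOn.intervalIntegrable (by rw [hu0]; exact hφ)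
  have i1 : ContinuousOn (fun s => lam i * (ex (lam i) n s t - ex (lam i) nb s t)
      * ⟪f i, Fb s⟫_ℝ) (Icc 0 t) :=
    (continuousOn_const.mul (hec.sub hebc)).mul (continuousOn_const.inner hFb')
  have i2 : ContinuousOn (fun s => lam i * ex (lam i) n s t * ⟪f i, F s - Fb s⟫_ℝ) (Icc 0 t) :=
    (continuousOn_const.mul hec).mul (continuousOn_const.inner (hF'.sub hFb'))
  unfold rem2 rem
  have e1 : ∫ s in (0 : ℝ)..t, (lam i * ex (lam i) n s t * ⟪f i, F s⟫_ℝ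
      - lam i * ex (lam i) nb s t * ⟪f i, Fb s⟫_ℝ)
      = (∫ s in (0 : ℝ)..t, lam i * (ex (lam i) n s t - ex (lam i) nb s t) * ⟪f i, Fb s⟫_ℝ)
        + ∫ s in (0 : ℝ)..t, lam i * ex (lam i) n s t * ⟪f i, F s - Fb s⟫_ℝ := by
    rw [← intervalIntegral.integral_add (hii i1) (hii i2)]
    refine intervalIntegral.integral_congr fun s _ => ?_
    simp only [inner_sub_right]
    ring
  rw [e1, inner_sub_right]
  ring

theorem Dat.sub {x0 xb0 : H} {z0 zb0 : K} {F F1 Fb Fb1 : ℝ → K}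
    (D : Dat W T x0 z0 F F1) (Db : Dat W T xb0 zb0 Fb Fb1) :
    Dat W T (x0 - xb0) (z0 - zb0) (fun s => F s - Fb s) (fun s => F1 s - Fb1 s) where
  mem := W.sub_mem D.mem Db.mem
  int := D.int.sub Db.int
  prim := fun a b ha hab hb => by
    have := fin_m T
    have i1 : IntervalIntegrable F1 volume a b := by
      rw [intervalIntegrable_iff_integrableOn_Ioc_of_le hab]
      have h1 : IntegrableOn F1 (Ioc 0 T) volume := D.int.integrable (by norm_num)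
      exact h1.mono_set (Ioc_subset_Ioc ha hb)
    have i2 : IntervalIntegrable Fb1 volume a b := by
      rw [intervalIntegrable_iff_integrableOn_Ioc_of_le hab]
      have h1 : IntegrableOn Fb1 (Ioc 0 T) volume := Db.int.integrable (by norm_num)
      exact h1.mono_set (Ioc_subset_Ioc ha hb)
    rw [intervalIntegral.integral_sub i1 i2, ← D.prim a b ha hab hb, ← Db.prim a b ha hab hb]
    abel

theorem comp_small2 (Fr : Frame W m C) (Tb : TriB W m C3) (E : Eig W g f lam) (hν : 0 < ν)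
    (hT : 0 ≤ T) {Fb Fb1 : ℝ → K} {xb0 : H} {zb0 : K} (Db : Dat W T xb0 zb0 Fb Fb1)
    {Z : ℝ} (hZ : 0 ≤ Z) {ω : ℝ} (hω : 0 < ω) : ∃ δ0 : ℝ, 0 < δ0 ∧ ∀ T' ∈ Icc 0 T,
      ∀ (n nb : ℝ → ℝ) (u ub : ℝ → H) (z zb : ℝ → K) (F F1 : ℝ → K) (x0 : H) (z0 : K),
      Dat W T x0 z0 F F1 → Cl T δ0 z0 F F1 zb0 Fb Fb1 → Vn ν T' n → Vn ν T' nb →
      Reg W m T' n F x0 u z → Reg W m T' nb Fb xb0 ub zb →
      (∀ t ∈ Icc 0 T', ‖z t‖ ≤ Z) → (∀ t ∈ Icc 0 T', ‖zb t‖ ≤ Z) →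
      ∫ s in (0 : ℝ)..T', |n s - nb s| ≤ δ0 → ∀ t ∈ Icc 0 T', ‖z t - zb t‖ ≤ ω := by
  have hC3 := Tb.nonneg
  set A : ℝ := 2 * C3 * Z * ν ^ (-(3 / 4) : ℝ) with hA
  have hA0 : 0 ≤ A := by positivity
  set s0 : ℝ := sgc T A with hs0
  have hs0p : 0 < s0 := sgc_pos T A
  set Kc : ℝ := C3 * Z ^ 2 * (ν ^ (-(7 / 8) : ℝ) * (8 * T ^ (1 / 8 : ℝ))) with hKc
  have hKc0 : 0 ≤ Kc := by positivity
  set ω1 : ℝ := ω / (2 * s0) with hω1
  have hω1p : 0 < ω1 := by positivity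
  obtain ⟨δ1, hδ1, hrem⟩ := rem_small E hν hT (z0 := zb0) Db.int Db.prim (ω := ω1 / 2)
    (by positivity)
  set δ2 : ℝ := (ω1 / (Kc + 1)) ^ 8 with hδ2
  have hδ2p : 0 < δ2 := by positivity
  set q : ℝ := (1 + 1 / ν) * (3 + T) with hq
  have hq0 : 0 < q := by positivity
  set δ3 : ℝ := ω1 / (4 * q) with hδ3
  have hδ3p : 0 < δ3 := by positivity
  refine ⟨min (min δ1 δ2) δ3, lt_min (lt_min hδ1 hδ2p) hδ3p, ?_⟩
  intro T' hT' n nb u ub z zb F F1 x0 z0 D hcl hn hnb h hb hz hzb hδ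
  have hFc := prim_cont D.int D.prim
  have hFbc := prim_cont Db.int Db.prim
  have hz0 : z 0 = z0 := h.grad0 Fr hT'.1 D.mem
  have hzb0 : zb 0 = zb0 := hb.grad0 Fr hT'.1 Db.mem
  set δ : ℝ := min (min δ1 δ2) δ3 with hδd
  have hδ0 : 0 ≤ δ := (lt_min (lt_min hδ1 hδ2p) hδ3p).le
  have hδa : δ ≤ δ1 := (min_le_left _ _).trans (min_le_left _ _)
  have hδb : δ ≤ δ2 := (min_le_left _ _).trans (min_le_right _ _)
  have hδc : δ ≤ δ3 := min_le_right _ _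
  have hKδ : Kc * δ ^ (1 / 8 : ℝ) ≤ ω1 := by
    have h1 : δ ^ (1 / 8 : ℝ) ≤ ω1 / (Kc + 1) := by
      calc δ ^ (1 / 8 : ℝ) ≤ δ2 ^ (1 / 8 : ℝ) :=
            Real.rpow_le_rpow hδ0 hδb (by norm_num)
        _ = ω1 / (Kc + 1) := by
            rw [hδ2, ← Real.rpow_natCast, ← Real.rpow_mul (by positivity)]
            norm_num
    calc Kc * δ ^ (1 / 8 : ℝ) ≤ Kc * (ω1 / (Kc + 1)) := by gcongr
      _ ≤ (Kc + 1) * (ω1 / (Kc + 1)) := by gcongr; linarith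
      _ = ω1 := by field_simp
  set ε : ℝ := ω1 + C3 * Z ^ 2 * (δ ^ (1 / 8 : ℝ) * (ν ^ (-(7 / 8) : ℝ)
        * (8 * T' ^ (1 / 8 : ℝ)))) with hε
  have hT'0 := hT'.1
  have hε0 : 0 ≤ ε := by positivity
  have hε2 : ε ≤ 2 * ω1 := by
    have h1 : T' ^ (1 / 8 : ℝ) ≤ T ^ (1 / 8 : ℝ) := Real.rpow_le_rpow hT'.1 hT'.2 (by norm_num)
    have h2 : C3 * Z ^ 2 * (δ ^ (1 / 8 : ℝ) * (ν ^ (-(7 / 8) : ℝ)
        * (8 * T' ^ (1 / 8 : ℝ)))) ≤ Kc * δ ^ (1 / 8 : ℝ) := by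
      rw [hKc]
      calc C3 * Z ^ 2 * (δ ^ (1 / 8 : ℝ) * (ν ^ (-(7 / 8) : ℝ) * (8 * T' ^ (1 / 8 : ℝ))))
          ≤ C3 * Z ^ 2 * (δ ^ (1 / 8 : ℝ) * (ν ^ (-(7 / 8) : ℝ) * (8 * T ^ (1 / 8 : ℝ)))) := by
            gcongr
        _ = _ := by ring
    rw [hε]; linarith
  -- the linear remainder
  have hR : ∀ t ∈ Icc 0 T', ∀ S : Finset ι,
      ∑ i ∈ S, rem2 f lam n nb F Fb (z 0) (zb 0) i t ^ 2 ≤ ω1 ^ 2 := by
    intro t ht S
    rw [hz0, hzb0]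
    have Ds := D.sub Db
    have k1 := hrem T' hT' n nb hn hnb δ hδa hδ t ht S
    have k2 : ∑ i ∈ S, (ex (lam i) n 0 t * ⟪f i, z0 - zb0⟫_ℝ + ∫ s in (0 : ℝ)..t,
        lam i * ex (lam i) n s t * ⟪f i, F s - Fb s⟫_ℝ) ^ 2 ≤ (ω1 / 2) ^ 2 := by
      calc ∑ i ∈ S, (ex (lam i) n 0 t * ⟪f i, z0 - zb0⟫_ℝ + ∫ s in (0 : ℝ)..t,
            lam i * ex (lam i) n s t * ⟪f i, F s - Fb s⟫_ℝ) ^ 2
          ≤ ∑ i ∈ S, (1 + 1 / ν) ^ 2 * ph f T (fun s => F s - Fb s) (fun s => F1 s - Fb1 s)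
            (z0 - zb0) i ^ 2 := by
            refine Finset.sum_le_sum fun i _ => ?_
            rw [← sq_abs, ← mul_pow]
            have := ext_le E hν hT (z0 := z0 - zb0) Ds.int Ds.prim hT' hn ht i
            gcongr
        _ = (1 + 1 / ν) ^ 2 * ∑ i ∈ S, ph f T (fun s => F s - Fb s) (fun s => F1 s - Fb1 s)
            (z0 - zb0) i ^ 2 := by rw [Finset.mul_sum]
        _ ≤ (1 + 1 / ν) ^ 2 * (3 * (‖z0 - zb0‖ ^ 2 + ‖F 0 - Fb 0‖ ^ 2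
            + T * ∫ s in (0 : ℝ)..T, ‖F1 s - Fb1 s‖ ^ 2)) := by
            gcongr
            exact ph_sum_le hT E (z0 - zb0) Ds.int S
        _ ≤ (1 + 1 / ν) ^ 2 * (3 * (δ ^ 2 + δ ^ 2 + T * δ ^ 2)) := by
            have a1 := hcl.z
            have a2 := hcl.F0
            have a3 := hcl.F1
            gcongr
        _ ≤ (1 + 1 / ν) ^ 2 * ((2 * (3 + T)) ^ 2 * δ ^ 2) := by
            have : 3 * (δ ^ 2 + δ ^ 2 + T * δ ^ 2) ≤ (2 * (3 + T)) ^ 2 * δ ^ 2 := by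
              have h5 : 3 * (2 + T) ≤ (2 * (3 + T)) ^ 2 := by nlinarith
              calc 3 * (δ ^ 2 + δ ^ 2 + T * δ ^ 2) = (3 * (2 + T)) * δ ^ 2 := by ring
                _ ≤ _ := by gcongr
            gcongr
        _ = (2 * q * δ) ^ 2 := by rw [hq]; ring
        _ ≤ (ω1 / 2) ^ 2 := by
            have : 2 * q * δ ≤ ω1 / 2 := by
              calc 2 * q * δ ≤ 2 * q * (ω1 / (4 * q)) := by gcongr
                _ = ω1 / 2 := by field_simp; norm_num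
            gcongr
    calc ∑ i ∈ S, rem2 f lam n nb F Fb z0 zb0 i t ^ 2
        ≤ ∑ i ∈ S, (2 * rem f lam n nb Fb zb0 i t ^ 2 + 2 * (ex (lam i) n 0 t
          * ⟪f i, z0 - zb0⟫_ℝ + ∫ s in (0 : ℝ)..t,
          lam i * ex (lam i) n s t * ⟪f i, F s - Fb s⟫_ℝ) ^ 2) := by
          refine Finset.sum_le_sum fun i _ => ?_
          rw [rem2_eq hFc hFbc hT' hn hnb ht i]
          set a := rem f lam n nb Fb zb0 i t
          set b := ex (lam i) n 0 t * ⟪f i, z0 - zb0⟫_ℝ + ∫ s in (0 : ℝ)..t,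
            lam i * ex (lam i) n s t * ⟪f i, F s - Fb s⟫_ℝ
          nlinarith [sq_nonneg (a - b)]
      _ = 2 * ∑ i ∈ S, rem f lam n nb Fb zb0 i t ^ 2 + 2 * ∑ i ∈ S, (ex (lam i) n 0 t
          * ⟪f i, z0 - zb0⟫_ℝ + ∫ s in (0 : ℝ)..t,
          lam i * ex (lam i) n s t * ⟪f i, F s - Fb s⟫_ℝ) ^ 2 := by
          rw [Finset.sum_add_distrib, Finset.mul_sum, Finset.mul_sum]
      _ ≤ 2 * (ω1 / 2) ^ 2 + 2 * (ω1 / 2) ^ 2 := by gcongr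
      _ = ω1 ^ 2 := by ring
  have hest := fun t ht => comp_est2 Fr Tb E hν hn hnb (hFc.mono (Icc_subset_Icc_right hT'.2))
    (hFbc.mono (Icc_subset_Icc_right hT'.2)) h hb hz hzb hδ0 hδ hω1p.le hR (t := t) ht
  have hg := sing_gronwall (T := T') (A := A) (ε := ε) hT'.1 hA0 hε0
    (y := fun t => ‖z t - zb t‖) (h.zc.sub hb.zc).norm (fun t _ => norm_nonneg _) hest
  intro t ht
  calc ‖z t - zb t‖ ≤ sgc T' A * ε := hg t ht
    _ ≤ s0 * (2 * ω1) := by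
        have := sgc_mono (T := T) hT' hA0
        have := (sgc_pos T' A).le
        gcongr
    _ = ω := by rw [hω1]; field_simp

end H772R2.NSZ
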