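import Mathlib
import Pool.Agent.H772R2.NSZ.Rem2

/-!
The difference of two closed-loop solutions in the energy norm.
-/

set_option linter.unusedSectionVars false

open MeasureTheory Set Filter Topology Metric
open scoped InnerProductSpace NNReal ENNReal

namespace H772R2.NSZ

open H772R2.NSR (Frame grad_unique prim_cont gron young4 ii_of_cont)
open H772R2.NSG (Sln Visc Base stress_mono braw braw_nonneg)
open H772R2.NSV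

variable {H K : Type*} [NormedAddCommGroup H] [InnerProductSpace ℝ H] [CompleteSpace H]
  [NormedAddCommGroup K] [InnerProductSpace ℝ K] [CompleteSpace K]

variable {W : Submodule ℝ (H × K)} {m : H → K} {C : ℝ} {ν T : ℝ}
variable {A M Ab Mb : ℝ} {μ μb n nb : ℝ → ℝ} {F Fb : ℝ → K} {u u' ub ub' : ℝ → H}
  {z zb : ℝ → K} {c1 c2 e0 b1 b2 eb0 : ℝ}

theorem deriv_zero_of_sq {q : ℝ → ℝ} {c t : ℝ} {s : Set ℝ} (hc : 0 ≤ c)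
    (h : ∀ x ∈ s, |q x| ≤ c * (x - t) ^ 2) (h0 : q t = 0) : HasDerivWithinAt q 0 s t := by
  rw [hasDerivWithinAt_iff_isLittleO]
  simp only [smul_zero, sub_zero, h0]
  rw [Asymptotics.isLittleO_iff]
  intro ε hε
  have h1 : ∀ᶠ x in 𝓝[s] t, |x - t| < ε / (c + 1) := by
    refine nhdsWithin_le_nhds ?_
    exact Metric.eventually_nhds_iff.mpr ⟨ε / (c + 1), by positivity, fun y hy => by
      rwa [Real.dist_eq] at hy⟩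
  filter_upwards [h1, self_mem_nhdsWithin] with x hx hxs
  have h2 := h x hxs
  rw [Real.norm_eq_abs, Real.norm_eq_abs]
  calc |q x| ≤ c * (x - t) ^ 2 := h2
    _ = c * |x - t| * |x - t| := by rw [← sq_abs]; ring
    _ ≤ ε * |x - t| := by
        refine mul_le_mul_of_nonneg_right ?_ (abs_nonneg _)
        calc c * |x - t| ≤ (c + 1) * (ε / (c + 1)) := by gcongr; linarith
          _ = ε := by field_simp

theorem prim_deriv {β : ℝ → ℝ} (hβ : ContinuousOn β (Icc 0 T)) {t : ℝ} (ht : t ∈ Icc 0 T) :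
    HasDerivWithinAt (fun s => ∫ r in (0 : ℝ)..s, β r) (β t) (Icc 0 T) t := by
  have : Fact (t ∈ Icc 0 T) := ⟨ht⟩
  refine intervalIntegral.integral_hasDerivWithinAt_right ?_ ?_ (hβ t ht)
  · exact ii_of_cont hβ le_rfl ht.1 ht.2
  · exact hβ.stronglyMeasurableAtFilter_nhdsWithin measurableSet_Icc t

theorem mu_cont (V : Visc ν μ A M) (hz : ContinuousOn z (Icc 0 T)) :
    ContinuousOn (fun t => μ ‖z t‖) (Icc 0 T) := by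
  intro t ht
  rw [ContinuousWithinAt, tendsto_iff_norm_sub_tendsto_zero]
  have h1 : Tendsto (fun s => M * ‖z s - z t‖) (𝓝[Icc 0 T] t) (𝓝 (M * 0)) :=
    ((tendsto_iff_norm_sub_tendsto_zero.mp (hz t ht))).const_mul M
  rw [mul_zero] at h1
  refine squeeze_zero' (Eventually.of_forall fun s => norm_nonneg _) ?_ h1
  filter_upwards [self_mem_nhdsWithin] with s hs
  exact (V.lip _ _ (norm_nonneg _) (norm_nonneg _)).trans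
    (mul_le_mul_of_nonneg_left (abs_norm_sub_norm_le _ _) V.M0)

theorem deriv_pair (Fr : Frame W m C) (V : Visc ν μ A M) (hn : ContinuousOn n (Icc 0 T))
    (hF : ContinuousOn F (Icc 0 T)) (Sl : Sln W m μ n T F u u' z c1 c2 e0) {p : H × K}
    (hp : p ∈ W) {t : ℝ} (ht : t ∈ Icc 0 T) :
    HasDerivWithinAt (fun s => ⟪u s, p.1⟫_ℝ) ⟪u' t, p.1⟫_ℝ (Icc 0 T) t := by
  have hR := toReg Sl (x0 := u 0) rfl
  have hmc := hR.mc Fr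
  have hβ : ContinuousOn (fun s => ⟪F s - (n s + μ ‖z s‖) • z s + m (u s), p.2⟫_ℝ) (Icc 0 T) :=
    ((hF.sub ((hn.add (mu_cont V Sl.zc)).smul Sl.zc)).add hmc).inner continuousOn_const
  have h1 := (prim_deriv hβ ht).const_add ⟪u 0, p.1⟫_ℝ
  rw [← Sl.point t ht p hp] at h1
  refine h1.congr_of_mem (fun s hs => ?_) ht
  have h2 := Sl.weak p hp 0 s le_rfl hs.1 hs.2
  rw [inner_sub_left] at h2
  linarith

theorem deriv_sq (Fr : Frame W m C) (V : Visc ν μ A M) (Vb : Visc ν μb Ab Mb)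
    (hn : ContinuousOn n (Icc 0 T)) (hnb : ContinuousOn nb (Icc 0 T))
    (hF : ContinuousOn F (Icc 0 T)) (hFb : ContinuousOn Fb (Icc 0 T))
    (Sl : Sln W m μ n T F u u' z c1 c2 e0) (Sb : Sln W m μb nb T Fb ub ub' zb b1 b2 eb0)
    {t : ℝ} (ht : t ∈ Icc 0 T) :
    HasDerivWithinAt (fun s => ‖u s - ub s‖ ^ 2) (2 * ⟪u' t - ub' t, u t - ub t⟫_ℝ)
      (Icc 0 T) t := by
  set w : ℝ → H := fun s => u s - ub s with hw
  have hp : (u t - ub t, z t - zb t) ∈ W := W.sub_mem (Sl.mem t ht) (Sb.mem t ht)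
  have h1 := deriv_pair Fr V hn hF Sl hp ht
  have h2 := deriv_pair Fr Vb hnb hFb Sb hp ht
  have h3 := ((h1.sub h2).const_mul 2).sub_const (‖w t‖ ^ 2)
  have hc1 : 0 ≤ c1 := (norm_nonneg _).trans (Sl.vel t ht)
  have hb1 : 0 ≤ b1 := (norm_nonneg _).trans (Sb.vel t ht)
  have h4 : HasDerivWithinAt (fun s => ‖w s - w t‖ ^ 2) 0 (Icc 0 T) t := by
    refine deriv_zero_of_sq (c := (c1 + b1) ^ 2) (by positivity) (fun s hs => ?_) (by simp)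
    rw [abs_of_nonneg (by positivity)]
    have k1 := Sl.lip s hs t ht
    have k2 := Sb.lip s hs t ht
    have k3 : ‖w s - w t‖ ≤ (c1 + b1) * |s - t| := by
      have e : w s - w t = (u s - u t) - (ub s - ub t) := by simp only [hw]; abel
      rw [e]
      calc ‖(u s - u t) - (ub s - ub t)‖ ≤ ‖u s - u t‖ + ‖ub s - ub t‖ := norm_sub_le _ _
        _ ≤ c1 * |s - t| + b1 * |s - t| := add_le_add k1 k2
        _ = _ := by ring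
    calc ‖w s - w t‖ ^ 2 ≤ ((c1 + b1) * |s - t|) ^ 2 := by gcongr
      _ = (c1 + b1) ^ 2 * (s - t) ^ 2 := by rw [mul_pow, sq_abs]
  have h5 := h4.add h3
  rw [zero_add] at h5
  have e1 : 2 * (⟪u' t, (u t - ub t, z t - zb t).1⟫_ℝ - ⟪ub' t, (u t - ub t, z t - zb t).1⟫_ℝ)
      = 2 * ⟪u' t - ub' t, u t - ub t⟫_ℝ := by rw [inner_sub_left]
  rw [e1] at h5
  refine h5.congr_of_mem (fun s _ => ?_) ht
  show ‖w s‖ ^ 2 = ‖w s - w t‖ ^ 2 + (2 * (⟪u s, w t⟫_ℝ - ⟪ub s, w t⟫_ℝ) - ‖w t‖ ^ 2)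
  have e2 : ⟪u s, w t⟫_ℝ - ⟪ub s, w t⟫_ℝ = ⟪w s, w t⟫_ℝ := by
    simp only [hw]; rw [← inner_sub_left]
  have e3 := norm_sub_sq_real (w s) (w t)
  linarith

theorem diff_point (Fr : Frame W m C) (V : Visc ν μ A M) (hν : 0 < ν)
    (Sl : Sln W m μ n T F u u' z c1 c2 e0) (Sb : Sln W m μb nb T Fb ub ub' zb b1 b2 eb0)
    {t : ℝ} (ht : t ∈ Icc 0 T) (hlow : ν ≤ n t) {r Zb : ℝ} (hzb : ‖zb t‖ ≤ Zb)
    (hr : ‖F t - Fb t‖ + (|n t - nb t| + |μ ‖zb t‖ - μb ‖zb t‖|) * ‖zb t‖ ≤ r) :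
    2 * ⟪u' t - ub' t, u t - ub t⟫_ℝ + ν / 2 * ‖z t - zb t‖ ^ 2
      ≤ 16 * C ^ 2 * (Zb ^ 4 / ν ^ 3) * ‖u t - ub t‖ ^ 2 + 2 / ν * r ^ 2 := by
  have hC := Fr.C0
  set w := u t - ub t with hw
  set ζ := z t - zb t with hζ
  have hwζ : (w, ζ) ∈ W := W.sub_mem (Sl.mem t ht) (Sb.mem t ht)
  have e1 := Sl.point t ht _ hwζ
  have e2 := Sb.point t ht _ hwζ
  simp only at e1 e2
  have e0 : (n t + μ ‖z t‖) • z t - (nb t + μb ‖zb t‖) • zb t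
      = ((ν + μ ‖z t‖) • z t - (ν + μ ‖zb t‖) • zb t) + (n t - ν) • ζ
        + ((n t - nb t) + (μ ‖zb t‖ - μb ‖zb t‖)) • zb t := by
    rw [hζ]
    simp only [add_smul, sub_smul, smul_sub]; abel
  have e3 : ⟪u' t - ub' t, w⟫_ℝ = ⟪F t - Fb t, ζ⟫_ℝ
      - ⟪(n t + μ ‖z t‖) • z t - (nb t + μb ‖zb t‖) • zb t, ζ⟫_ℝ
      + ⟪m (u t) - m (ub t), ζ⟫_ℝ := by
    rw [inner_sub_left, e1, e2]
    simp only [inner_sub_left, inner_add_left]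
    ring
  have e4 : ⟪m (u t) - m (ub t), ζ⟫_ℝ = -⟪m w, zb t⟫_ℝ :=
    Fr.anti _ (Sl.mem t ht) _ (Sb.mem t ht)
  have h1 := stress_mono V (z t) (zb t)
  rw [← hζ] at h1
  have hna : 0 ≤ (n t - ν) * ‖ζ‖ ^ 2 := by
    have : 0 ≤ n t - ν := by linarith
    positivity
  have h2 : ⟪F t - Fb t, ζ⟫_ℝ ≤ ‖F t - Fb t‖ * ‖ζ‖ := real_inner_le_norm _ _
  have h2' : -(((n t - nb t) + (μ ‖zb t‖ - μb ‖zb t‖)) * ⟪zb t, ζ⟫_ℝ)
      ≤ (|n t - nb t| + |μ ‖zb t‖ - μb ‖zb t‖|) * ‖zb t‖ * ‖ζ‖ := by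
    calc -(((n t - nb t) + (μ ‖zb t‖ - μb ‖zb t‖)) * ⟪zb t, ζ⟫_ℝ)
        ≤ |((n t - nb t) + (μ ‖zb t‖ - μb ‖zb t‖)) * ⟪zb t, ζ⟫_ℝ| := neg_le_abs _
      _ = |(n t - nb t) + (μ ‖zb t‖ - μb ‖zb t‖)| * |⟪zb t, ζ⟫_ℝ| := abs_mul _ _
      _ ≤ (|n t - nb t| + |μ ‖zb t‖ - μb ‖zb t‖|) * (‖zb t‖ * ‖ζ‖) := by
          gcongr
          · exact abs_add_le _ _
          · exact abs_real_inner_le_norm _ _
      _ = _ := by ring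
  have hr0 : 0 ≤ r := le_trans (by positivity) hr
  have h3 : r * ‖ζ‖ ≤ ν / 4 * ‖ζ‖ ^ 2 + r ^ 2 / ν := by
    have h : 0 ≤ (ν * ‖ζ‖ / 2 - r) ^ 2 / ν := by positivity
    have e : (ν * ‖ζ‖ / 2 - r) ^ 2 / ν = ν / 4 * ‖ζ‖ ^ 2 - r * ‖ζ‖ + r ^ 2 / ν := by
      field_simp; ring
    linarith
  have h3' : ‖F t - Fb t‖ * ‖ζ‖ + (|n t - nb t| + |μ ‖zb t‖ - μb ‖zb t‖|) * ‖zb t‖ * ‖ζ‖
      ≤ r * ‖ζ‖ := by
    have := mul_le_mul_of_nonneg_right hr (norm_nonneg ζ)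
    linarith
  have h4 : -⟪m w, zb t⟫_ℝ ≤ ‖m w‖ * ‖zb t‖ := by
    have := abs_real_inner_le_norm (m w) (zb t)
    exact (neg_le_abs _).trans this
  have hμ : 0 ≤ μ ‖zb t‖ := V.nonneg _ (norm_nonneg _)
  have h5 : ‖m w‖ * ‖zb t‖ ≤ (ν + μ ‖zb t‖) / 2 * ‖ζ‖ ^ 2
      + (C ^ 2 * ‖zb t‖ ^ 4) * ‖w‖ ^ 2 / ((ν + μ ‖zb t‖) / 2) ^ 3 := by
    refine young4 (by positivity) (by positivity) (by positivity) (by positivity)
      (by positivity) ?_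
    have hq := Fr.quart _ hwζ
    simp only at hq
    calc (‖m w‖ * ‖zb t‖) ^ 4 = (‖m w‖ ^ 2) ^ 2 * ‖zb t‖ ^ 4 := by ring
      _ ≤ (C * (‖w‖ * ‖ζ‖ ^ 3)) ^ 2 * ‖zb t‖ ^ 4 := by gcongr
      _ = C ^ 2 * ‖zb t‖ ^ 4 * (‖ζ‖ ^ 2) ^ 3 * ‖w‖ ^ 2 := by ring
  have h6 : (C ^ 2 * ‖zb t‖ ^ 4) * ‖w‖ ^ 2 / ((ν + μ ‖zb t‖) / 2) ^ 3
      ≤ 8 * C ^ 2 * (Zb ^ 4 / ν ^ 3) * ‖w‖ ^ 2 := by
    have k1 : (ν / 2) ^ 3 ≤ ((ν + μ ‖zb t‖) / 2) ^ 3 := by gcongr; linarith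
    calc (C ^ 2 * ‖zb t‖ ^ 4) * ‖w‖ ^ 2 / ((ν + μ ‖zb t‖) / 2) ^ 3
        ≤ (C ^ 2 * Zb ^ 4) * ‖w‖ ^ 2 / (ν / 2) ^ 3 := by gcongr
      _ = 8 * C ^ 2 * (Zb ^ 4 / ν ^ 3) * ‖w‖ ^ 2 := by field_simp; ring
  have e5 : 2 / ν * r ^ 2 = 2 * (r ^ 2 / ν) := by ring
  have e6 : (16 * C ^ 2 * (Zb ^ 4 / ν ^ 3)) * ‖w‖ ^ 2
      = 2 * (8 * C ^ 2 * (Zb ^ 4 / ν ^ 3) * ‖w‖ ^ 2) := by ring
  rw [e3, e0, e4, e5, e6]
  simp only [inner_add_left, real_inner_smul_left, real_inner_self_eq_norm_sq]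
  simp only [inner_sub_left] at h1 h2 ⊢
  linarith

theorem energy_gap (Fr : Frame W m C) (V : Visc ν μ A M) (Vb : Visc ν μb Ab Mb) (hν : 0 < ν)
    (hT : 0 ≤ T) (hn : ContinuousOn n (Icc 0 T)) (hnb : ContinuousOn nb (Icc 0 T))
    (hF : ContinuousOn F (Icc 0 T)) (hFb : ContinuousOn Fb (Icc 0 T))
    (Sl : Sln W m μ n T F u u' z c1 c2 e0) (Sb : Sln W m μb nb T Fb ub ub' zb b1 b2 eb0)
    (hlow : ∀ t ∈ Icc 0 T, ν ≤ n t) {r Zb : ℝ} (hzb : ∀ t ∈ Icc 0 T, ‖zb t‖ ≤ Zb)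
    (hr : ∀ t ∈ Icc 0 T,
      ‖F t - Fb t‖ + (|n t - nb t| + |μ ‖zb t‖ - μb ‖zb t‖|) * ‖zb t‖ ≤ r) :
    ∫ s in (0 : ℝ)..T, ‖z s - zb s‖ ^ 2 ≤ 2 / ν * (Real.exp (16 * C ^ 2 * (Zb ^ 4 / ν ^ 3) * T)
      * (‖u 0 - ub 0‖ ^ 2 + T * (2 / ν * r ^ 2))) := by
  have h0T : (0 : ℝ) ∈ Icc 0 T := ⟨le_rfl, hT⟩
  have hZb : 0 ≤ Zb := (norm_nonneg _).trans (hzb 0 h0T)
  have h := gron hT (q := fun s => ‖u s - ub s‖ ^ 2)
    (q' := fun t => 2 * ⟪u' t - ub' t, u t - ub t⟫_ℝ)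
    (β := fun _ => 16 * C ^ 2 * (Zb ^ 4 / ν ^ 3)) (p := fun _ => 2 / ν * r ^ 2)
    (r := fun s => ν / 2 * ‖z s - zb s‖ ^ 2)
    (fun t ht => deriv_sq Fr V Vb hn hnb hF hFb Sl Sb ht) (fun t _ => by positivity)
    continuousOn_const (fun t _ => by positivity) continuousOn_const
    (fun t _ => by positivity)
    (continuousOn_const.mul ((Sl.zc.sub Sb.zc).norm.pow 2)) (fun t _ => by positivity)
    (fun t ht => diff_point Fr V hν Sl Sb ht (hlow t ht) (hzb t ht) (hr t ht)) T ⟨hT, le_rfl⟩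
  rw [intervalIntegral.integral_const_mul, intervalIntegral.integral_const,
    intervalIntegral.integral_const] at h
  simp only [smul_eq_mul, sub_zero] at h
  have h2 : 0 ≤ ‖u T - ub T‖ ^ 2 := by positivity
  have h3 : ν / 2 * ∫ s in (0 : ℝ)..T, ‖z s - zb s‖ ^ 2
      ≤ Real.exp (T * (16 * C ^ 2 * (Zb ^ 4 / ν ^ 3)))
        * (‖u 0 - ub 0‖ ^ 2 + T * (2 / ν * r ^ 2)) := by linarith
  rw [mul_comm (16 * C ^ 2 * (Zb ^ 4 / ν ^ 3)) T]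
  calc ∫ s in (0 : ℝ)..T, ‖z s - zb s‖ ^ 2
      = 2 / ν * (ν / 2 * ∫ s in (0 : ℝ)..T, ‖z s - zb s‖ ^ 2) := by field_simp
    _ ≤ _ := by gcongr

end H772R2.NSZ
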