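import Mathlib
import Pool.Agent.H772R2.NSZ.Diff

/-!
The closed-loop solutions depend continuously on the base viscosity, the data and the feedback;
the feedback is inactive if there is a small regular solution.
-/

set_option linter.unusedSectionVars false

open MeasureTheory Set Filter Topology Metric
open scoped InnerProductSpace NNReal ENNReal

namespace H772R2.NSZ

open H772R2.NSR (Frame grad_unique prim_cont gron young4 ii_of_cont ii_mono)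
open H772R2.NSG (Sln Visc Base stress_mono braw braw_nonneg mug mug_zero mug_nonneg visc_mug)
open H772R2.NSV

variable {H K : Type*} [NormedAddCommGroup H] [InnerProductSpace ℝ H] [CompleteSpace H]
  [NormedAddCommGroup K] [InnerProductSpace ℝ K] [CompleteSpace K]

variable {W : Submodule ℝ (H × K)} {m : H → K} {C C3 : ℝ} {ν T : ℝ}

theorem bootstrap {y : ℝ → ℝ} {a b : ℝ} (hy : ContinuousOn y (Icc 0 T)) (hab : a < b)
    (h0 : y 0 < b) (key : ∀ t ∈ Icc 0 T, (∀ s ∈ Icc 0 t, y s ≤ b) → y t ≤ a) :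
    ∀ t ∈ Icc 0 T, y t ≤ a := by
  have hall : ∀ t ∈ Icc 0 T, y t ≤ b := by
    by_contra hcon
    push Not at hcon
    obtain ⟨t1, ht1, h1⟩ := hcon
    set A : Set ℝ := {t ∈ Icc 0 T | b ≤ y t} with hA
    have hAc : IsCompact A := by
      have : A = Icc 0 T ∩ y ⁻¹' Ici b := rfl
      rw [this]
      exact isCompact_Icc.of_isClosed_subset
        (hy.preimage_isClosed_of_isClosed isClosed_Icc isClosed_Ici) inter_subset_left
    obtain ⟨t0, ht0, hmin⟩ := hAc.exists_isLeast ⟨t1, ht1, h1.le⟩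
    have ht00 : 0 < t0 := by
      rcases ht0.1.1.eq_or_lt with h | h
      · exfalso
        have h2 : b ≤ y t0 := ht0.2
        rw [← h] at h2
        linarith
      · exact h
    have hlt : ∀ s ∈ Ico 0 t0, y s < b := by
      intro s hs
      by_contra hcon
      exact absurd (hmin ⟨⟨hs.1, hs.2.le.trans ht0.1.2⟩, not_lt.mp hcon⟩) (not_le.mpr hs.2)
    have hle2 : ∀ s ∈ Ico 0 t0, y s ≤ a := fun s hs =>
      key s ⟨hs.1, hs.2.le.trans ht0.1.2⟩ fun r hr => (hlt r ⟨hr.1, hr.2.trans_lt hs.2⟩).le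
    have hlim : Tendsto y (𝓝[Ico 0 t0] t0) (𝓝 (y t0)) :=
      (hy t0 ht0.1).mono_left (nhdsWithin_mono _ fun s hs =>
        ⟨hs.1, hs.2.le.trans ht0.1.2⟩)
    have hne : (𝓝[Ico 0 t0] t0).NeBot := by
      rw [← mem_closure_iff_nhdsWithin_neBot, closure_Ico ht00.ne]
      exact ⟨ht00.le, le_rfl⟩
    have h2 : y t0 ≤ a := le_of_tendsto hlim (by
      filter_upwards [self_mem_nhdsWithin] with s hs using hle2 s hs)
    have h3 : b ≤ y t0 := ht0.2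
    linarith
  exact fun t ht => key t ht fun s hs => hall s ⟨hs.1, hs.2.trans ht.2⟩

theorem ph_lip {a b : ℝ} (ha : 1 ≤ a) (hb : 1 ≤ b) :
    |H772R2.NSG.ph a - H772R2.NSG.ph b| ≤ |a - b| := by
  wlog hab : a ≤ b generalizing a b
  · rw [abs_sub_comm, abs_sub_comm a b]
    exact this hb ha (le_of_not_ge hab)
  have h0 : (0 : ℝ) ≤ a := by linarith
  have h1 := H772R2.NSG.ph_mono h0 hab
  have h2 := H772R2.NSG.ph_sub h0 hab
  have h3 := H772R2.NSR.sqrt_lip one_pos ha hb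
  rw [Real.sqrt_one] at h3
  have h4 : Real.sqrt a ≤ Real.sqrt b := Real.sqrt_le_sqrt hab
  rw [abs_of_nonpos (by linarith), abs_of_nonpos (by linarith)]
  rw [abs_of_nonpos (by linarith), abs_of_nonpos (by linarith)] at h3
  norm_num at h3
  linarith

theorem mug_var {κ κb S Sb s R : ℝ} (hκb : 0 ≤ κb) (hS : 1 ≤ S) (hSb : 1 ≤ Sb)
    (hsR : s ≤ R) (hSR : S ≤ R) :
    |mug κ S s - mug κb Sb s| ≤ |κ - κb| * R + 2 * κb * |S - Sb| := by
  have e : mug κ S s - mug κb Sb s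
      = (κ - κb) * (H772R2.NSG.ph (max s S) - H772R2.NSG.ph S)
        + κb * ((H772R2.NSG.ph (max s S) - H772R2.NSG.ph (max s Sb))
          - (H772R2.NSG.ph S - H772R2.NSG.ph Sb)) := by
    unfold mug; ring
  have hm : 1 ≤ max s S := hS.trans (le_max_right _ _)
  have hmb : 1 ≤ max s Sb := hSb.trans (le_max_right _ _)
  have h1 : |H772R2.NSG.ph (max s S) - H772R2.NSG.ph S| ≤ R := by
    have k1 := H772R2.NSG.ph_mono (by linarith : (0 : ℝ) ≤ S) (le_max_right s S)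
    have k2 := H772R2.NSG.ph_le_sqrt (s := max s S) (by linarith)
    have k3 : Real.sqrt (max s S) ≤ max s S := by
      rw [Real.sqrt_le_left (by linarith)]
      nlinarith
    have k4 := H772R2.NSG.ph_nonneg S
    have k5 : max s S ≤ R := max_le hsR hSR
    rw [abs_of_nonneg (by linarith)]
    linarith
  have h2 := ph_lip hm hmb
  have h3 : |max s S - max s Sb| ≤ |S - Sb| := by
    have := abs_max_sub_max_le_max s S s Sb
    simpa using this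
  have h4 := ph_lip hS hSb
  rw [e]
  calc |(κ - κb) * (H772R2.NSG.ph (max s S) - H772R2.NSG.ph S)
        + κb * ((H772R2.NSG.ph (max s S) - H772R2.NSG.ph (max s Sb))
          - (H772R2.NSG.ph S - H772R2.NSG.ph Sb))|
      ≤ |κ - κb| * |H772R2.NSG.ph (max s S) - H772R2.NSG.ph S|
        + κb * (|H772R2.NSG.ph (max s S) - H772R2.NSG.ph (max s Sb)|
          + |H772R2.NSG.ph S - H772R2.NSG.ph Sb|) := by
        refine (abs_add_le _ _).trans ?_
        rw [abs_mul, abs_mul, abs_of_nonneg hκb]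
        gcongr
        exact abs_sub _ _
    _ ≤ |κ - κb| * R + κb * (|S - Sb| + |S - Sb|) :=
        add_le_add (mul_le_mul_of_nonneg_left h1 (abs_nonneg _))
          (mul_le_mul_of_nonneg_left (add_le_add (h2.trans h3) h4) hκb)
    _ = _ := by ring

theorem Dat.mono {x0 : H} {z0 : K} {F F1 : ℝ → K} {T' : ℝ} (D : Dat W T x0 z0 F F1)
    (h : T' ≤ T) : Dat W T' x0 z0 F F1 where
  mem := D.mem
  int := D.int.mono_measure (Measure.restrict_mono (Ioc_subset_Ioc_right h) le_rfl)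
  prim := fun a b ha hab hb => D.prim a b ha hab (hb.trans h)

theorem Cl.force {δ : ℝ} (hδ : 0 < δ) (hT : 0 ≤ T) {x0 xb0 : H} {z0 zb0 : K}
    {F F1 Fb Fb1 : ℝ → K} (D : Dat W T x0 z0 F F1) (Db : Dat W T xb0 zb0 Fb Fb1)
    (h : Cl T δ z0 F F1 zb0 Fb Fb1) {t : ℝ} (ht : t ∈ Icc 0 T) :
    ‖F t - Fb t‖ ≤ (T + 2) * δ := by
  have hfin := fin_m T
  have Ds := D.sub Db
  have h1 := Ds.prim 0 t le_rfl ht.1 ht.2
  have h2 : F t - Fb t = (F 0 - Fb 0) + ∫ s in (0 : ℝ)..t, (F1 s - Fb1 s) := by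
    rw [← h1]; abel
  have hi : IntegrableOn (fun s => F1 s - Fb1 s) (Ioc 0 T) := Ds.int.integrable (by norm_num)
  have hsq : IntegrableOn (fun s => ‖F1 s - Fb1 s‖ ^ 2) (Ioc 0 T) :=
    (memLp_two_iff_integrable_sq_norm Ds.int.aestronglyMeasurable).mp Ds.int
  have h3 : ‖∫ s in (0 : ℝ)..t, (F1 s - Fb1 s)‖ ≤ (T + 1) * δ := by
    calc ‖∫ s in (0 : ℝ)..t, (F1 s - Fb1 s)‖ ≤ ∫ s in (0 : ℝ)..t, ‖F1 s - Fb1 s‖ :=
          intervalIntegral.norm_integral_le_integral_norm ht.1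
      _ = ∫ s in Ioc 0 t, ‖F1 s - Fb1 s‖ := intervalIntegral.integral_of_le ht.1
      _ ≤ ∫ s in Ioc 0 T, ‖F1 s - Fb1 s‖ := setIntegral_mono_set hi.norm
          (Eventually.of_forall fun s => norm_nonneg _) (Ioc_subset_Ioc_right ht.2).eventuallyLE
      _ ≤ ∫ s in Ioc 0 T, (δ + ‖F1 s - Fb1 s‖ ^ 2 / δ) := by
          refine integral_mono hi.norm ((integrable_const _).add (hsq.div_const _)) fun s => ?_
          show ‖F1 s - Fb1 s‖ ≤ δ + ‖F1 s - Fb1 s‖ ^ 2 / δ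
          have k : 0 ≤ (‖F1 s - Fb1 s‖ - δ) ^ 2 / δ := by positivity
          have e : (‖F1 s - Fb1 s‖ - δ) ^ 2 / δ
              = ‖F1 s - Fb1 s‖ ^ 2 / δ - 2 * ‖F1 s - Fb1 s‖ + δ := by field_simp; ring
          have := norm_nonneg (F1 s - Fb1 s)
          linarith
      _ = T * δ + (∫ s in Ioc 0 T, ‖F1 s - Fb1 s‖ ^ 2) / δ := by
          rw [integral_add (integrable_const _) (hsq.div_const _), integral_div]
          simp [hT]
      _ ≤ T * δ + δ ^ 2 / δ := by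
          have k := h.F1
          rw [intervalIntegral.integral_of_le hT] at k
          gcongr
      _ = (T + 1) * δ := by field_simp
  rw [h2]
  calc ‖(F 0 - Fb 0) + ∫ s in (0 : ℝ)..t, (F1 s - Fb1 s)‖ ≤ δ + (T + 1) * δ :=
        (norm_add_le _ _).trans (add_le_add h.F0 h3)
    _ = (T + 2) * δ := by ring

theorem tot_vn {κ S A M B : ℝ} {n : ℝ → ℝ} {z : ℝ → K} (V : Visc ν (mug κ S) A M)
    (N : Base n ν T B) (hz : ContinuousOn z (Icc 0 T)) :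
    ContinuousOn (fun t => n t + mug κ S ‖z t‖) (Icc 0 T) ∧
    Vn ν T (fun t => n t + mug κ S ‖z t‖) := by
  have hc : ContinuousOn (fun t => n t + mug κ S ‖z t‖) (Icc 0 T) := N.cont.add (mu_cont V hz)
  refine ⟨hc, ⟨(hc.integrableOn_Icc).mono_set Ioc_subset_Icc_self, ?_⟩⟩
  filter_upwards [ae_restrict_mem measurableSet_Ioc] with s hs
  have := N.low s (Ioc_subset_Icc_self hs)
  have := V.nonneg ‖z s‖ (norm_nonneg _)
  linarith

theorem cl_close (Fr : Frame W m C) (Tb : TriB W m C3) {ι : Type*} {g : ι → H} {f : ι → K}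
    {lam : ι → ℝ} (E : Eig W g f lam) (hν : 0 < ν) (hT : 0 < T)
    {Fb Fb1 : ℝ → K} {xb0 : H} {zb0 : K} (Db : Dat W T xb0 zb0 Fb Fb1)
    {nb : ℝ → ℝ} {Bb : ℝ} (Nb : Base nb ν T Bb) {κb Sb : ℝ} (hκb : 0 < κb) (hSb : 1 ≤ Sb)
    {ub ub' : ℝ → H} {zb : ℝ → K} {b1 b2 eb0 : ℝ}
    (Slb : Sln W m (mug κb Sb) nb T Fb ub ub' zb b1 b2 eb0) (hub0 : ub 0 = xb0)
    {ω : ℝ} (hω : 0 < ω) :
    ∃ δ : ℝ, 0 < δ ∧ ∀ (F F1 : ℝ → K) (x0 : H) (z0 : K) (n : ℝ → ℝ) (B κ S : ℝ)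
      (u u' : ℝ → H) (z : ℝ → K) (c1 c2 e0 : ℝ), Dat W T x0 z0 F F1 →
      Cl T δ z0 F F1 zb0 Fb Fb1 → Base n ν T B → (∀ t ∈ Icc 0 T, |n t - nb t| ≤ δ) →
      0 < κ → 1 ≤ S → |κ - κb| ≤ δ → |S - Sb| ≤ δ →
      Sln W m (mug κ S) n T F u u' z c1 c2 e0 → u 0 = x0 →
      ∀ t ∈ Icc 0 T, ‖z t - zb t‖ ≤ ω := by
  have hC := Fr.C0
  have h0T : (0 : ℝ) ∈ Icc 0 T := ⟨le_rfl, hT.le⟩
  obtain ⟨Zb, hZb⟩ := (isCompact_Icc.image_of_continuousOn Slb.zc).isBounded.exists_norm_le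
  have hZb' : ∀ t ∈ Icc 0 T, ‖zb t‖ ≤ Zb := fun t ht => hZb _ ⟨t, ht, rfl⟩
  have hZb0 : 0 ≤ Zb := (norm_nonneg _).trans (hZb' 0 h0T)
  have hRb := toReg Slb hub0
  have Vb := visc_mug (ν := ν) hκb (by linarith : 0 < Sb) hν
  obtain ⟨hNbc, hNbv⟩ := tot_vn Vb Nb Slb.zc
  set ω' : ℝ := min ω (1 / 2) with hω'
  have hω'0 : 0 < ω' := lt_min hω (by norm_num)
  obtain ⟨δ1, hδ1, hcs⟩ := comp_small2 Fr Tb E hν hT.le Db (Z := Zb + 1) (by positivity) hω'0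
  set P : ℝ := Zb + Sb + 2 with hP
  have hP0 : 0 < P := by positivity
  set k1 : ℝ := (T + 2) + (1 + (P + 2 * κb)) * Zb with hk1
  have hk10 : 0 < k1 := by positivity
  set k2 : ℝ := 2 / ν * (Real.exp (16 * C ^ 2 * (Zb ^ 4 / ν ^ 3) * T)
      * (C ^ 2 + T * (2 / ν * k1 ^ 2))) with hk2
  have hk20 : 0 < k2 := by positivity
  set k3 : ℝ := T * (1 + (P + 2 * κb)) + (κb + 1) * (T + k2) with hk3
  have hk30 : 0 < k3 := by positivity
  set δ : ℝ := min (min (1 / 2) δ1) (δ1 / k3) with hδ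
  have hδ0 : 0 < δ := lt_min (lt_min (by norm_num) hδ1) (by positivity)
  have hδh : δ ≤ 1 / 2 := (min_le_left _ _).trans (min_le_left _ _)
  have hδδ1 : δ ≤ δ1 := (min_le_left _ _).trans (min_le_right _ _)
  have hδk : k3 * δ ≤ δ1 := by
    calc k3 * δ ≤ k3 * (δ1 / k3) := by gcongr; exact min_le_right _ _
      _ = δ1 := by field_simp
  refine ⟨δ, hδ0, ?_⟩
  intro F F1 x0 z0 n B κ S u u' z c1 c2 e0 D hcl N hnn hκ hS hκκ hSS Sl hu0
  have V := visc_mug (ν := ν) hκ (by linarith : 0 < S) hν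
  have hR := toReg Sl hu0
  obtain ⟨hNc, hNv⟩ := tot_vn V N Sl.zc
  have hFc := prim_cont D.int D.prim
  have hFbc := prim_cont Db.int Db.prim
  have hz0 : z 0 = z0 := hR.grad0 Fr hT.le D.mem
  have hzb0 : zb 0 = zb0 := hRb.grad0 Fr hT.le Db.mem
  have hκ2 : κ ≤ κb + 1 := by have := (abs_le.mp hκκ).2; linarith
  have hS2 : S ≤ Sb + 1 := by have := (abs_le.mp hSS).2; linarith
  -- variation of the feedback
  have hvar : ∀ t ∈ Icc 0 T, |mug κ S ‖zb t‖ - mug κb Sb ‖zb t‖| ≤ (P + 2 * κb) * δ := by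
    intro t ht
    have h1 := mug_var (s := ‖zb t‖) (R := P) (κ := κ) hκb.le hS hSb
      (by have := hZb' t ht; linarith) (by linarith)
    calc |mug κ S ‖zb t‖ - mug κb Sb ‖zb t‖| ≤ |κ - κb| * P + 2 * κb * |S - Sb| := h1
      _ ≤ δ * P + 2 * κb * δ := by gcongr
      _ = _ := by ring
  have hr : ∀ t ∈ Icc 0 T,
      ‖F t - Fb t‖ + (|n t - nb t| + |mug κ S ‖zb t‖ - mug κb Sb ‖zb t‖|) * ‖zb t‖
        ≤ k1 * δ := by
    intro t ht
    have a1 := hcl.force hδ0 hT.le D Db ht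
    have a2 := hnn t ht
    have a3 := hvar t ht
    have a4 := hZb' t ht
    calc ‖F t - Fb t‖ + (|n t - nb t| + |mug κ S ‖zb t‖ - mug κb Sb ‖zb t‖|) * ‖zb t‖
        ≤ (T + 2) * δ + (δ + (P + 2 * κb) * δ) * Zb := by gcongr
      _ = k1 * δ := by rw [hk1]; ring
  have hgap := energy_gap Fr V Vb hν hT.le N.cont Nb.cont hFc hFbc Sl Slb N.low hZb' hr
  have hu : ‖u 0 - ub 0‖ ≤ C * δ := by
    have h1 := Fr.poinc _ (W.sub_mem D.mem Db.mem)
    rw [hu0, hub0]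
    calc ‖x0 - xb0‖ ≤ C * ‖z0 - zb0‖ := h1
      _ ≤ C * δ := by gcongr; exact hcl.z
  have hgap2 : ∫ s in (0 : ℝ)..T, ‖z s - zb s‖ ^ 2 ≤ k2 * δ ^ 2 := by
    refine hgap.trans ?_
    calc 2 / ν * (Real.exp (16 * C ^ 2 * (Zb ^ 4 / ν ^ 3) * T)
          * (‖u 0 - ub 0‖ ^ 2 + T * (2 / ν * (k1 * δ) ^ 2)))
        ≤ 2 / ν * (Real.exp (16 * C ^ 2 * (Zb ^ 4 / ν ^ 3) * T)
          * ((C * δ) ^ 2 + T * (2 / ν * (k1 * δ) ^ 2))) := by gcongr
      _ = k2 * δ ^ 2 := by rw [hk2]; ring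
  have hζc : ContinuousOn (fun s => ‖z s - zb s‖) (Icc 0 T) := (Sl.zc.sub Slb.zc).norm
  have hζ2 : IntervalIntegrable (fun s => ‖z s - zb s‖ ^ 2) volume 0 T :=
    ii_of_cont (hζc.pow 2) le_rfl hT.le le_rfl
  have hζ1 : ∫ s in (0 : ℝ)..T, ‖z s - zb s‖ ≤ (T + k2) * δ := by
    calc ∫ s in (0 : ℝ)..T, ‖z s - zb s‖
        ≤ ∫ s in (0 : ℝ)..T, (δ + ‖z s - zb s‖ ^ 2 / δ) := by
          refine intervalIntegral.integral_mono_on hT.le (ii_of_cont hζc le_rfl hT.le le_rfl)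
            (intervalIntegrable_const.add (hζ2.div_const _)) fun s _ => ?_
          have k : 0 ≤ (‖z s - zb s‖ - δ) ^ 2 / δ := by positivity
          have e : (‖z s - zb s‖ - δ) ^ 2 / δ
              = ‖z s - zb s‖ ^ 2 / δ - 2 * ‖z s - zb s‖ + δ := by field_simp; ring
          have := norm_nonneg (z s - zb s)
          linarith
      _ = T * δ + (∫ s in (0 : ℝ)..T, ‖z s - zb s‖ ^ 2) / δ := by
          rw [intervalIntegral.integral_add intervalIntegrable_const (hζ2.div_const _),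
            intervalIntegral.integral_div]
          simp
      _ ≤ T * δ + (k2 * δ ^ 2) / δ := by gcongr
      _ = (T + k2) * δ := by field_simp
  have hM : κ * (2 * Real.sqrt S)⁻¹ ≤ κb + 1 := by
    have h1 : 1 ≤ Real.sqrt S := by rw [Real.one_le_sqrt]; exact hS
    have h2 : (2 * Real.sqrt S)⁻¹ ≤ 1 := inv_le_one_of_one_le₀ (by linarith)
    calc κ * (2 * Real.sqrt S)⁻¹ ≤ κ * 1 := by gcongr
      _ ≤ κb + 1 := by linarith
  have hμd : ∀ t, |mug κ S ‖z t‖ - mug κ S ‖zb t‖| ≤ (κb + 1) * ‖z t - zb t‖ := by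
    intro t
    refine (V.lip _ _ (norm_nonneg _) (norm_nonneg _)).trans ?_
    exact mul_le_mul hM (abs_norm_sub_norm_le _ _) (abs_nonneg _) (by positivity)
  have hL1 : ∫ s in (0 : ℝ)..T, |(n s + mug κ S ‖z s‖) - (nb s + mug κb Sb ‖zb s‖)|
      ≤ δ1 := by
    calc ∫ s in (0 : ℝ)..T, |(n s + mug κ S ‖z s‖) - (nb s + mug κb Sb ‖zb s‖)|
        ≤ ∫ s in (0 : ℝ)..T, ((1 + (P + 2 * κb)) * δ + (κb + 1) * ‖z s - zb s‖) := by
          refine intervalIntegral.integral_mono_on hT.le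
            (ii_of_cont (hNc.sub hNbc).abs le_rfl hT.le le_rfl)
            (intervalIntegrable_const.add ((ii_of_cont hζc le_rfl hT.le le_rfl).const_mul _))
            fun s hs => ?_
          have a1 := hnn s hs
          have a2 := hvar s hs
          have a3 := hμd s
          have e : (n s + mug κ S ‖z s‖) - (nb s + mug κb Sb ‖zb s‖)
              = (n s - nb s) + ((mug κ S ‖z s‖ - mug κ S ‖zb s‖)
                + (mug κ S ‖zb s‖ - mug κb Sb ‖zb s‖)) := by ring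
          rw [e]
          calc _ ≤ |n s - nb s| + (|mug κ S ‖z s‖ - mug κ S ‖zb s‖|
                + |mug κ S ‖zb s‖ - mug κb Sb ‖zb s‖|) :=
                (abs_add_le _ _).trans (by gcongr; exact abs_add_le _ _)
            _ ≤ δ + ((κb + 1) * ‖z s - zb s‖ + (P + 2 * κb) * δ) := by gcongr
            _ = _ := by ring
      _ = T * ((1 + (P + 2 * κb)) * δ) + (κb + 1) * ∫ s in (0 : ℝ)..T, ‖z s - zb s‖ := by
          rw [intervalIntegral.integral_add intervalIntegrable_const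
            ((ii_of_cont hζc le_rfl hT.le le_rfl).const_mul _), intervalIntegral.integral_const,
            intervalIntegral.integral_const_mul, smul_eq_mul, sub_zero]
      _ ≤ T * ((1 + (P + 2 * κb)) * δ) + (κb + 1) * ((T + k2) * δ) := by gcongr
      _ = k3 * δ := by rw [hk3]; ring
      _ ≤ δ1 := hδk
  have hcl1 := hcl.mono hδ0.le hδδ1
  have hstep : ∀ t ∈ Icc 0 T, (∀ s ∈ Icc 0 t, ‖z s‖ ≤ Zb + 1) →
      ∀ s ∈ Icc 0 t, ‖z s - zb s‖ ≤ ω' := by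
    intro t ht hle s hs
    refine hcs t ht _ _ u ub z zb F F1 x0 z0 D hcl1 (hNv.mono ht.2) (hNbv.mono ht.2)
      (hR.mono ht.2) (hRb.mono ht.2) hle
      (fun s hs => (hZb' s ⟨hs.1, hs.2.trans ht.2⟩).trans (by linarith)) ?_ s hs
    refine le_trans ?_ hL1
    exact ii_mono (hNc.sub hNbc).abs (fun s _ => abs_nonneg _) ht
  have hb := bootstrap (T := T) (y := fun t => ‖z t‖) (a := Zb + 1 / 2) (b := Zb + 1)
    Sl.zc.norm (by linarith) (by
      show ‖z 0‖ < Zb + 1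
      have h1 := hcl.z
      have h2 := hZb' 0 h0T
      rw [hzb0] at h2
      rw [hz0]
      calc ‖z0‖ = ‖(z0 - zb0) + zb0‖ := by rw [sub_add_cancel]
        _ ≤ ‖z0 - zb0‖ + ‖zb0‖ := norm_add_le _ _
        _ < Zb + 1 := by linarith) (fun t ht hle => by
      have h1 := hstep t ht hle t ⟨ht.1, le_rfl⟩
      have h2 := hZb' t ht
      have h3 : ω' ≤ 1 / 2 := min_le_right _ _
      show ‖z t‖ ≤ Zb + 1 / 2
      calc ‖z t‖ = ‖(z t - zb t) + zb t‖ := by rw [sub_add_cancel]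
        _ ≤ ‖z t - zb t‖ + ‖zb t‖ := norm_add_le _ _
        _ ≤ Zb + 1 / 2 := by linarith)
  intro t ht
  refine (hstep T ⟨hT.le, le_rfl⟩ (fun s hs => ?_) t ht).trans (min_le_left _ _)
  have h4 : ‖z s‖ ≤ Zb + 1 / 2 := hb s hs
  linarith

/-- the feedback depends continuously on everything. -/
theorem cl_mu (Fr : Frame W m C) (Tb : TriB W m C3) {ι : Type*} {g : ι → H} {f : ι → K}
    {lam : ι → ℝ} (E : Eig W g f lam) (hν : 0 < ν) (hT : 0 < T)
    {Fb Fb1 : ℝ → K} {xb0 : H} {zb0 : K} (Db : Dat W T xb0 zb0 Fb Fb1)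
    {nb : ℝ → ℝ} {Bb : ℝ} (Nb : Base nb ν T Bb) {κb Sb : ℝ} (hκb : 0 < κb) (hSb : 1 ≤ Sb)
    {ub ub' : ℝ → H} {zb : ℝ → K} {b1 b2 eb0 : ℝ}
    (Slb : Sln W m (mug κb Sb) nb T Fb ub ub' zb b1 b2 eb0) (hub0 : ub 0 = xb0)
    {ω : ℝ} (hω : 0 < ω) :
    ∃ δ : ℝ, 0 < δ ∧ ∀ (F F1 : ℝ → K) (x0 : H) (z0 : K) (n : ℝ → ℝ) (B κ S : ℝ)
      (u u' : ℝ → H) (z : ℝ → K) (c1 c2 e0 : ℝ), Dat W T x0 z0 F F1 →
      Cl T δ z0 F F1 zb0 Fb Fb1 → Base n ν T B → (∀ t ∈ Icc 0 T, |n t - nb t| ≤ δ) →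
      0 < κ → 1 ≤ S → |κ - κb| ≤ δ → |S - Sb| ≤ δ →
      Sln W m (mug κ S) n T F u u' z c1 c2 e0 → u 0 = x0 →
      ∀ t ∈ Icc 0 T, |mug κ S ‖z t‖ - mug κb Sb ‖zb t‖| ≤ ω := by
  have h0T : (0 : ℝ) ∈ Icc 0 T := ⟨le_rfl, hT.le⟩
  obtain ⟨Zb, hZb⟩ := (isCompact_Icc.image_of_continuousOn Slb.zc).isBounded.exists_norm_le
  have hZb' : ∀ t ∈ Icc 0 T, ‖zb t‖ ≤ Zb := fun t ht => hZb _ ⟨t, ht, rfl⟩
  have hZb0 : 0 ≤ Zb := (norm_nonneg _).trans (hZb' 0 h0T)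
  obtain ⟨δ1, hδ1, hcc⟩ := cl_close Fr Tb E hν hT Db Nb hκb hSb Slb hub0
    (ω := ω / (2 * (κb + 1))) (by positivity)
  set P : ℝ := Zb + Sb + 2 with hP
  have hP0 : 0 < P := by positivity
  set δ2 : ℝ := ω / (2 * (P + 2 * κb)) with hδ2
  have hδ20 : 0 < δ2 := by positivity
  have hδ0 : 0 < min (min δ1 δ2) 1 := lt_min (lt_min hδ1 hδ20) one_pos
  refine ⟨min (min δ1 δ2) 1, hδ0, ?_⟩
  intro F F1 x0 z0 n B κ S u u' z c1 c2 e0 D hcl N hnn hκ hS hκκ hSS Sl hu0 t ht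
  have hle1 : min (min δ1 δ2) 1 ≤ δ1 := (min_le_left _ _).trans (min_le_left _ _)
  have hle2 : min (min δ1 δ2) 1 ≤ δ2 := (min_le_left _ _).trans (min_le_right _ _)
  have hle3 : min (min δ1 δ2) 1 ≤ 1 := min_le_right _ _
  have h1 := hcc F F1 x0 z0 n B κ S u u' z c1 c2 e0 D (hcl.mono hδ0.le hle1) N
    (fun t ht => (hnn t ht).trans hle1) hκ hS (hκκ.trans hle1) (hSS.trans hle1) Sl hu0 t ht
  have V := visc_mug (ν := ν) hκ (by linarith : 0 < S) hν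
  have hκ2 : κ ≤ κb + 1 := by have := (abs_le.mp (hκκ.trans hle3)).2; linarith
  have hS2 : S ≤ Sb + 1 := by have := (abs_le.mp (hSS.trans hle3)).2; linarith
  have hM : κ * (2 * Real.sqrt S)⁻¹ ≤ κb + 1 := by
    have h1 : 1 ≤ Real.sqrt S := by rw [Real.one_le_sqrt]; exact hS
    have h2 : (2 * Real.sqrt S)⁻¹ ≤ 1 := inv_le_one_of_one_le₀ (by linarith)
    calc κ * (2 * Real.sqrt S)⁻¹ ≤ κ * 1 := by gcongr
      _ ≤ κb + 1 := by linarith
  have a1 : |mug κ S ‖z t‖ - mug κ S ‖zb t‖| ≤ (κb + 1) * (ω / (2 * (κb + 1))) := by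
    refine (V.lip _ _ (norm_nonneg _) (norm_nonneg _)).trans ?_
    exact mul_le_mul hM ((abs_norm_sub_norm_le _ _).trans h1) (abs_nonneg _) (by positivity)
  have e1 : (κb + 1) * (ω / (2 * (κb + 1))) = ω / 2 := by field_simp
  have h2 := mug_var (s := ‖zb t‖) (R := P) (κ := κ) hκb.le hS hSb
    (by have := hZb' t ht; linarith) (by linarith)
  have a2 : |mug κ S ‖zb t‖ - mug κb Sb ‖zb t‖| ≤ ω / 2 := by
    calc |mug κ S ‖zb t‖ - mug κb Sb ‖zb t‖| ≤ |κ - κb| * P + 2 * κb * |S - Sb| := h2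
      _ ≤ δ2 * P + 2 * κb * δ2 := by
          have := hκκ.trans hle2
          have := hSS.trans hle2
          gcongr
      _ = (P + 2 * κb) * δ2 := by ring
      _ = ω / 2 := by rw [hδ2]; field_simp
  calc |mug κ S ‖z t‖ - mug κb Sb ‖zb t‖|
      = |(mug κ S ‖z t‖ - mug κ S ‖zb t‖) + (mug κ S ‖zb t‖ - mug κb Sb ‖zb t‖)| := by
        rw [sub_add_sub_cancel]
    _ ≤ ω / 2 + ω / 2 := (abs_add_le _ _).trans (add_le_add (a1.trans e1.le) a2)
    _ = ω := by ring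

/-- the feedback is inactive if there is a regular solution below the threshold. -/
theorem inactive (Fr : Frame W m C) (Tb : TriB W m C3) {ι : Type*} {g : ι → H} {f : ι → K}
    {lam : ι → ℝ} (E : Eig W g f lam) (hν : 0 < ν) (hT : 0 < T)
    {F F1 : ℝ → K} {x0 : H} {z0 : K} (D : Dat W T x0 z0 F F1)
    {n : ℝ → ℝ} {B : ℝ} (N : Base n ν T B) {κ S : ℝ}
    {u u' : ℝ → H} {z : ℝ → K} {c1 c2 e0 : ℝ}
    (Sl : Sln W m (mug κ S) n T F u u' z c1 c2 e0) (hu0 : u 0 = x0)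
    {v : ℝ → H} {w : ℝ → K} (hR : Reg W m T n F x0 v w) {Z : ℝ}
    (hw : ∀ t ∈ Icc 0 T, ‖w t‖ ≤ Z) (hZS : Z < S) : ∀ t ∈ Icc 0 T, ‖z t‖ ≤ Z := by
  have h0T : (0 : ℝ) ∈ Icc 0 T := ⟨le_rfl, hT.le⟩
  have hR' := toReg Sl hu0
  have hz0 : z 0 = z0 := hR'.grad0 Fr hT.le D.mem
  have hw0 : w 0 = z0 := hR.grad0 Fr hT.le D.mem
  refine bootstrap (T := T) (y := fun t => ‖z t‖) (a := Z) (b := S) Sl.zc.norm hZS ?_ ?_
  · show ‖z 0‖ < S
    rw [hz0, ← hw0]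
    exact (hw 0 h0T).trans_lt hZS
  · intro t ht hle
    show ‖z t‖ ≤ Z
    have h1 : Reg W m t n F x0 u z := by
      refine (hR'.mono ht.2).congr_n ?_
      filter_upwards [ae_restrict_mem measurableSet_Ioc] with s hs
      rw [mug_zero (hle s (Ioc_subset_Icc_self hs)), add_zero]
    have Dt := D.mono ht.2
    have h2 := (uniq Fr Tb E hν ht.1 Dt.mem Dt.int Dt.prim ((base_vn N).mono ht.2) h1
      (hR.mono ht.2) ⟨ht.1, le_rfl⟩).2
    rw [h2]
    exact hw t ht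

end H772R2.NSZ
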