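import Mathlib
import Pool.Agent.H772R2.NSZ.Loop

/-!
Regularity is stable under changes of the viscosity and of the data.
-/

set_option linter.unusedSectionVars false

open MeasureTheory Set Filter Topology Metric
open scoped InnerProductSpace NNReal ENNReal

namespace H772R2.NSZ

open H772R2.NSR (Frame grad_unique prim_cont prim_shift ec)
open H772R2.NSG (Base Sln St mug mug_zero mug_nonneg visc_mug exists_sln)
open H772R2.NSV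

variable {H K : Type*} [NormedAddCommGroup H] [InnerProductSpace ℝ H] [CompleteSpace H]
  [NormedAddCommGroup K] [InnerProductSpace ℝ K] [CompleteSpace K]

variable {W : Submodule ℝ (H × K)} {m : H → K} {C C3 : ℝ} {ν T a : ℝ}

/-- The compatibility condition with the value `a` of the viscosity. -/
def Cmp (W : Submodule ℝ (H × K)) (m : H → K) (a : ℝ) (x0 : H) (z0 : K) (F : ℝ → K) : Prop :=
  ∃ g0 : H, ∀ p ∈ W, ⟪F 0 - a • z0 + m x0, p.2⟫_ℝ = ⟪g0, p.1⟫_ℝ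

/-- closed-loop solutions. -/
theorem loop_sol (Fr : Frame W m C) (hν : 0 < ν) (hT : 0 < T)
    (hcomp : ∀ R : ℝ, TotallyBounded {v : H | ∃ z, (v, z) ∈ W ∧ ‖z‖ ≤ R})
    {F F1 : ℝ → K} {x0 : H} {z0 : K} (D : Dat W T x0 z0 F F1) (hc : Cmp W m a x0 z0 F)
    {n : ℝ → ℝ} {B : ℝ} (N : Base n ν T B) (hn0 : n 0 = a) {κ S : ℝ} (hκ : 0 < κ) (hS : 1 ≤ S)
    (hz0 : ‖z0‖ ≤ S) :
    ∃ (u u' : ℝ → H) (z : ℝ → K) (c1 c2 : ℝ), u 0 = x0 ∧
      Sln W m (mug κ S) n T F u u' z c1 c2 (ec ν T ‖x0‖ F) := by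
  obtain ⟨g0, hc⟩ := hc
  have hFc := prim_cont D.int D.prim
  have V := visc_mug (ν := ν) hκ (by linarith : 0 < S) hν
  exact exists_sln Fr V N hν hT hFc (Φ := ∫ s in (0 : ℝ)..T, ‖F1 s‖ ^ 2)
    (intervalIntegral.integral_nonneg hT.le (fun s _ => by positivity))
    (prim_shift D.int D.prim) hcomp D.mem (g0 := g0) (by
      intro p hp
      rw [mug_zero hz0, add_zero, hn0]
      exact hc p hp)

theorem boot2 (Fr : Frame W m C) (Tb : TriB W m C3) {ι : Type*} {g : ι → H} {f : ι → K}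
    {lam : ι → ℝ} (E : Eig W g f lam) (hν : 0 < ν) (hT : 0 < T)
    (hcomp : ∀ R : ℝ, TotallyBounded {v : H | ∃ z, (v, z) ∈ W ∧ ‖z‖ ≤ R})
    {Fb Fb1 : ℝ → K} {xb0 : H} {zb0 : K} (Db : Dat W T xb0 zb0 Fb Fb1) {Z : ℝ} (hZ : 0 ≤ Z) :
    ∃ δ0 : ℝ, 0 < δ0 ∧ ∀ (nb : ℝ → ℝ) (ub : ℝ → H) (zb : ℝ → K), Vn ν T nb →
      Reg W m T nb Fb xb0 ub zb → (∀ t ∈ Icc 0 T, ‖zb t‖ ≤ Z) →
      ∀ (F F1 : ℝ → K) (x0 : H) (z0 : K), Dat W T x0 z0 F F1 → Cl T δ0 z0 F F1 zb0 Fb Fb1 →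
      Cmp W m a x0 z0 F → ∀ (n : ℝ → ℝ) (B : ℝ), Base n ν T B → n 0 = a →
      ∫ s in (0 : ℝ)..T, |n s - nb s| ≤ δ0 →
      ∃ (u : ℝ → H) (z : ℝ → K), Reg W m T n F x0 u z ∧ ∀ t ∈ Icc 0 T, ‖z t‖ ≤ Z + 1 := by
  obtain ⟨δ1, hδ1, hcs⟩ := comp_small2 Fr Tb E hν hT.le Db (Z := Z + 1) (by positivity)
    (ω := 1 / 2) (by norm_num)
  refine ⟨min δ1 (1 / 2), lt_min hδ1 (by norm_num), ?_⟩
  intro nb ub zb hnb hRb hZb F F1 x0 z0 D hcl hc n B N hn0 hδ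
  have h0T : (0 : ℝ) ∈ Icc 0 T := ⟨le_rfl, hT.le⟩
  have hδ0 : 0 < min δ1 (1 / 2) := lt_min hδ1 (by norm_num)
  have hcl1 := hcl.mono hδ0.le (min_le_left _ _)
  have hzb0 : ‖zb0‖ ≤ Z := by
    rw [← hRb.grad0 Fr hT.le Db.mem]
    exact hZb 0 h0T
  have hz0Z : ‖z0‖ ≤ Z + 1 / 2 := by
    have h1 := hcl.z.trans (min_le_right _ _)
    calc ‖z0‖ = ‖(z0 - zb0) + zb0‖ := by rw [sub_add_cancel]
      _ ≤ 1 / 2 + Z := (norm_add_le _ _).trans (add_le_add h1 hzb0)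
      _ = Z + 1 / 2 := by ring
  obtain ⟨u, u', z, c1, c2, hu0, Sl⟩ := loop_sol Fr hν hT hcomp D hc N hn0 (κ := 1) (S := Z + 1)
    one_pos (by linarith) (by linarith)
  have V := visc_mug (ν := ν) (κ := 1) one_pos (by linarith : 0 < Z + 1) hν
  have hR := toReg Sl hu0
  have hz0 : z 0 = z0 := hR.grad0 Fr hT.le D.mem
  have hnv := base_vn N
  have hb := bootstrap (T := T) (y := fun t => ‖z t‖) (a := Z + 1 / 2) (b := Z + 1)
    Sl.zc.norm (by linarith) (by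
      show ‖z 0‖ < Z + 1
      rw [hz0]; linarith) (fun t ht hle => by
      show ‖z t‖ ≤ Z + 1 / 2
      have hR' : Reg W m t n F x0 u z := by
        refine (hR.mono ht.2).congr_n ?_
        filter_upwards [ae_restrict_mem measurableSet_Ioc] with s hs
        rw [mug_zero (hle s (Ioc_subset_Icc_self hs)), add_zero]
      have h1 := hcs t ht n nb u ub z zb F F1 x0 z0 D hcl1 (hnv.mono ht.2) (hnb.mono ht.2) hR'
        (hRb.mono ht.2) hle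
        (fun s hs => (hZb s ⟨hs.1, hs.2.trans ht.2⟩).trans (by linarith)) ?_ t ⟨ht.1, le_rfl⟩
      · have h2 := hZb t ht
        calc ‖z t‖ = ‖(z t - zb t) + zb t‖ := by rw [sub_add_cancel]
          _ ≤ 1 / 2 + Z := (norm_add_le _ _).trans (add_le_add h1 h2)
          _ = Z + 1 / 2 := by ring
      · refine le_trans ?_ (hδ.trans (min_le_left _ _))
        rw [intervalIntegral.integral_of_le ht.1, intervalIntegral.integral_of_le hT.le]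
        exact setIntegral_mono_set (hnv.int.sub hnb.int).abs
          (Eventually.of_forall fun s => abs_nonneg _) (Ioc_subset_Ioc_right ht.2).eventuallyLE)
  have hall : ∀ t ∈ Icc 0 T, ‖z t‖ ≤ Z + 1 := fun t ht => by
    have h4 : ‖z t‖ ≤ Z + 1 / 2 := hb t ht
    linarith
  refine ⟨u, z, ?_, hall⟩
  refine hR.congr_n ?_
  filter_upwards [ae_restrict_mem measurableSet_Ioc] with s hs
  rw [mug_zero (hall s (Ioc_subset_Icc_self hs)), add_zero]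

/-- Stability of regularity under changes of the viscosity and of the data. -/
theorem rough2 (Fr : Frame W m C) (Tb : TriB W m C3) {ι : Type*} {g : ι → H} {f : ι → K}
    {lam : ι → ℝ} (E : Eig W g f lam) (hν : 0 < ν) (hT : 0 < T)
    (hcomp : ∀ R : ℝ, TotallyBounded {v : H | ∃ z, (v, z) ∈ W ∧ ‖z‖ ≤ R}) (ha : ν ≤ a)
    {Fb Fb1 : ℝ → K} {xb0 : H} {zb0 : K} (Db : Dat W T xb0 zb0 Fb Fb1) {Z : ℝ} (hZ : 0 ≤ Z) :
    ∃ δ0 : ℝ, 0 < δ0 ∧ ∀ (nb : ℝ → ℝ) (ub : ℝ → H) (zb : ℝ → K), Vn ν T nb →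
      Reg W m T nb Fb xb0 ub zb → (∀ t ∈ Icc 0 T, ‖zb t‖ ≤ Z) →
      ∀ (F F1 : ℝ → K) (x0 : H) (z0 : K), Dat W T x0 z0 F F1 → Cl T δ0 z0 F F1 zb0 Fb Fb1 →
      Cmp W m a x0 z0 F → ∀ (n : ℝ → ℝ), Vn ν T n →
      ∫ s in (0 : ℝ)..T, |n s - nb s| ≤ δ0 →
      ∃ (u : ℝ → H) (z : ℝ → K), Reg W m T n F x0 u z ∧ ∀ t ∈ Icc 0 T, ‖z t‖ ≤ Z + 2 := by
  obtain ⟨δ1, hδ1, hboot⟩ := boot2 (a := a) Fr Tb E hν hT hcomp Db hZ
  refine ⟨δ1 / 2, by positivity, ?_⟩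
  intro nb ub zb hnb hRb hZb F F1 x0 z0 D hcl hc n hn hδ
  obtain ⟨g0, hg0⟩ := id hc
  obtain ⟨δ2, hδ2, hro⟩ := rough Fr Tb E hν hT hcomp D.mem D.int D.prim ha hg0 (Z := Z + 1)
    (by positivity)
  have hε : 0 < min (δ1 / 2) δ2 := lt_min (by positivity) hδ2
  obtain ⟨n1, B, N, hn10, hn1⟩ := base_near hT ha (p := 1) le_rfl (by norm_num)
    (memLp_one_iff_integrable.mpr hn.int) hn.low hε
  have hd := l1_of_eLpNorm (f := n1 - n) hT.le hε.le hn1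
  have hn1v := base_vn N
  have i1 : IntervalIntegrable (fun s => |n1 s - n s|) volume 0 T :=
    ii_of_on (hn1v.int.sub hn.int).abs le_rfl hT.le le_rfl
  have i2 : IntervalIntegrable (fun s => |n s - nb s|) volume 0 T :=
    ii_of_on (hn.int.sub hnb.int).abs le_rfl hT.le le_rfl
  have i3 : IntervalIntegrable (fun s => |n1 s - nb s|) volume 0 T :=
    ii_of_on (hn1v.int.sub hnb.int).abs le_rfl hT.le le_rfl
  have hnear : ∫ s in (0 : ℝ)..T, |n1 s - nb s| ≤ δ1 := by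
    calc ∫ s in (0 : ℝ)..T, |n1 s - nb s|
        ≤ ∫ s in (0 : ℝ)..T, (|n1 s - n s| + |n s - nb s|) :=
          intervalIntegral.integral_mono_on hT.le i3 (i1.add i2) fun s _ => abs_sub_le _ _ _
      _ = (∫ s in (0 : ℝ)..T, |n1 s - n s|) + ∫ s in (0 : ℝ)..T, |n s - nb s| :=
          intervalIntegral.integral_add i1 i2
      _ ≤ δ1 / 2 + δ1 / 2 := add_le_add (hd.trans (min_le_left _ _)) hδ
      _ = δ1 := by ring
  obtain ⟨u1, z1, hR1, hz1⟩ := hboot nb ub zb hnb hRb hZb F F1 x0 z0 D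
    (hcl.mono (by positivity) (by linarith)) hc n1 B N hn10 hnear
  have hd2 : ∫ s in (0 : ℝ)..T, |n s - n1 s| ≤ δ2 := by
    refine le_trans (le_of_eq ?_) (hd.trans (min_le_right _ _))
    refine intervalIntegral.integral_congr fun s _ => ?_
    show |n s - n1 s| = |(n1 - n) s|
    rw [abs_sub_comm]; rfl
  obtain ⟨u, z, _, _, _, _, _, k1, k2, _⟩ := hro n1 u1 z1 hn1v hR1 hz1 1 le_rfl (by norm_num) n
    (memLp_one_iff_integrable.mpr hn.int) hn.low hd2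
  exact ⟨u, z, k1, fun t ht => (k2 t ht).trans (by linarith)⟩

/-- continuous dependence of the regular solution. -/
theorem cont2 (Fr : Frame W m C) (Tb : TriB W m C3) {ι : Type*} {g : ι → H} {f : ι → K}
    {lam : ι → ℝ} (E : Eig W g f lam) (hν : 0 < ν) (hT : 0 < T)
    (hcomp : ∀ R : ℝ, TotallyBounded {v : H | ∃ z, (v, z) ∈ W ∧ ‖z‖ ≤ R}) (ha : ν ≤ a)
    {Fb Fb1 : ℝ → K} {xb0 : H} {zb0 : K} (Db : Dat W T xb0 zb0 Fb Fb1)
    {nb : ℝ → ℝ} {ub : ℝ → H} {zb : ℝ → K} (hnb : Vn ν T nb)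
    (hRb : Reg W m T nb Fb xb0 ub zb) {ω : ℝ} (hω : 0 < ω) :
    ∃ δ0 : ℝ, 0 < δ0 ∧
      ∀ (F F1 : ℝ → K) (x0 : H) (z0 : K), Dat W T x0 z0 F F1 → Cl T δ0 z0 F F1 zb0 Fb Fb1 →
      Cmp W m a x0 z0 F → ∀ (n : ℝ → ℝ), Vn ν T n →
      ∫ s in (0 : ℝ)..T, |n s - nb s| ≤ δ0 →
      ∀ (u : ℝ → H) (z : ℝ → K), Reg W m T n F x0 u z → ∀ t ∈ Icc 0 T, ‖z t - zb t‖ ≤ ω := by
  obtain ⟨Z, hZ⟩ := hRb.bdd
  have hZ0 : 0 ≤ Z := (norm_nonneg _).trans (hZ 0 ⟨le_rfl, hT.le⟩)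
  obtain ⟨δ1, hδ1, hro⟩ := rough2 Fr Tb E hν hT hcomp ha Db hZ0
  obtain ⟨δ2, hδ2, hcs⟩ := comp_small2 Fr Tb E hν hT.le Db (Z := Z + 2) (by positivity) hω
  have hδ0 : 0 < min δ1 δ2 := lt_min hδ1 hδ2
  refine ⟨min δ1 δ2, hδ0, ?_⟩
  intro F F1 x0 z0 D hcl hc n hn hδ u z hR t ht
  obtain ⟨u', z', k1, k2⟩ := hro nb ub zb hnb hRb hZ F F1 x0 z0 D
    (hcl.mono hδ0.le (min_le_left _ _)) hc n hn (hδ.trans (min_le_left _ _))
  have hE : ∀ t ∈ Icc 0 T, u t = u' t ∧ z t = z' t := fun t ht =>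
    uniq Fr Tb E hν hT.le D.mem D.int D.prim hn hR k1 ht
  rw [(hE t ht).2]
  exact hcs T ⟨hT.le, le_rfl⟩ n nb u' ub z' zb F F1 x0 z0 D (hcl.mono hδ0.le (min_le_right _ _))
    hn hnb k1 hRb k2 (fun s hs => (hZ s hs).trans (by linarith)) (hδ.trans (min_le_right _ _))
    t ht

end H772R2.NSZ
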