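import Mathlib
import Pool.Agent.H772R2.NSZ.Rough2

/-!
Comparison of norms on a bounded interval; the set of Lipschitz approximations is convex.
-/

set_option linter.unusedSectionVars false

open MeasureTheory Set Filter Topology Metric
open scoped InnerProductSpace NNReal ENNReal

namespace H772R2.NSZ

open H772R2.NSG (Base mem_cont)
open H772R2.NSV

variable {T ν a : ℝ} {p : ℝ≥0∞}

theorem exists_cp (hT : 0 ≤ T) (hp1 : 1 ≤ p) (hpt : p ≠ ⊤) : ∃ c : ℝ, 0 < c ∧ ∀ f : ℝ → ℝ,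
    AEStronglyMeasurable f (volume.restrict (Ioc 0 T)) → ∀ ε : ℝ, 0 ≤ ε →
    eLpNorm f p (volume.restrict (Ioc 0 T)) ≤ ENNReal.ofReal ε →
    ∫ s in (0 : ℝ)..T, |f s| ≤ c * ε := by
  have hfin := fin_m T
  set κ : ℝ≥0∞ := (volume.restrict (Ioc 0 T) : Measure ℝ) univ
    ^ (1 / (1 : ℝ≥0∞).toReal - 1 / p.toReal) with hκ
  have hκtop : κ ≠ ⊤ := by
    rw [hκ]
    refine ENNReal.rpow_ne_top_of_nonneg ?_ (measure_ne_top _ _)
    have h1 : (1 : ℝ≥0∞).toReal ≤ p.toReal := ENNReal.toReal_mono hpt hp1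
    have := one_div_le_one_div_of_le (by norm_num) h1
    linarith
  set κr : ℝ := κ.toReal with hκr
  have hκr0 : 0 ≤ κr := ENNReal.toReal_nonneg
  have hκe : κ = ENNReal.ofReal κr := (ENNReal.ofReal_toReal hκtop).symm
  refine ⟨κr + 1, by positivity, fun f hf ε hε h => ?_⟩
  refine l1_of_eLpNorm (f := f) hT (by positivity) ?_
  refine (eLpNorm_le_eLpNorm_mul_rpow_measure_univ hp1 hf).trans ?_
  rw [← hκ, hκe]
  calc eLpNorm f p (volume.restrict (Ioc 0 T)) * ENNReal.ofReal κr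
      ≤ ENNReal.ofReal ε * ENNReal.ofReal κr := by gcongr
    _ = ENNReal.ofReal (ε * κr) := (ENNReal.ofReal_mul hε).symm
    _ ≤ _ := by
        refine ENNReal.ofReal_le_ofReal ?_
        nlinarith

theorem exists_c5 (hp1 : 1 ≤ p) (hp5 : p ≤ 5) : ∃ c : ℝ, 0 < c ∧ ∀ f : ℝ → ℝ,
    AEStronglyMeasurable f (volume.restrict (Ioc 0 T)) → ∀ η : ℝ, 0 ≤ η →
    eLpNorm f 5 (volume.restrict (Ioc 0 T)) ≤ ENNReal.ofReal η →
    eLpNorm f p (volume.restrict (Ioc 0 T)) ≤ ENNReal.ofReal (c * η) := by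
  have hfin := fin_m T
  have hptop : p ≠ ⊤ := ne_top_of_le_ne_top (by norm_num) hp5
  have hp0 : 0 < p.toReal := ENNReal.toReal_pos (by
    intro h; rw [h] at hp1; exact absurd hp1 (by norm_num)) hptop
  set κ : ℝ≥0∞ := (volume.restrict (Ioc 0 T) : Measure ℝ) univ
    ^ (1 / p.toReal - 1 / (5 : ℝ≥0∞).toReal) with hκ
  have hκtop : κ ≠ ⊤ := by
    rw [hκ]
    refine ENNReal.rpow_ne_top_of_nonneg ?_ (measure_ne_top _ _)
    have : p.toReal ≤ (5 : ℝ≥0∞).toReal := ENNReal.toReal_mono (by norm_num) hp5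
    have := one_div_le_one_div_of_le hp0 this
    linarith
  set κr : ℝ := κ.toReal with hκr
  have hκr0 : 0 ≤ κr := ENNReal.toReal_nonneg
  have hκe : κ = ENNReal.ofReal κr := (ENNReal.ofReal_toReal hκtop).symm
  refine ⟨κr + 1, by positivity, fun f hf η hη h => ?_⟩
  refine (H772R2.NSG.eLpNorm_le_five hp5 hf).trans ?_
  rw [← hκ, hκe]
  calc eLpNorm f 5 (volume.restrict (Ioc 0 T)) * ENNReal.ofReal κr
      ≤ ENNReal.ofReal η * ENNReal.ofReal κr := by gcongr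
    _ = ENNReal.ofReal (η * κr) := (ENNReal.ofReal_mul hη).symm
    _ ≤ _ := by
        refine ENNReal.ofReal_le_ofReal ?_
        nlinarith

theorem exists_cs (p : ℝ≥0∞) (T : ℝ) : ∃ c : ℝ, 0 < c ∧ ∀ f : ℝ → ℝ, ∀ ω : ℝ, 0 ≤ ω →
    (∀ t ∈ Icc 0 T, |f t| ≤ ω) →
    eLpNorm f p (volume.restrict (Ioc 0 T)) ≤ ENNReal.ofReal (c * ω) := by
  have hfin := fin_m T
  set κ : ℝ≥0∞ := (volume.restrict (Ioc 0 T) : Measure ℝ) univ ^ p.toReal⁻¹ with hκ
  have hκtop : κ ≠ ⊤ := by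
    rw [hκ]
    exact ENNReal.rpow_ne_top_of_nonneg (by positivity) (measure_ne_top _ _)
  refine ⟨κ.toReal + 1, by positivity, fun f ω hω h => ?_⟩
  have h1 : ∀ᵐ s ∂(volume.restrict (Ioc 0 T)), ‖f s‖ ≤ ω := by
    filter_upwards [ae_restrict_mem measurableSet_Ioc] with s hs
    exact h s (Ioc_subset_Icc_self hs)
  refine (eLpNorm_le_of_ae_bound h1).trans ?_
  rw [← hκ, ← ENNReal.ofReal_toReal hκtop, ← ENNReal.ofReal_mul ENNReal.toReal_nonneg]
  refine ENNReal.ofReal_le_ofReal ?_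
  rw [ENNReal.toReal_ofReal ENNReal.toReal_nonneg]
  nlinarith [ENNReal.toReal_nonneg (a := κ)]

/-- the extension of a continuous function on `[0,T]`. -/
noncomputable def exf (hT : 0 ≤ T) (f : C(Icc (0 : ℝ) T, ℝ)) : ℝ → ℝ := IccExtend hT f

theorem exf_cont (hT : 0 ≤ T) (f : C(Icc (0 : ℝ) T, ℝ)) : Continuous (exf hT f) :=
  f.continuous.Icc_extend'

theorem exf_comb (hT : 0 ≤ T) (f g : C(Icc (0 : ℝ) T, ℝ)) (s t x : ℝ) :
    exf hT (s • f + t • g) x = s * exf hT f x + t * exf hT g x := rfl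

theorem exf_sub_le (hT : 0 ≤ T) (f g : C(Icc (0 : ℝ) T, ℝ)) (x : ℝ) :
    |exf hT f x - exf hT g x| ≤ dist f g := by
  have := ContinuousMap.dist_apply_le_dist (f := f) (g := g) (projIcc 0 T hT x)
  rwa [Real.dist_eq] at this

/-- the Lipschitz approximations. -/
def Ap (ν a : ℝ) (p : ℝ≥0∞) (hT : 0 ≤ T) (h : ℝ → ℝ) (e : ℝ) : Set (C(Icc (0 : ℝ) T, ℝ)) :=
  {f | (∃ B, Base (exf hT f) ν T B) ∧ exf hT f 0 = a ∧
    eLpNorm (exf hT f - h) p (volume.restrict (Ioc 0 T)) ≤ ENNReal.ofReal e}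

theorem Ap_convex (hT : 0 ≤ T) (hp1 : 1 ≤ p) {h : ℝ → ℝ}
    (hh : AEStronglyMeasurable h (volume.restrict (Ioc 0 T))) {e : ℝ} (he : 0 ≤ e) :
    Convex ℝ (Ap ν a p hT h e) := by
  rintro f ⟨⟨B, N⟩, f0, fe⟩ g ⟨⟨B', N'⟩, g0, ge⟩ s t hs ht hst
  refine ⟨⟨s * B + t * B', ?_, ?_, ?_⟩, ?_, ?_⟩
  · have := N.B0
    have := N'.B0
    positivity
  · intro x hx
    rw [exf_comb]
    have h1 := N.low x hx
    have h2 := N'.low x hx
    calc ν = s * ν + t * ν := by rw [← add_mul, hst, one_mul]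
      _ ≤ _ := by gcongr
  · intro x hx y hy
    rw [exf_comb, exf_comb]
    have h1 := N.lip x hx y hy
    have h2 := N'.lip x hx y hy
    have e1 : s * exf hT f x + t * exf hT g x - (s * exf hT f y + t * exf hT g y)
        = s * (exf hT f x - exf hT f y) + t * (exf hT g x - exf hT g y) := by ring
    rw [e1]
    calc |s * (exf hT f x - exf hT f y) + t * (exf hT g x - exf hT g y)|
        ≤ s * |exf hT f x - exf hT f y| + t * |exf hT g x - exf hT g y| := by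
          refine (abs_add_le _ _).trans (le_of_eq ?_)
          rw [abs_mul, abs_mul, abs_of_nonneg hs, abs_of_nonneg ht]
      _ ≤ s * (B * |x - y|) + t * (B' * |x - y|) := by gcongr
      _ = _ := by ring
  · rw [exf_comb, f0, g0, ← add_mul, hst, one_mul]
  · have hf : AEStronglyMeasurable (exf hT f - h) (volume.restrict (Ioc 0 T)) :=
      (exf_cont hT f).aestronglyMeasurable.sub hh
    have hg : AEStronglyMeasurable (exf hT g - h) (volume.restrict (Ioc 0 T)) :=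
      (exf_cont hT g).aestronglyMeasurable.sub hh
    have e1 : exf hT (s • f + t • g) - h = s • (exf hT f - h) + t • (exf hT g - h) := by
      ext x
      simp only [Pi.sub_apply, Pi.add_apply, Pi.smul_apply, smul_eq_mul, exf_comb]
      have : h x = s * h x + t * h x := by rw [← add_mul, hst, one_mul]
      linarith
    rw [e1]
    refine (eLpNorm_add_le (hf.const_smul s) (hg.const_smul t) hp1).trans ?_
    rw [eLpNorm_const_smul, eLpNorm_const_smul, Real.enorm_eq_ofReal hs, Real.enorm_eq_ofReal ht]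
    calc ENNReal.ofReal s * eLpNorm (exf hT f - h) p (volume.restrict (Ioc 0 T))
          + ENNReal.ofReal t * eLpNorm (exf hT g - h) p (volume.restrict (Ioc 0 T))
        ≤ ENNReal.ofReal s * ENNReal.ofReal e + ENNReal.ofReal t * ENNReal.ofReal e := by gcongr
      _ = ENNReal.ofReal e := by
          rw [← ENNReal.ofReal_mul hs, ← ENNReal.ofReal_mul ht,
            ← ENNReal.ofReal_add (by positivity) (by positivity), ← add_mul, hst, one_mul]

theorem Ap_exists (hT : 0 < T) (ha : ν ≤ a) (hp1 : 1 ≤ p) (hp5 : p ≤ 5) {h : ℝ → ℝ}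
    (hh : MemLp h p (volume.restrict (Ioc 0 T)))
    (hlow : ∀ᵐ s ∂(volume.restrict (Ioc 0 T)), ν ≤ h s) {e : ℝ} (he : 0 < e) :
    (Ap ν a p hT.le h e).Nonempty := by
  obtain ⟨nb, B, N, h0, hn⟩ := base_near hT ha hp1 hp5 hh hlow he
  let f : C(Icc (0 : ℝ) T, ℝ) := ⟨fun t => nb t, N.cont.domRestrict⟩
  have hf : ∀ t ∈ Icc 0 T, exf hT.le f t = nb t := by
    intro t ht
    show IccExtend hT.le (fun t : Icc (0 : ℝ) T => nb t) t = nb t
    rw [IccExtend_of_mem _ _ ht]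
  refine ⟨f, ⟨B, N.B0, fun t ht => ?_, fun x hx y hy => ?_⟩, ?_, ?_⟩
  · rw [hf t ht]; exact N.low t ht
  · rw [hf x hx, hf y hy]; exact N.lip x hx y hy
  · rw [hf 0 ⟨le_rfl, hT.le⟩, h0]
  · refine le_trans (le_of_eq (eLpNorm_congr_ae ?_)) hn
    filter_upwards [ae_restrict_mem measurableSet_Ioc] with s hs
    simp only [Pi.sub_apply]
    rw [hf s (Ioc_subset_Icc_self hs)]

end H772R2.NSZ
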