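import Mathlib
import Pool.Agent.H772R2.NSZ.Lpx

/-!
Every continuous family of viscosities and data has arbitrarily near regular families.
-/

set_option linter.unusedSectionVars false

open MeasureTheory Set Filter Topology Metric
open scoped InnerProductSpace NNReal ENNReal

namespace H772R2.NSZ

open H772R2.NSR (Frame grad_unique prim_cont prim_shift ec ec_nonneg ii_of_cont)
open H772R2.NSG (Base Sln St mug mug_zero mug_nonneg visc_mug exists_sln mem_cont lg lg_one_le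
  lg_cont cost5 eLpNorm_five_le)
open H772R2.NSV

variable {H K : Type*} [NormedAddCommGroup H] [InnerProductSpace ℝ H] [CompleteSpace H]
  [NormedAddCommGroup K] [InnerProductSpace ℝ K] [CompleteSpace K]

variable {W : Submodule ℝ (H × K)} {m : H → K} {C C3 : ℝ} {ν T a : ℝ} {p : ℝ≥0∞}

variable {Θ : Type*} [TopologicalSpace Θ]

/-- Continuous families of data. -/
structure Fam (W : Submodule ℝ (H × K)) (m : H → K) (a T : ℝ) (x0 : Θ → H) (z0 : Θ → K)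
    (F F1 : Θ → ℝ → K) : Prop where
  dat : ∀ θ, Dat W T (x0 θ) (z0 θ) (F θ) (F1 θ)
  cmp : ∀ θ, Cmp W m a (x0 θ) (z0 θ) (F θ)
  cl : ∀ θ0, ∀ δ : ℝ, 0 < δ →
    ∀ᶠ θ in 𝓝 θ0, Cl T δ (z0 θ) (F θ) (F1 θ) (z0 θ0) (F θ0) (F1 θ0)

/-- Continuous families of viscosities. -/
structure VF (ν T : ℝ) (p : ℝ≥0∞) (nf : Θ → ℝ → ℝ) : Prop where
  mem : ∀ θ, MemLp (nf θ) p (volume.restrict (Ioc 0 T))
  low : ∀ θ, ∀ᵐ s ∂(volume.restrict (Ioc 0 T)), ν ≤ nf θ s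
  cont : ∀ θ0, ∀ δ : ℝ, 0 < δ → ∀ᶠ θ in 𝓝 θ0,
    eLpNorm (nf θ - nf θ0) p (volume.restrict (Ioc 0 T)) ≤ ENNReal.ofReal δ

theorem VF.vn {nf : Θ → ℝ → ℝ} (hp1 : 1 ≤ p) (N : VF ν T p nf) (θ : Θ) : Vn ν T (nf θ) := by
  have := fin_m T
  exact ⟨(N.mem θ).integrable hp1, N.low θ⟩

theorem VF.l1 {nf : Θ → ℝ → ℝ} (hT : 0 ≤ T) (hp1 : 1 ≤ p) (hpt : p ≠ ⊤) (N : VF ν T p nf)
    (θ0 : Θ) {δ : ℝ} (hδ : 0 < δ) :
    ∀ᶠ θ in 𝓝 θ0, ∫ s in (0 : ℝ)..T, |nf θ s - nf θ0 s| ≤ δ := by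
  obtain ⟨c, hc, h⟩ := exists_cp hT hp1 hpt
  filter_upwards [N.cont θ0 (δ / c) (by positivity)] with θ hθ
  have h1 := h _ ((N.mem θ).sub (N.mem θ0)).aestronglyMeasurable (δ / c) (by positivity) hθ
  calc ∫ s in (0 : ℝ)..T, |nf θ s - nf θ0 s| ≤ c * (δ / c) := h1
    _ = δ := by field_simp

/-- the threshold property. -/
def Thr (W : Submodule ℝ (H × K)) (m : H → K) (ν T : ℝ) (n0 : ℝ → ℝ) (F : ℝ → K) (x0 : H)
    (c : ℝ) : Prop :=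
  ∀ n : ℝ → ℝ, Vn ν T n → ∫ s in (0 : ℝ)..T, |n s - n0 s| ≤ 1 / c →
    ∃ u z, Reg W m T n F x0 u z ∧ ∀ t ∈ Icc 0 T, ‖z t‖ ≤ c

theorem Thr.mono {n0 : ℝ → ℝ} {F : ℝ → K} {x0 : H} {c c' : ℝ} (hc : 0 < c)
    (h : Thr W m ν T n0 F x0 c) (hle : c ≤ c') : Thr W m ν T n0 F x0 c' := by
  intro n hn hd
  obtain ⟨u, z, h1, h2⟩ := h n hn (hd.trans (one_div_le_one_div_of_le hc hle))
  exact ⟨u, z, h1, fun t ht => (h2 t ht).trans hle⟩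

variable {x0 : Θ → H} {z0 : Θ → K} {F F1 : Θ → ℝ → K} {nf : Θ → ℝ → ℝ}

theorem loc_thr (Fr : Frame W m C) (Tb : TriB W m C3) {ι : Type*} {g : ι → H} {f : ι → K}
    {lam : ι → ℝ} (E : Eig W g f lam) (hν : 0 < ν) (hT : 0 < T)
    (hcomp : ∀ R : ℝ, TotallyBounded {v : H | ∃ z, (v, z) ∈ W ∧ ‖z‖ ≤ R}) (ha : ν ≤ a)
    (hp1 : 1 ≤ p) (hpt : p ≠ ⊤) (D : Fam W m a T x0 z0 F F1) (N : VF ν T p nf) {θ0 : Θ}
    (hg : ∃ u z, Reg W m T (nf θ0) (F θ0) (x0 θ0) u z) :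
    ∃ c : ℝ, 0 < c ∧ ∀ᶠ θ in 𝓝 θ0, Thr W m ν T (nf θ) (F θ) (x0 θ) c := by
  obtain ⟨ub, zb, hRb⟩ := hg
  obtain ⟨Z, hZ⟩ := hRb.bdd
  have hZ0 : 0 ≤ Z := (norm_nonneg _).trans (hZ 0 ⟨le_rfl, hT.le⟩)
  obtain ⟨δ0, hδ0, hro⟩ := rough2 Fr Tb E hν hT hcomp ha (D.dat θ0) hZ0
  refine ⟨max (Z + 2) (2 / δ0), lt_max_of_lt_left (by positivity), ?_⟩
  filter_upwards [D.cl θ0 δ0 hδ0, N.l1 hT.le hp1 hpt θ0 (δ := δ0 / 2) (by positivity)]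
    with θ h1 h2 n hn hd
  have hnv := N.vn hp1 θ
  have hnv0 := N.vn hp1 θ0
  have hd2 : ∫ s in (0 : ℝ)..T, |n s - nf θ s| ≤ δ0 / 2 := by
    refine hd.trans ((one_div_le_one_div_of_le (by positivity) (le_max_right _ _)).trans ?_)
    exact le_of_eq (by field_simp)
  have i1 : IntervalIntegrable (fun s => |n s - nf θ s|) volume 0 T :=
    ii_of_on (hn.int.sub hnv.int).abs le_rfl hT.le le_rfl
  have i2 : IntervalIntegrable (fun s => |nf θ s - nf θ0 s|) volume 0 T :=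
    ii_of_on (hnv.int.sub hnv0.int).abs le_rfl hT.le le_rfl
  have i3 : IntervalIntegrable (fun s => |n s - nf θ0 s|) volume 0 T :=
    ii_of_on (hn.int.sub hnv0.int).abs le_rfl hT.le le_rfl
  have hd3 : ∫ s in (0 : ℝ)..T, |n s - nf θ0 s| ≤ δ0 := by
    calc ∫ s in (0 : ℝ)..T, |n s - nf θ0 s|
        ≤ ∫ s in (0 : ℝ)..T, (|n s - nf θ s| + |nf θ s - nf θ0 s|) :=
          intervalIntegral.integral_mono_on hT.le i3 (i1.add i2) fun s _ => abs_sub_le _ _ _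
      _ = (∫ s in (0 : ℝ)..T, |n s - nf θ s|) + ∫ s in (0 : ℝ)..T, |nf θ s - nf θ0 s| :=
          intervalIntegral.integral_add i1 i2
      _ ≤ δ0 / 2 + δ0 / 2 := add_le_add hd2 h2
      _ = δ0 := by ring
  obtain ⟨u, z, k1, k2⟩ := hro (nf θ0) ub zb hnv0 hRb hZ (F θ) (F1 θ) (x0 θ) (z0 θ) (D.dat θ) h1
    (D.cmp θ) n hn hd3
  exact ⟨u, z, k1, fun t ht => (k2 t ht).trans (le_max_left _ _)⟩

theorem good_open (Fr : Frame W m C) (Tb : TriB W m C3) {ι : Type*} {g : ι → H} {f : ι → K}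
    {lam : ι → ℝ} (E : Eig W g f lam) (hν : 0 < ν) (hT : 0 < T)
    (hcomp : ∀ R : ℝ, TotallyBounded {v : H | ∃ z, (v, z) ∈ W ∧ ‖z‖ ≤ R}) (ha : ν ≤ a)
    (hp1 : 1 ≤ p) (hpt : p ≠ ⊤) (D : Fam W m a T x0 z0 F F1) (N : VF ν T p nf) :
    IsOpen {θ | ∃ u z, Reg W m T (nf θ) (F θ) (x0 θ) u z} := by
  rw [isOpen_iff_mem_nhds]
  intro θ0 hg
  obtain ⟨c, hc, h⟩ := loc_thr Fr Tb E hν hT hcomp ha hp1 hpt D N hg
  filter_upwards [h] with θ hθ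
  obtain ⟨u, z, k1, _⟩ := hθ (nf θ) (N.vn hp1 θ) (by simp; positivity)
  exact ⟨u, z, k1⟩

theorem sol_cont (Fr : Frame W m C) (Tb : TriB W m C3) {ι : Type*} {g : ι → H} {f : ι → K}
    {lam : ι → ℝ} (E : Eig W g f lam) (hν : 0 < ν) (hT : 0 < T)
    (hcomp : ∀ R : ℝ, TotallyBounded {v : H | ∃ z, (v, z) ∈ W ∧ ‖z‖ ≤ R}) (ha : ν ≤ a)
    (hp1 : 1 ≤ p) (hpt : p ≠ ⊤) (D : Fam W m a T x0 z0 F F1) (N : VF ν T p nf)
    {u : Θ → ℝ → H} {z : Θ → ℝ → K} (hR : ∀ θ, Reg W m T (nf θ) (F θ) (x0 θ) (u θ) (z θ))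
    (θ0 : Θ) {ω : ℝ} (hω : 0 < ω) : ∀ᶠ θ in 𝓝 θ0, ∀ t ∈ Icc 0 T, ‖z θ t - z θ0 t‖ ≤ ω := by
  obtain ⟨δ, hδ, h⟩ := cont2 Fr Tb E hν hT hcomp ha (D.dat θ0) (N.vn hp1 θ0) (hR θ0) hω
  filter_upwards [D.cl θ0 δ hδ, N.l1 hT.le hp1 hpt θ0 hδ] with θ h1 h2
  exact h (F θ) (F1 θ) (x0 θ) (z0 θ) (D.dat θ) h1 (D.cmp θ) (nf θ) (N.vn hp1 θ) h2 (u θ) (z θ)
    (hR θ)

theorem ec_loc (Fr : Frame W m C) (hν : 0 < ν) (hT : 0 ≤ T) (D : Fam W m a T x0 z0 F F1)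
    (θ0 : Θ) : ∃ M : ℝ, 0 ≤ M ∧ ∀ᶠ θ in 𝓝 θ0, ec ν T ‖x0 θ‖ (F θ) ≤ M := by
  have hC := Fr.C0
  have hFc := prim_cont (D.dat θ0).int (D.dat θ0).prim
  obtain ⟨M0, hM0⟩ := (isCompact_Icc.image_of_continuousOn hFc).isBounded.exists_norm_le
  have hM0' : ∀ t ∈ Icc 0 T, ‖F θ0 t‖ ≤ M0 := fun t ht => hM0 _ ⟨t, ht, rfl⟩
  have hM00 : 0 ≤ M0 := (norm_nonneg _).trans (hM0' 0 ⟨le_rfl, hT⟩)
  refine ⟨(C * 1 + ‖x0 θ0‖) ^ 2 / 2 + (T * ((T + 2) * 1 + M0) ^ 2) / (2 * ν), by positivity, ?_⟩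
  filter_upwards [D.cl θ0 1 one_pos] with θ h1
  have hx : ‖x0 θ‖ ≤ C * 1 + ‖x0 θ0‖ := by
    have h2 := Fr.poinc _ (W.sub_mem (D.dat θ).mem (D.dat θ0).mem)
    have h3 : ‖x0 θ - x0 θ0‖ ≤ C * 1 := by
      calc ‖x0 θ - x0 θ0‖ ≤ C * ‖z0 θ - z0 θ0‖ := h2
        _ ≤ C * 1 := by gcongr; exact h1.z
    calc ‖x0 θ‖ = ‖(x0 θ - x0 θ0) + x0 θ0‖ := by rw [sub_add_cancel]
      _ ≤ _ := (norm_add_le _ _).trans (add_le_add h3 le_rfl)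
  have hFb : ∀ t ∈ Icc 0 T, ‖F θ t‖ ≤ (T + 2) * 1 + M0 := by
    intro t ht
    have h2 := h1.force one_pos hT (D.dat θ) (D.dat θ0) ht
    calc ‖F θ t‖ = ‖(F θ t - F θ0 t) + F θ0 t‖ := by rw [sub_add_cancel]
      _ ≤ _ := (norm_add_le _ _).trans (add_le_add h2 (hM0' t ht))
  have hFc' := prim_cont (D.dat θ).int (D.dat θ).prim
  have h5 : ∫ s in (0 : ℝ)..T, ‖F θ s‖ ^ 2 ≤ T * ((T + 2) * 1 + M0) ^ 2 := by
    calc ∫ s in (0 : ℝ)..T, ‖F θ s‖ ^ 2 ≤ ∫ _ in (0 : ℝ)..T, ((T + 2) * 1 + M0) ^ 2 := by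
          refine intervalIntegral.integral_mono_on hT
            (ii_of_cont (hFc'.norm.pow 2) le_rfl hT le_rfl) intervalIntegrable_const fun s hs => ?_
          have := hFb s hs
          gcongr
      _ = _ := by simp
  unfold ec
  gcongr

theorem eLp_mul_le {r : ℝ} (hr0 : 0 ≤ r) (hr1 : r ≤ 1) {μ : Measure ℝ} (h : ℝ → ℝ) :
    eLpNorm (fun t => r * h t) p μ ≤ eLpNorm h p μ := by
  have e : (fun t => r * h t) = r • h := rfl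
  rw [e, eLpNorm_const_smul, Real.enorm_eq_ofReal hr0]
  calc ENNReal.ofReal r * eLpNorm h p μ ≤ 1 * eLpNorm h p μ := by
        gcongr
        exact ENNReal.ofReal_le_one.mpr hr1
    _ = _ := one_mul _

theorem feed_small (hν : 0 < ν) (hT : 0 < T) {Fo : ℝ → K} {n : ℝ → ℝ}
    {d S : ℝ} (hd : 0 < d) (hd1 : d ≤ 1) (hS : 1 ≤ S) {e0 η : ℝ} (hη : 0 ≤ η)
    (hde : d * e0 ≤ η ^ 5) {u u' : ℝ → H} {z : ℝ → K} {c1 c2 : ℝ}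
    (Sl : Sln W m (mug (d ^ 2 / 2) S) n T Fo u u' z c1 c2 e0) :
    eLpNorm (fun t => mug (d ^ 2 / 2) S ‖z t‖) 5 (volume.restrict (Ioc 0 T))
      ≤ ENNReal.ofReal η := by
  have hκ : 0 < d ^ 2 / 2 := by positivity
  have V := visc_mug (ν := ν) hκ (by linarith : 0 < S) hν
  have hLc := mu_cont V Sl.zc
  have hl0 : ∀ t, 0 ≤ mug (d ^ 2 / 2) S ‖z t‖ := fun t => mug_nonneg hκ.le (by linarith) _
  have hz2 : ContinuousOn (fun t => ‖z t‖ ^ 2) (Icc 0 T) := Sl.zc.norm.pow 2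
  have hcc : ContinuousOn (fun t => (mug (d ^ 2 / 2) S ‖z t‖) ^ 5
      * lg (mug (d ^ 2 / 2) S ‖z t‖)) (Icc 0 T) :=
    (hLc.pow 5).mul (lg_cont.comp hLc (fun t _ => hl0 t))
  refine eLpNorm_five_le (mem_cont hLc) hη ?_
  refine le_trans ?_ hde
  have h1 : ∫ t in (0 : ℝ)..T, (mug (d ^ 2 / 2) S ‖z t‖) ^ 5 * lg (mug (d ^ 2 / 2) S ‖z t‖)
      ≤ d * e0 := by
    calc ∫ t in (0 : ℝ)..T, (mug (d ^ 2 / 2) S ‖z t‖) ^ 5 * lg (mug (d ^ 2 / 2) S ‖z t‖)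
        ≤ ∫ t in (0 : ℝ)..T, d * (mug (d ^ 2 / 2) S ‖z t‖ * ‖z t‖ ^ 2) := by
          refine intervalIntegral.integral_mono_on hT.le
            (ii_of_cont hcc le_rfl hT.le le_rfl)
            ((ii_of_cont (hLc.mul hz2) le_rfl hT.le le_rfl).const_mul _) ?_
          intro s _
          exact cost5 hd hd1 hS (norm_nonneg _)
      _ = d * ∫ t in (0 : ℝ)..T, mug (d ^ 2 / 2) S ‖z t‖ * ‖z t‖ ^ 2 := by
          rw [intervalIntegral.integral_const_mul]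
      _ ≤ d * e0 := by
          have := Sl.dissip
          gcongr
  refine le_trans ?_ h1
  rw [intervalIntegral.integral_of_le hT.le]
  refine integral_mono_of_nonneg (Eventually.of_forall fun s => by positivity) ?_
    (Eventually.of_forall fun s => ?_)
  · exact (mem_cont (p := 1) hcc).integrable le_rfl
  · show ‖mug (d ^ 2 / 2) S ‖z s‖‖ ^ 5
      ≤ mug (d ^ 2 / 2) S ‖z s‖ ^ 5 * lg (mug (d ^ 2 / 2) S ‖z s‖)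
    rw [Real.norm_eq_abs, abs_of_nonneg (hl0 s)]
    have := lg_one_le (hl0 s)
    have h5 : 0 ≤ mug (d ^ 2 / 2) S ‖z s‖ ^ 5 := pow_nonneg (hl0 s) 5
    nlinarith

end H772R2.NSZ
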