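import Mathlib
import Pool.Agent.H772R2.NSZ.Fam

/-!
Every continuous family of viscosities and data has arbitrarily near regular families.
-/

set_option linter.unusedSectionVars false

open MeasureTheory Set Filter Topology Metric
open scoped InnerProductSpace NNReal ENNReal

namespace H772R2.NSZ

open H772R2.NSR (Frame grad_unique prim_cont prim_shift ec ec_nonneg ii_of_cont)
open H772R2.NSG (Base Sln St mug mug_zero mug_nonneg visc_mug exists_sln mem_cont lg lg_one_le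
  lg_cont cost5 eLpNorm_five_le)
open H772R2.NSV

variable {H K : Type*} [NormedAddCommGroup H] [InnerProductSpace ℝ H] [CompleteSpace H]
  [NormedAddCommGroup K] [InnerProductSpace ℝ K] [CompleteSpace K]

variable {W : Submodule ℝ (H × K)} {m : H → K} {C C3 : ℝ} {ν T a : ℝ} {p : ℝ≥0∞}

variable {Θ : Type*} [TopologicalSpace Θ]

variable {x0 : Θ → H} {z0 : Θ → K} {F F1 : Θ → ℝ → K} {nf : Θ → ℝ → ℝ}

/-- continuous choice of the threshold. -/
theorem sel_thr [NormalSpace Θ] [ParacompactSpace Θ]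
    (Fr : Frame W m C) (Tb : TriB W m C3) {ι : Type*} {g : ι → H} {f : ι → K}
    {lam : ι → ℝ} (E : Eig W g f lam) (hν : 0 < ν) (hT : 0 < T)
    (hcomp : ∀ R : ℝ, TotallyBounded {v : H | ∃ z, (v, z) ∈ W ∧ ‖z‖ ≤ R}) (ha : ν ≤ a)
    (hp1 : 1 ≤ p) (hpt : p ≠ ⊤) (D : Fam W m a T x0 z0 F F1) (N : VF ν T p nf) {V : Set Θ}
    (hV : IsClosed V) (hVU : ∀ θ ∈ V, ∃ u z, Reg W m T (nf θ) (F θ) (x0 θ) u z) :
    ∃ s : C(Θ, ℝ), ∀ θ, 0 < s θ ∧ (θ ∈ V → Thr W m ν T (nf θ) (F θ) (x0 θ) (s θ)) := by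
  have h := exists_continuous_forall_mem_convex_of_local_const (X := Θ) (E := ℝ)
    (t := fun θ => {c : ℝ | 0 < c ∧ (θ ∈ V → Thr W m ν T (nf θ) (F θ) (x0 θ) c)}) ?_ ?_
  · obtain ⟨s, hs⟩ := h
    exact ⟨s, hs⟩
  · intro θ
    have hup : IsUpperSet {c : ℝ | 0 < c ∧ (θ ∈ V → Thr W m ν T (nf θ) (F θ) (x0 θ) c)} := by
      intro c c' hcc hc
      exact ⟨hc.1.trans_le hcc, fun hθ => (hc.2 hθ).mono hc.1 hcc⟩
    exact hup.ordConnected.convex
  · intro θ0
    by_cases hθ0 : θ0 ∈ V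
    · obtain ⟨c, hc, h⟩ := loc_thr Fr Tb E hν hT hcomp ha hp1 hpt D N (hVU θ0 hθ0)
      refine ⟨c, ?_⟩
      filter_upwards [h] with θ hθ
      exact ⟨hc, fun _ => hθ⟩
    · refine ⟨1, ?_⟩
      filter_upwards [hV.isOpen_compl.mem_nhds hθ0] with θ hθ
      exact ⟨one_pos, fun h => absurd h hθ⟩

/-- continuous choice of the size of the feedback. -/
theorem sel_d [NormalSpace Θ] [ParacompactSpace Θ]
    (Fr : Frame W m C) (hν : 0 < ν) (hT : 0 < T) (D : Fam W m a T x0 z0 F F1) {η : Θ → ℝ}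
    (hη : Continuous η) (hη0 : ∀ θ, 0 < η θ) :
    ∃ d : C(Θ, ℝ), ∀ θ, 0 < d θ ∧ d θ ≤ 1 ∧ d θ * ec ν T ‖x0 θ‖ (F θ) ≤ η θ ^ 5 := by
  have h := exists_continuous_forall_mem_convex_of_local_const (X := Θ) (E := ℝ)
    (t := fun θ => {d : ℝ | 0 < d ∧ d ≤ 1 ∧ d * ec ν T ‖x0 θ‖ (F θ) ≤ η θ ^ 5}) ?_ ?_
  · obtain ⟨s, hs⟩ := h
    exact ⟨s, hs⟩
  · intro θ x hx y hy s t hs ht hst
    have e0 := ec_nonneg (F := F θ) hν hT.le ‖x0 θ‖
    refine ⟨?_, ?_, ?_⟩
    · show 0 < s * x + t * y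
      rcases hs.eq_or_lt with h | h
      · rw [← h] at hst ⊢
        have : t = 1 := by linarith
        rw [this]
        have := hy.1
        linarith
      · have h1 := mul_pos h hx.1
        have h2 := mul_nonneg ht hy.1.le
        linarith
    · show s * x + t * y ≤ 1
      have h1 := mul_le_mul_of_nonneg_left hx.2.1 hs
      have h2 := mul_le_mul_of_nonneg_left hy.2.1 ht
      linarith
    · show (s * x + t * y) * ec ν T ‖x0 θ‖ (F θ) ≤ η θ ^ 5
      have h1 := mul_le_mul_of_nonneg_left hx.2.2 hs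
      have h2 := mul_le_mul_of_nonneg_left hy.2.2 ht
      calc (s * x + t * y) * ec ν T ‖x0 θ‖ (F θ)
          = s * (x * ec ν T ‖x0 θ‖ (F θ)) + t * (y * ec ν T ‖x0 θ‖ (F θ)) := by ring
        _ ≤ s * η θ ^ 5 + t * η θ ^ 5 := add_le_add h1 h2
        _ = η θ ^ 5 := by rw [← add_mul, hst, one_mul]
  · intro θ0
    obtain ⟨M, hM0, hM⟩ := ec_loc Fr hν hT.le D θ0
    have hη1 : ∀ᶠ θ in 𝓝 θ0, η θ0 / 2 < η θ :=
      hη.continuousAt.eventually (lt_mem_nhds (by have := hη0 θ0; linarith))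
    have hη2 : 0 < η θ0 / 2 := by have := hη0 θ0; positivity
    refine ⟨min 1 ((η θ0 / 2) ^ 5 / (M + 1)), ?_⟩
    filter_upwards [hM, hη1] with θ h1 h2
    have e0 := ec_nonneg (F := F θ) hν hT.le ‖x0 θ‖
    have hd0 : 0 < min 1 ((η θ0 / 2) ^ 5 / (M + 1)) := lt_min one_pos (by positivity)
    refine ⟨hd0, min_le_left _ _, ?_⟩
    calc min 1 ((η θ0 / 2) ^ 5 / (M + 1)) * ec ν T ‖x0 θ‖ (F θ)
        ≤ ((η θ0 / 2) ^ 5 / (M + 1)) * (M + 1) := by
          have := min_le_right 1 ((η θ0 / 2) ^ 5 / (M + 1))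
          gcongr
          linarith
      _ = (η θ0 / 2) ^ 5 := by field_simp
      _ ≤ η θ ^ 5 := by gcongr

/-- continuous choice of Lipschitz approximations. -/
theorem sel_ap [NormalSpace Θ] [ParacompactSpace Θ] (hT : 0 < T) (ha : ν ≤ a)
    (hp1 : 1 ≤ p) (hp5 : p ≤ 5) (N : VF ν T p nf) {e : Θ → ℝ}
    (he : Continuous e) (he0 : ∀ θ, 0 < e θ) :
    ∃ q : C(Θ, C(Icc (0 : ℝ) T, ℝ)), ∀ θ, q θ ∈ Ap ν a p hT.le (nf θ) (e θ) := by
  refine exists_continuous_forall_mem_convex_of_local_const (X := Θ)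
    (t := fun θ => Ap ν a p hT.le (nf θ) (e θ)) (fun θ => ?_) (fun θ0 => ?_)
  · exact Ap_convex hT.le hp1 (N.mem θ).aestronglyMeasurable (he0 θ).le
  · have h0 := he0 θ0
    obtain ⟨f, ⟨B, hB⟩, hf0, hf⟩ := Ap_exists hT ha hp1 hp5 (N.mem θ0) (N.low θ0)
      (e := e θ0 / 3) (by positivity)
    refine ⟨f, ?_⟩
    have he1 : ∀ᶠ θ in 𝓝 θ0, e θ0 * (2 / 3) < e θ :=
      he.continuousAt.eventually (lt_mem_nhds (by linarith))
    filter_upwards [he1, N.cont θ0 (e θ0 / 3) (by positivity)] with θ h1 h2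
    refine ⟨⟨B, hB⟩, hf0, ?_⟩
    have e1 : exf hT.le f - nf θ = (exf hT.le f - nf θ0) + (nf θ0 - nf θ) := by abel
    have h3 : eLpNorm (nf θ0 - nf θ) p (volume.restrict (Ioc 0 T))
        ≤ ENNReal.ofReal (e θ0 / 3) := by
      rw [← eLpNorm_neg, neg_sub]
      exact h2
    rw [e1]
    calc eLpNorm ((exf hT.le f - nf θ0) + (nf θ0 - nf θ)) p (volume.restrict (Ioc 0 T))
        ≤ ENNReal.ofReal (e θ0 / 3) + ENNReal.ofReal (e θ0 / 3) :=
          (eLpNorm_add_le ((exf_cont hT.le f).aestronglyMeasurable.sub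
            (N.mem θ0).aestronglyMeasurable) ((N.mem θ0).sub (N.mem θ)).aestronglyMeasurable
            hp1).trans (add_le_add hf h3)
      _ = ENNReal.ofReal (e θ0 / 3 + e θ0 / 3) :=
          (ENNReal.ofReal_add (by positivity) (by positivity)).symm
      _ ≤ ENNReal.ofReal (e θ) := ENNReal.ofReal_le_ofReal (by linarith)

theorem family [NormalSpace Θ] [ParacompactSpace Θ]
    (Fr : Frame W m C) (Tb : TriB W m C3) {ι : Type*} {g : ι → H} {f : ι → K}
    {lam : ι → ℝ} (E : Eig W g f lam) (hν : 0 < ν) (hT : 0 < T)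
    (hcomp : ∀ R : ℝ, TotallyBounded {v : H | ∃ z, (v, z) ∈ W ∧ ‖z‖ ≤ R}) (ha : ν ≤ a)
    (hp1 : 1 ≤ p) (hp5 : p ≤ 5) (D : Fam W m a T x0 z0 F F1) (N : VF ν T p nf) {A : Set Θ}
    (hA : IsClosed A) (hgood : ∀ θ ∈ A, ∃ u z, Reg W m T (nf θ) (F θ) (x0 θ) u z)
    {ε : Θ → ℝ} (hε : Continuous ε) (hε0 : ∀ θ, 0 < ε θ) :
    ∃ ψ : Θ → ℝ → ℝ, VF ν T p ψ ∧ (∀ θ ∈ A, ψ θ = nf θ) ∧
      (∀ θ, eLpNorm (ψ θ - nf θ) p (volume.restrict (Ioc 0 T)) ≤ ENNReal.ofReal (ε θ)) ∧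
      ∀ θ, ∃ u z, Reg W m T (ψ θ) (F θ) (x0 θ) u z := by
  have hfin := fin_m T
  have hpt : p ≠ ⊤ := ne_top_of_le_ne_top (by norm_num) hp5
  obtain ⟨cp, hcp, Hcp⟩ := exists_cp (p := p) hT.le hp1 hpt
  obtain ⟨c5, hc5, Hc5⟩ := exists_c5 (T := T) hp1 hp5
  obtain ⟨cs, hcs, Hcs⟩ := exists_cs p T
  -- the cut-off
  have hUo := good_open Fr Tb E hν hT hcomp ha hp1 hpt D N
  obtain ⟨V, hVo, hAV, hVU⟩ := normal_exists_closure_subset hA hUo hgood
  obtain ⟨χ, hχ0, hχ1, hχI⟩ := exists_continuous_zero_one_of_isClosed hVo.isClosed_compl hA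
    (disjoint_left.mpr fun θ h1 h2 => h1 (hAV h2))
  -- the choices
  obtain ⟨s, hs⟩ := sel_thr Fr Tb E hν hT hcomp ha hp1 hpt D N isClosed_closure hVU
  set e : Θ → ℝ := fun θ => min (ε θ / 2) (1 / (cp * s θ)) with he
  have hec : Continuous e := (hε.div_const 2).min (continuous_const.div
    (continuous_const.mul s.continuous) fun θ => (mul_pos hcp (hs θ).1).ne')
  have he0 : ∀ θ, 0 < e θ := fun θ => lt_min (half_pos (hε0 θ))
    (one_div_pos.mpr (mul_pos hcp (hs θ).1))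
  obtain ⟨d, hd⟩ := sel_d (F1 := F1) Fr hν hT D (η := fun θ => e θ / c5) (hec.div_const _)
    (fun θ => div_pos (he0 θ) hc5)
  obtain ⟨q, hq⟩ := sel_ap (a := a) hT ha hp1 hp5 N hec he0
  set κ : Θ → ℝ := fun θ => d θ ^ 2 / 2 with hκ
  have hκ0 : ∀ θ, 0 < κ θ := fun θ => by
    have := (hd θ).1
    simp only [hκ]; positivity
  have hκc : Continuous κ := (d.continuous.pow 2).div_const _
  have hz0c : Continuous z0 := by
    rw [continuous_iff_continuousAt]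
    intro θ0
    rw [ContinuousAt, Metric.tendsto_nhds]
    intro δ hδ
    filter_upwards [D.cl θ0 (δ / 2) (by positivity)] with θ h
    rw [dist_eq_norm]
    exact h.z.trans_lt (by linarith)
  set S : Θ → ℝ := fun θ => s θ + 1 + ‖z0 θ‖ with hS
  have hSc : Continuous S := (s.continuous.add continuous_const).add hz0c.norm
  have hS1 : ∀ θ, 1 ≤ S θ := fun θ => by
    have := (hs θ).1
    have := norm_nonneg (z0 θ)
    simp only [hS]; linarith
  have hSs : ∀ θ, s θ < S θ := fun θ => by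
    have := norm_nonneg (z0 θ)
    simp only [hS]; linarith
  have hSz : ∀ θ, ‖z0 θ‖ ≤ S θ := fun θ => by
    have := (hs θ).1
    simp only [hS]; linarith
  -- the closed-loop solutions
  have hex : ∀ θ, ∃ (B : ℝ) (u u' : ℝ → H) (z : ℝ → K) (c1 c2 : ℝ),
      Base (exf hT.le (q θ)) ν T B ∧ u 0 = x0 θ ∧
      Sln W m (mug (κ θ) (S θ)) (exf hT.le (q θ)) T (F θ) u u' z c1 c2
        (ec ν T ‖x0 θ‖ (F θ)) := by
    intro θ
    obtain ⟨B, N'⟩ := (hq θ).1
    obtain ⟨u, u', z, c1, c2, h1, h2⟩ := loop_sol Fr hν hT hcomp (D.dat θ) (D.cmp θ) N'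
      (hq θ).2.1 (hκ0 θ) (hS1 θ) (hSz θ)
    exact ⟨B, u, u', z, c1, c2, N', h1, h2⟩
  choose B uu uu' zz c1 c2 hB huu0 Sl using hex
  set L : Θ → ℝ → ℝ := fun θ t => mug (κ θ) (S θ) ‖zz θ t‖ with hL
  have hV0 : ∀ θ, H772R2.NSG.Visc ν (mug (κ θ) (S θ)) (65536 * S θ ^ 4 / ν ^ 3 + 16 / κ θ ^ 4)
      (κ θ * (2 * Real.sqrt (S θ))⁻¹) := fun θ =>
    visc_mug (hκ0 θ) (by have := hS1 θ; linarith) hν
  have hLc : ∀ θ, ContinuousOn (L θ) (Icc 0 T) := fun θ => mu_cont (hV0 θ) (Sl θ).zc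
  have hL0 : ∀ θ t, 0 ≤ L θ t := fun θ t => (hV0 θ).nonneg _ (norm_nonneg _)
  have hLm : ∀ θ, MemLp (L θ) p (volume.restrict (Ioc 0 T)) := fun θ => mem_cont (hLc θ)
  have hLs : ∀ θ, eLpNorm (L θ) p (volume.restrict (Ioc 0 T)) ≤ ENNReal.ofReal (e θ) := by
    intro θ
    have h1 := feed_small (ν := ν) hν hT (hd θ).1 (hd θ).2.1 (hS1 θ)
      (div_pos (he0 θ) hc5).le (hd θ).2.2 (Sl θ)
    have h2 := Hc5 (L θ) (hLm θ).aestronglyMeasurable _ (div_pos (he0 θ) hc5).le h1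
    refine h2.trans (le_of_eq ?_)
    congr 1
    field_simp
  set M : Θ → ℝ → ℝ := fun θ t => exf hT.le (q θ) t + L θ t with hM
  have hMm : ∀ θ, MemLp (M θ) p (volume.restrict (Ioc 0 T)) := fun θ =>
    (mem_cont ((exf_cont hT.le (q θ)).continuousOn)).add (hLm θ)
  have hMR : ∀ θ, Reg W m T (M θ) (F θ) (x0 θ) (uu θ) (zz θ) := fun θ => toReg (Sl θ) (huu0 θ)
  have hMn : ∀ θ, eLpNorm (M θ - nf θ) p (volume.restrict (Ioc 0 T))
      ≤ ENNReal.ofReal (ε θ) := by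
    intro θ
    have e1 : M θ - nf θ = (exf hT.le (q θ) - nf θ) + L θ := by
      ext t
      simp only [hM, Pi.sub_apply, Pi.add_apply]; ring
    rw [e1]
    calc eLpNorm ((exf hT.le (q θ) - nf θ) + L θ) p (volume.restrict (Ioc 0 T))
        ≤ ENNReal.ofReal (e θ) + ENNReal.ofReal (e θ) :=
          (eLpNorm_add_le ((exf_cont hT.le (q θ)).aestronglyMeasurable.sub
            (N.mem θ).aestronglyMeasurable) (hLm θ).aestronglyMeasurable hp1).trans
            (add_le_add (hq θ).2.2 (hLs θ))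
      _ = ENNReal.ofReal (e θ + e θ) := (ENNReal.ofReal_add (he0 θ).le (he0 θ).le).symm
      _ ≤ ENNReal.ofReal (ε θ) := ENNReal.ofReal_le_ofReal (by
          have : e θ ≤ ε θ / 2 := min_le_left _ _
          linarith)
  -- continuity of `M`
  have hMc : ∀ θ0, ∀ δ : ℝ, 0 < δ → ∀ᶠ θ in 𝓝 θ0,
      eLpNorm (M θ - M θ0) p (volume.restrict (Ioc 0 T)) ≤ ENNReal.ofReal δ := by
    intro θ0 δ hδ
    set ω : ℝ := δ / (2 * cs) with hω
    have hω0 : 0 < ω := by positivity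
    obtain ⟨δ1, hδ1, hcl⟩ := cl_mu Fr Tb E hν hT (D.dat θ0) (hB θ0) (hκ0 θ0) (hS1 θ0) (Sl θ0)
      (huu0 θ0) hω0
    have h1 : ∀ᶠ θ in 𝓝 θ0, dist (q θ) (q θ0) < min δ1 ω :=
      q.continuous.continuousAt.eventually (Metric.ball_mem_nhds _ (lt_min hδ1 hω0))
    have h2 : ∀ᶠ θ in 𝓝 θ0, dist (κ θ) (κ θ0) < δ1 :=
      hκc.continuousAt.eventually (Metric.ball_mem_nhds _ hδ1)
    have h3 : ∀ᶠ θ in 𝓝 θ0, dist (S θ) (S θ0) < δ1 :=
      hSc.continuousAt.eventually (Metric.ball_mem_nhds _ hδ1)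
    filter_upwards [h1, h2, h3, D.cl θ0 δ1 hδ1] with θ k1 k2 k3 k4
    rw [Real.dist_eq] at k2 k3
    have k5 := hcl (F θ) (F1 θ) (x0 θ) (z0 θ) (exf hT.le (q θ)) (B θ) (κ θ) (S θ) (uu θ) (uu' θ)
      (zz θ) (c1 θ) (c2 θ) _ (D.dat θ) k4 (hB θ)
      (fun t _ => (exf_sub_le hT.le _ _ t).trans (k1.le.trans (min_le_left _ _))) (hκ0 θ) (hS1 θ)
      k2.le k3.le (Sl θ) (huu0 θ)
    refine (Hcs (M θ - M θ0) (2 * ω) (by positivity) fun t ht => ?_).trans (le_of_eq ?_)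
    · have e1 : (M θ - M θ0) t = (exf hT.le (q θ) t - exf hT.le (q θ0) t)
          + (L θ t - L θ0 t) := by
        simp only [hM, Pi.sub_apply]; ring
      rw [e1]
      calc |(exf hT.le (q θ) t - exf hT.le (q θ0) t) + (L θ t - L θ0 t)| ≤ ω + ω :=
            (abs_add_le _ _).trans (add_le_add ((exf_sub_le hT.le _ _ t).trans
              (k1.le.trans (min_le_right _ _))) (k5 t ht))
        _ = 2 * ω := by ring
    · congr 1
      rw [hω]; field_simp
  -- the family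
  set ψ : Θ → ℝ → ℝ := fun θ t => χ θ * nf θ t + (1 - χ θ) * M θ t with hψ
  have hψn : ∀ θ, ψ θ - nf θ = fun t => (1 - χ θ) * (M θ - nf θ) t := by
    intro θ
    ext t
    simp only [hψ, Pi.sub_apply]; ring
  have hψm : ∀ θ, MemLp (ψ θ) p (volume.restrict (Ioc 0 T)) := fun θ =>
    ((N.mem θ).const_mul (χ θ)).add ((hMm θ).const_mul (1 - χ θ))
  have hψd : ∀ θ, eLpNorm (ψ θ - nf θ) p (volume.restrict (Ioc 0 T))
      ≤ ENNReal.ofReal (ε θ) := by
    intro θ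
    rw [hψn θ]
    have h1 := hχI θ
    exact (eLp_mul_le (by linarith [h1.2]) (by linarith [h1.1]) _).trans (hMn θ)
  have hMlow : ∀ θ, ∀ᵐ t ∂(volume.restrict (Ioc 0 T)), ν ≤ M θ t := by
    intro θ
    filter_upwards [ae_restrict_mem measurableSet_Ioc] with t ht
    have h1 := (hB θ).low t (Ioc_subset_Icc_self ht)
    have h2 := hL0 θ t
    simp only [hM]; linarith
  have hψlow : ∀ θ, ∀ᵐ t ∂(volume.restrict (Ioc 0 T)), ν ≤ ψ θ t := by
    intro θ
    filter_upwards [N.low θ, hMlow θ] with t h1 h2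
    have h3 := hχI θ
    simp only [hψ]
    nlinarith [h3.1, h3.2]
  refine ⟨ψ, ⟨hψm, hψlow, ?_⟩, ?_, hψd, ?_⟩
  · -- continuity
    intro θ0 δ hδ
    set G : ℝ := (eLpNorm (nf θ0 - M θ0) p (volume.restrict (Ioc 0 T))).toReal with hG
    have hG0 : 0 ≤ G := ENNReal.toReal_nonneg
    have hGe : eLpNorm (nf θ0 - M θ0) p (volume.restrict (Ioc 0 T)) = ENNReal.ofReal G :=
      (ENNReal.ofReal_toReal ((N.mem θ0).sub (hMm θ0)).eLpNorm_ne_top).symm
    have h1 : ∀ᶠ θ in 𝓝 θ0, dist (χ θ) (χ θ0) < δ / (3 * (G + 1)) :=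
      χ.continuous.continuousAt.eventually (Metric.ball_mem_nhds _ (by positivity))
    filter_upwards [h1, N.cont θ0 (δ / 3) (by positivity), hMc θ0 (δ / 3) (by positivity)]
      with θ k1 k2 k3
    rw [Real.dist_eq] at k1
    have e1 : ψ θ - ψ θ0 = (fun t => χ θ * (nf θ - nf θ0) t)
        + ((fun t => (χ θ - χ θ0) * (nf θ0 - M θ0) t)
          + fun t => (1 - χ θ) * (M θ - M θ0) t) := by
      ext t
      simp only [hψ, Pi.sub_apply, Pi.add_apply]; ring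
    have h3 := hχI θ
    have m1 : AEStronglyMeasurable (fun t => χ θ * (nf θ - nf θ0) t)
        (volume.restrict (Ioc 0 T)) :=
      (((N.mem θ).sub (N.mem θ0)).const_mul (χ θ)).aestronglyMeasurable
    have m2 : AEStronglyMeasurable (fun t => (χ θ - χ θ0) * (nf θ0 - M θ0) t)
        (volume.restrict (Ioc 0 T)) :=
      (((N.mem θ0).sub (hMm θ0)).const_mul (χ θ - χ θ0)).aestronglyMeasurable
    have m3 : AEStronglyMeasurable (fun t => (1 - χ θ) * (M θ - M θ0) t)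
        (volume.restrict (Ioc 0 T)) :=
      (((hMm θ).sub (hMm θ0)).const_mul (1 - χ θ)).aestronglyMeasurable
    have b1 : eLpNorm (fun t => χ θ * (nf θ - nf θ0) t) p (volume.restrict (Ioc 0 T))
        ≤ ENNReal.ofReal (δ / 3) := (eLp_mul_le h3.1 h3.2 _).trans k2
    have b3 : eLpNorm (fun t => (1 - χ θ) * (M θ - M θ0) t) p (volume.restrict (Ioc 0 T))
        ≤ ENNReal.ofReal (δ / 3) :=
      (eLp_mul_le (by linarith [h3.2]) (by linarith [h3.1]) _).trans k3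
    have b2 : eLpNorm (fun t => (χ θ - χ θ0) * (nf θ0 - M θ0) t) p (volume.restrict (Ioc 0 T))
        ≤ ENNReal.ofReal (δ / 3) := by
      have e2 : (fun t => (χ θ - χ θ0) * (nf θ0 - M θ0) t)
          = (χ θ - χ θ0) • (nf θ0 - M θ0) := rfl
      rw [e2, eLpNorm_const_smul, hGe, ← Real.enorm_abs, Real.enorm_eq_ofReal (abs_nonneg _),
        ← ENNReal.ofReal_mul (abs_nonneg _)]
      refine ENNReal.ofReal_le_ofReal ?_
      calc |χ θ - χ θ0| * G ≤ δ / (3 * (G + 1)) * (G + 1) := by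
            gcongr
            linarith
        _ = δ / 3 := by field_simp
    rw [e1]
    calc _ ≤ ENNReal.ofReal (δ / 3) + (ENNReal.ofReal (δ / 3) + ENNReal.ofReal (δ / 3)) :=
          (eLpNorm_add_le m1 (m2.add m3) hp1).trans (add_le_add b1
            ((eLpNorm_add_le m2 m3 hp1).trans (add_le_add b2 b3)))
      _ = ENNReal.ofReal δ := by
          rw [← ENNReal.ofReal_add (by positivity) (by positivity),
            ← ENNReal.ofReal_add (by positivity) (by positivity)]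
          congr 1; ring
  · intro θ hθ
    have h1 : χ θ = 1 := hχ1 hθ
    ext t
    simp only [hψ, h1]; ring
  · -- regularity
    intro θ
    by_cases hχθ : χ θ = 0
    · refine ⟨uu θ, zz θ, (hMR θ).congr_n (Eventually.of_forall fun t => ?_)⟩
      simp only [hψ, hχθ]; ring
    · have hθV : θ ∈ V := by
        by_contra hcon
        exact hχθ (hχ0 hcon)
      have hthr := (hs θ).2 (subset_closure hθV)
      have hn1 : ∫ t in (0 : ℝ)..T, |exf hT.le (q θ) t - nf θ t| ≤ 1 / s θ := by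
        have h1 := Hcp (exf hT.le (q θ) - nf θ) ((exf_cont hT.le (q θ)).aestronglyMeasurable.sub
          (N.mem θ).aestronglyMeasurable) (e θ) (he0 θ).le (hq θ).2.2
        calc ∫ t in (0 : ℝ)..T, |exf hT.le (q θ) t - nf θ t| ≤ cp * e θ := h1
          _ ≤ cp * (1 / (cp * s θ)) := by
              have : e θ ≤ 1 / (cp * s θ) := min_le_right _ _
              gcongr
          _ = 1 / s θ := by
              have := (hs θ).1
              field_simp
      have hqv := base_vn (hB θ)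
      obtain ⟨v, w, hRv, hw⟩ := hthr _ hqv hn1
      have hin := inactive Fr Tb E hν hT (D.dat θ) (hB θ) (Sl θ) (huu0 θ) hRv hw (hSs θ)
      have hLz : ∀ t ∈ Icc 0 T, L θ t = 0 := fun t ht =>
        mug_zero ((hin t ht).trans (hSs θ).le)
      have hψv : Vn ν T (ψ θ) := ⟨(hψm θ).integrable hp1, hψlow θ⟩
      have hnv := N.vn hp1 θ
      obtain ⟨u, z, k1, _⟩ := hthr (ψ θ) hψv (by
        refine le_trans ?_ hn1
        refine intervalIntegral.integral_mono_on hT.le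
          (ii_of_on (hψv.int.sub hnv.int).abs le_rfl hT.le le_rfl)
          (ii_of_on (hqv.int.sub hnv.int).abs le_rfl hT.le le_rfl) fun t ht => ?_
        have e1 : ψ θ t - nf θ t = (1 - χ θ) * (exf hT.le (q θ) t - nf θ t) := by
          simp only [hψ, hM, hLz t ht]; ring
        have h3 := hχI θ
        rw [e1, abs_mul, abs_of_nonneg (by linarith [h3.2])]
        calc (1 - χ θ) * |exf hT.le (q θ) t - nf θ t|
            ≤ 1 * |exf hT.le (q θ) t - nf θ t| := by gcongr; linarith [h3.1]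
          _ = _ := one_mul _)
      exact ⟨u, z, k1⟩

end H772R2.NSZ
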