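import Mathlib

/-!
Successive approximation of continuous maps.
-/

set_option linter.unusedSectionVars false

open Set Filter Topology Metric

namespace H772R2.NSZ

variable {Θ X : Type*} [TopologicalSpace Θ] [MetricSpace X] [CompleteSpace X]

/-- one step of the construction. -/
theorem seq_step {P : ℕ → Θ → X → Prop} {A : Set Θ}
    (step : ∀ (k : ℕ) (φ : Θ → X), Continuous φ → (∀ θ ∈ A, P k θ (φ θ)) →
      ∀ ε : Θ → ℝ, Continuous ε → (∀ θ, 0 < ε θ) → ∃ ψ : Θ → X, Continuous ψ ∧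
        (∀ θ ∈ A, ψ θ = φ θ) ∧ (∀ θ, dist (ψ θ) (φ θ) ≤ ε θ) ∧ ∀ θ, P k θ (ψ θ))
    (margin : ∀ (k : ℕ) (φ : Θ → X), Continuous φ → (∀ θ, P k θ (φ θ)) →
      ∃ r : Θ → ℝ, Continuous r ∧ (∀ θ, 0 < r θ) ∧ ∀ θ x, dist x (φ θ) ≤ r θ → P k θ x)
    {φ0 : Θ → X} (hA : ∀ θ ∈ A, ∀ k, P k θ (φ0 θ)) (k : ℕ)
    (q : {q : (Θ → X) × (Θ → ℝ) // Continuous q.1 ∧ Continuous q.2 ∧ (∀ θ, 0 < q.2 θ) ∧
      ∀ θ ∈ A, q.1 θ = φ0 θ}) :
    ∃ q' : {q : (Θ → X) × (Θ → ℝ) // Continuous q.1 ∧ Continuous q.2 ∧ (∀ θ, 0 < q.2 θ) ∧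
      ∀ θ ∈ A, q.1 θ = φ0 θ}, (∀ θ, dist (q'.1.1 θ) (q.1.1 θ) ≤ q.1.2 θ / 2) ∧
      (∀ θ, q'.1.2 θ ≤ q.1.2 θ / 2) ∧ ∀ θ x, dist x (q'.1.1 θ) ≤ q'.1.2 θ → P k θ x := by
  obtain ⟨⟨φ, δ⟩, h1, h2, h3, h4⟩ := q
  simp only at h1 h2 h3 h4
  obtain ⟨ψ, k1, k2, k3, k4⟩ := step k φ h1 (fun θ hθ => by rw [h4 θ hθ]; exact hA θ hθ k)
    (fun θ => δ θ / 2) (h2.div_const 2) (fun θ => half_pos (h3 θ))
  obtain ⟨r, r1, r2, r3⟩ := margin k ψ k1 k4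
  refine ⟨⟨(ψ, fun θ => min (δ θ / 2) (r θ)), k1, (h2.div_const 2).min r1,
    fun θ => lt_min (half_pos (h3 θ)) (r2 θ), fun θ hθ => ?_⟩, k3, fun θ => min_le_left _ _,
    fun θ x hx => ?_⟩
  · show ψ θ = φ0 θ
    rw [k2 θ hθ, h4 θ hθ]
  · exact r3 θ x (hx.trans (min_le_right _ _))

theorem seq_lemma {P : ℕ → Θ → X → Prop} {A : Set Θ}
    (step : ∀ (k : ℕ) (φ : Θ → X), Continuous φ → (∀ θ ∈ A, P k θ (φ θ)) →
      ∀ ε : Θ → ℝ, Continuous ε → (∀ θ, 0 < ε θ) → ∃ ψ : Θ → X, Continuous ψ ∧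
        (∀ θ ∈ A, ψ θ = φ θ) ∧ (∀ θ, dist (ψ θ) (φ θ) ≤ ε θ) ∧ ∀ θ, P k θ (ψ θ))
    (margin : ∀ (k : ℕ) (φ : Θ → X), Continuous φ → (∀ θ, P k θ (φ θ)) →
      ∃ r : Θ → ℝ, Continuous r ∧ (∀ θ, 0 < r θ) ∧ ∀ θ x, dist x (φ θ) ≤ r θ → P k θ x)
    {φ0 : Θ → X} (hφ0 : Continuous φ0) (hA : ∀ θ ∈ A, ∀ k, P k θ (φ0 θ))
    {ε : Θ → ℝ} (hε : Continuous ε) (hε0 : ∀ θ, 0 < ε θ) :
    ∃ ψ : Θ → X, Continuous ψ ∧ (∀ θ ∈ A, ψ θ = φ0 θ) ∧ (∀ θ, dist (ψ θ) (φ0 θ) ≤ ε θ) ∧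
      ∀ θ k, P k θ (ψ θ) := by
  have hstep := seq_step step margin hA
  choose nxt n1 n2 n3 using hstep
  let Q := {q : (Θ → X) × (Θ → ℝ) // Continuous q.1 ∧ Continuous q.2 ∧ (∀ θ, 0 < q.2 θ) ∧
      ∀ θ ∈ A, q.1 θ = φ0 θ}
  let q0 : Q := ⟨(φ0, fun θ => min (ε θ) 1), hφ0, hε.min continuous_const,
    fun θ => lt_min (hε0 θ) one_pos, fun θ _ => rfl⟩
  let q : ℕ → Q := fun k => Nat.rec q0 (fun k q => nxt k q) k
  have hq : ∀ k, q (k + 1) = nxt k (q k) := fun k => rfl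
  set φ : ℕ → Θ → X := fun k => (q k).1.1 with hφ
  set δ : ℕ → Θ → ℝ := fun k => (q k).1.2 with hδ
  have c1 : ∀ k θ, dist (φ (k + 1) θ) (φ k θ) ≤ δ k θ / 2 := fun k θ => n1 k (q k) θ
  have c2 : ∀ k θ, δ (k + 1) θ ≤ δ k θ / 2 := fun k θ => n2 k (q k) θ
  have c3 : ∀ k θ x, dist x (φ (k + 1) θ) ≤ δ (k + 1) θ → P k θ x := fun k => n3 k (q k)
  have c4 : ∀ k θ, 0 < δ k θ := fun k => (q k).2.2.2.1
  have c5 : ∀ k, Continuous (φ k) := fun k => (q k).2.1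
  have c6 : ∀ k, ∀ θ ∈ A, φ k θ = φ0 θ := fun k => (q k).2.2.2.2
  have d1 : ∀ k l θ, dist (φ (k + l) θ) (φ k θ) ≤ δ k θ - δ (k + l) θ := by
    intro k l θ
    induction l with
    | zero => simp
    | succ l ih =>
      have h1 := c1 (k + l) θ
      have h2 := c2 (k + l) θ
      have h3 := dist_triangle (φ (k + (l + 1)) θ) (φ (k + l) θ) (φ k θ)
      rw [← add_assoc] at h3 ⊢
      linarith
  have d2 : ∀ k l θ, dist (φ (k + l) θ) (φ k θ) ≤ δ k θ := fun k l θ =>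
    (d1 k l θ).trans (by have := c4 (k + l) θ; linarith)
  have d3 : ∀ k θ, δ k θ ≤ (1 / 2) ^ k := by
    intro k θ
    induction k with
    | zero => exact (min_le_right _ _).trans (by simp)
    | succ k ih =>
      have := c2 k θ
      rw [pow_succ]
      linarith
  have hlim : ∀ θ, ∃ x, Tendsto (fun k => φ k θ) atTop (𝓝 x) := by
    intro θ
    refine cauchySeq_tendsto_of_complete ?_
    refine cauchySeq_of_le_geometric (1 / 2) 1 (by norm_num) fun k => ?_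
    rw [dist_comm]
    have h1 := c1 k θ
    have h2 := d3 k θ
    have h3 := c4 k θ
    rw [one_mul]
    linarith
  choose ψ hψ using hlim
  have e1 : ∀ k θ, dist (ψ θ) (φ k θ) ≤ δ k θ := by
    intro k θ
    have h1 : Tendsto (fun l => dist (φ (k + l) θ) (φ k θ)) atTop (𝓝 (dist (ψ θ) (φ k θ))) := by
      have h2 : Tendsto (fun l => φ (k + l) θ) atTop (𝓝 (ψ θ)) := by
        have := (hψ θ).comp (tendsto_add_atTop_nat k)
        refine this.congr fun l => ?_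
        show φ (l + k) θ = φ (k + l) θ
        rw [add_comm]
      exact h2.dist tendsto_const_nhds
    exact le_of_tendsto' h1 fun l => d2 k l θ
  refine ⟨ψ, ?_, ?_, ?_, ?_⟩
  · have hu : TendstoUniformly φ ψ atTop := by
      rw [Metric.tendstoUniformly_iff]
      intro η hη
      have h1 : Tendsto (fun k : ℕ => (1 / 2 : ℝ) ^ k) atTop (𝓝 0) :=
        tendsto_pow_atTop_nhds_zero_of_lt_one (by norm_num) (by norm_num)
      filter_upwards [h1.eventually (gt_mem_nhds hη)] with k hk θ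
      exact ((e1 k θ).trans (d3 k θ)).trans_lt hk
    exact hu.continuous (Frequently.of_forall c5)
  · intro θ hθ
    refine tendsto_nhds_unique (hψ θ) ?_
    have : (fun k => φ k θ) = fun _ => φ0 θ := by
      funext k; exact c6 k θ hθ
    rw [this]
    exact tendsto_const_nhds
  · intro θ
    exact (e1 0 θ).trans (min_le_left _ _)
  · intro θ k
    exact c3 k θ (ψ θ) (e1 (k + 1) θ)

end H772R2.NSZ
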