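import Mathlib
import Pool.Agent.H772R2.NSZ.Fam2
import Pool.Agent.H772R2.NSZ.Seq
import Pool.Agent.H772R2.NSV.MainV

/-!
Families with values in the spaces of viscosities.
-/

set_option linter.unusedSectionVars false

open MeasureTheory Set Filter Topology Metric
open scoped InnerProductSpace NNReal ENNReal

namespace H772R2.NSZ

open H772R2.NSR (Frame grad_unique prim_cont prim_shift ec ec_nonneg ii_of_cont)
open H772R2.NSG (LpT.memLp LpT.eLpNorm_sub LpT.exists_fn LpT.dist_le)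
open H772R2.NS H772R2.NS.Pub
open H772R2.NSV

/-- realisation of viscosities in the parameter space. -/
structure PR (ν T : ℝ) (p : ℝ≥0∞) (X : Type*) [MetricSpace X] (nX : X → ℝ → ℝ)
    (R : X → (ℝ → ℝ) → X) : Prop where
  eq : ∀ x n, MemLp n p (volume.restrict (Ioc 0 T)) →
    (∀ᵐ s ∂(volume.restrict (Ioc 0 T)), ν ≤ n s) → nX (R x n) =ᵐ[volume.restrict (Ioc 0 T)] n
  dist1 : ∀ x n, MemLp n p (volume.restrict (Ioc 0 T)) →
    (∀ᵐ s ∂(volume.restrict (Ioc 0 T)), ν ≤ n s) → ∀ ε : ℝ, 0 ≤ ε →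
    eLpNorm (n - nX x) p (volume.restrict (Ioc 0 T)) ≤ ENNReal.ofReal ε → dist (R x n) x ≤ ε
  dist2 : ∀ x x' n n', MemLp n p (volume.restrict (Ioc 0 T)) →
    (∀ᵐ s ∂(volume.restrict (Ioc 0 T)), ν ≤ n s) →
    MemLp n' p (volume.restrict (Ioc 0 T)) →
    (∀ᵐ s ∂(volume.restrict (Ioc 0 T)), ν ≤ n' s) → ∀ ε : ℝ, 0 ≤ ε →
    eLpNorm (n - n') p (volume.restrict (Ioc 0 T)) ≤ ENNReal.ofReal ε →
    dist (R x n) (R x' n') ≤ dist x x' + ε

section abs

variable {H K : Type*} [NormedAddCommGroup H] [InnerProductSpace ℝ H] [CompleteSpace H]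
  [NormedAddCommGroup K] [InnerProductSpace ℝ K] [CompleteSpace K]

variable {W : Submodule ℝ (H × K)} {m : H → K} {C C3 : ℝ} {ν T a : ℝ} {p : ℝ≥0∞}

variable {Θ : Type*} [TopologicalSpace Θ] {X : Type*} [MetricSpace X] {nX : X → ℝ → ℝ}
  {R : X → (ℝ → ℝ) → X}

variable {x0 : Θ → H} {z0 : Θ → K} {F F1 : Θ → ℝ → K}

theorem vf_of_px (P : PX ν T p X nX) {φ : Θ → X} (hφ : Continuous φ) :
    VF ν T p (fun θ => nX (φ θ)) where
  mem θ := P.nmem (φ θ)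
  low θ := P.nlow (φ θ)
  cont θ0 δ hδ := by
    filter_upwards [hφ.continuousAt.eventually (Metric.ball_mem_nhds (φ θ0) hδ)] with θ hθ
    refine (P.ndist (φ θ) (φ θ0)).trans (ENNReal.ofReal_le_ofReal ?_)
    exact (show dist (φ θ) (φ θ0) < δ from hθ).le

theorem stepX [NormalSpace Θ] [ParacompactSpace Θ]
    (Fr : Frame W m C) (Tb : TriB W m C3) {ι : Type*} {g : ι → H} {f : ι → K}
    {lam : ι → ℝ} (E : Eig W g f lam) (hν : 0 < ν) (hT : 0 < T)
    (hcomp : ∀ R : ℝ, TotallyBounded {v : H | ∃ z, (v, z) ∈ W ∧ ‖z‖ ≤ R}) (ha : ν ≤ a)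
    (hp1 : 1 ≤ p) (hp5 : p ≤ 5) (D : Fam W m a T x0 z0 F F1) (P : PX ν T p X nX)
    (Q : PR ν T p X nX R) {φ : Θ → X} (hφ : Continuous φ) {A : Set Θ}
    (hA : IsClosed A) (hgood : ∀ θ ∈ A, ∃ u z, Reg W m T (nX (φ θ)) (F θ) (x0 θ) u z)
    {ε : Θ → ℝ} (hε : Continuous ε) (hε0 : ∀ θ, 0 < ε θ) :
    ∃ ψ : Θ → X, Continuous ψ ∧ (∀ θ ∈ A, ψ θ = φ θ) ∧ (∀ θ, dist (ψ θ) (φ θ) ≤ ε θ) ∧
      ∀ θ, ∃ u z, Reg W m T (nX (ψ θ)) (F θ) (x0 θ) u z := by
  obtain ⟨ψf, h1, h2, h3, h4⟩ := family Fr Tb E hν hT hcomp ha hp1 hp5 D (vf_of_px P hφ) hA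
    hgood hε hε0
  refine ⟨fun θ => R (φ θ) (ψf θ), ?_, ?_, ?_, ?_⟩
  · rw [continuous_iff_continuousAt]
    intro θ0
    rw [ContinuousAt, Metric.tendsto_nhds]
    intro δ hδ
    filter_upwards [h1.cont θ0 (δ / 3) (by positivity),
      hφ.continuousAt.eventually (Metric.ball_mem_nhds (φ θ0) (show 0 < δ / 3 by positivity))]
      with θ k1 k2
    have k3 := Q.dist2 (φ θ) (φ θ0) (ψf θ) (ψf θ0) (h1.mem θ) (h1.low θ) (h1.mem θ0)
      (h1.low θ0) (δ / 3) (by positivity) k1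
    have k4 : dist (φ θ) (φ θ0) < δ / 3 := k2
    linarith
  · intro θ hθ
    have k1 := Q.dist1 (φ θ) (ψf θ) (h1.mem θ) (h1.low θ) 0 le_rfl (by
      rw [h2 θ hθ, sub_self]; simp)
    exact dist_le_zero.mp k1
  · intro θ
    exact Q.dist1 (φ θ) (ψf θ) (h1.mem θ) (h1.low θ) (ε θ) (hε0 θ).le (h3 θ)
  · intro θ
    obtain ⟨u, z, k⟩ := h4 θ
    exact ⟨u, z, k.congr_n (Q.eq (φ θ) (ψf θ) (h1.mem θ) (h1.low θ)).symm⟩

theorem marginX [NormalSpace Θ] [ParacompactSpace Θ]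
    (Fr : Frame W m C) (Tb : TriB W m C3) {ι : Type*} {g : ι → H} {f : ι → K}
    {lam : ι → ℝ} (E : Eig W g f lam) (hν : 0 < ν) (hT : 0 < T)
    (hcomp : ∀ R : ℝ, TotallyBounded {v : H | ∃ z, (v, z) ∈ W ∧ ‖z‖ ≤ R}) (ha : ν ≤ a)
    (hp1 : 1 ≤ p) (hpt : p ≠ ⊤) (D : Fam W m a T x0 z0 F F1) (P : PX ν T p X nX)
    {φ : Θ → X} (hφ : Continuous φ)
    (hgood : ∀ θ, ∃ u z, Reg W m T (nX (φ θ)) (F θ) (x0 θ) u z) :
    ∃ r : Θ → ℝ, Continuous r ∧ (∀ θ, 0 < r θ) ∧ ∀ θ x, dist x (φ θ) ≤ r θ →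
      ∃ u z, Reg W m T (nX x) (F θ) (x0 θ) u z := by
  have hfin := fin_m T
  obtain ⟨s, hs⟩ := sel_thr Fr Tb E hν hT hcomp ha hp1 hpt D (vf_of_px P hφ) isClosed_univ
    (fun θ _ => hgood θ)
  obtain ⟨cp, hcp, Hcp⟩ := exists_cp (p := p) hT.le hp1 hpt
  refine ⟨fun θ => 1 / (cp * s θ), continuous_const.div (continuous_const.mul s.continuous)
    fun θ => (mul_pos hcp (hs θ).1).ne', fun θ => one_div_pos.mpr (mul_pos hcp (hs θ).1),
    fun θ x hx => ?_⟩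
  have hs0 := (hs θ).1
  obtain ⟨u, z, k, _⟩ := (hs θ).2 (mem_univ θ) (nX x) ⟨(P.nmem x).integrable hp1, P.nlow x⟩ (by
    have h1 := Hcp (nX x - nX (φ θ)) ((P.nmem x).sub (P.nmem (φ θ))).aestronglyMeasurable
      (dist x (φ θ)) dist_nonneg (P.ndist x (φ θ))
    calc ∫ t in (0 : ℝ)..T, |nX x t - nX (φ θ) t| ≤ cp * dist x (φ θ) := h1
      _ ≤ cp * (1 / (cp * s θ)) := by gcongr
      _ = 1 / s θ := by field_simp)
  exact ⟨u, z, k⟩

/-- families on the half line. -/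
theorem infX [NormalSpace Θ] [ParacompactSpace Θ] [CompleteSpace X]
    (Fr : Frame W m C) (Tb : TriB W m C3) {ι : Type*} {g : ι → H} {f : ι → K}
    {lam : ι → ℝ} (E : Eig W g f lam) (hν : 0 < ν)
    (hcomp : ∀ R : ℝ, TotallyBounded {v : H | ∃ z, (v, z) ∈ W ∧ ‖z‖ ≤ R}) (ha : ν ≤ a)
    (hp1 : 1 ≤ p) (hp5 : p ≤ 5) (D : ∀ T, 0 < T → Fam W m a T x0 z0 F F1)
    (P : ∀ T, 0 < T → PX ν T p X nX)
    (Q : ∀ T, 0 < T → ∃ R, PR ν T p X nX R) {φ : Θ → X} (hφ : Continuous φ) {A : Set Θ}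
    (hA : IsClosed A) (hgood : ∀ θ ∈ A, ∃ u z, ∀ T, 0 < T → Reg W m T (nX (φ θ)) (F θ) (x0 θ) u z)
    {ε : Θ → ℝ} (hε : Continuous ε) (hε0 : ∀ θ, 0 < ε θ) :
    ∃ ψ : Θ → X, Continuous ψ ∧ (∀ θ ∈ A, ψ θ = φ θ) ∧ (∀ θ, dist (ψ θ) (φ θ) ≤ ε θ) ∧
      ∀ θ, ∃ u z, ∀ T, 0 < T → Reg W m T (nX (ψ θ)) (F θ) (x0 θ) u z := by
  have hpt : p ≠ ⊤ := ne_top_of_le_ne_top (by norm_num) hp5
  have hk : ∀ k : ℕ, (0 : ℝ) < (k : ℝ) + 1 := fun k => by positivity
  obtain ⟨ψ, h1, h2, h3, h4⟩ := seq_lemma (Θ := Θ) (X := X) (A := A)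
    (P := fun k θ x => ∃ u z, Reg W m ((k : ℝ) + 1) (nX x) (F θ) (x0 θ) u z)
    (fun k φ hφ hg ε hε hε0 => by
      obtain ⟨R, hR⟩ := Q _ (hk k)
      exact stepX Fr Tb E hν (hk k) hcomp ha hp1 hp5 (D _ (hk k)) (P _ (hk k)) hR hφ hA hg hε
        hε0)
    (fun k φ hφ hg => marginX Fr Tb E hν (hk k) hcomp ha hp1 hpt (D _ (hk k)) (P _ (hk k)) hφ hg)
    hφ (fun θ hθ k => by
      obtain ⟨u, z, h⟩ := hgood θ hθ
      exact ⟨u, z, h _ (hk k)⟩) hε hε0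
  refine ⟨ψ, h1, h2, h3, fun θ => ?_⟩
  have hfin := fun T => fin_m T
  exact glue Fr Tb E hν ((D 1 one_pos).dat θ).mem (fun T hT => ((D T hT).dat θ).int)
    (fun a b ha hab => ((D (b + 1) (by linarith)).dat θ).prim a b ha hab (by linarith))
    (fun T hT => ⟨((P T hT).nmem _).integrable hp1, (P T hT).nlow _⟩) (fun k => h4 θ k)

end abs

section pub

variable {ν T : ℝ} {p : ℝ≥0∞} [Fact (1 ≤ p)]

theorem dist_le0 {f g : LpT T p ℝ} {ε : ℝ} (hε : 0 ≤ ε)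
    (h : eLpNorm (f.fn - g.fn) p (volume.restrict (Ioc 0 T)) ≤ ENNReal.ofReal ε) :
    dist f g ≤ ε := by
  rw [LpT.eLpNorm_sub] at h
  exact (ENNReal.ofReal_le_ofReal_iff hε).mp h

theorem pr_visc : ∃ R, PR ν T p (Pub.Visc ν T p) (fun n => n.fn) R := by
  classical
  have hex : ∀ n : ℝ → ℝ, ∃ y : Pub.Visc ν T p → Pub.Visc ν T p,
      MemLp n p (volume.restrict (Ioc 0 T)) →
      (∀ᵐ s ∂(volume.restrict (Ioc 0 T)), ν ≤ n s) →
      ∀ x, (y x).fn =ᵐ[volume.restrict (Ioc 0 T)] n := by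
    intro n
    by_cases h : MemLp n p (volume.restrict (Ioc 0 T)) ∧
      (∀ᵐ s ∂(volume.restrict (Ioc 0 T)), ν ≤ n s)
    · obtain ⟨f, hf⟩ := LpT.exists_fn h.1
      exact ⟨fun _ => ⟨f, by filter_upwards [hf, h.2] with s h1 h2; rw [h1]; exact h2⟩,
        fun _ _ _ => hf⟩
    · exact ⟨id, fun h1 h2 => absurd ⟨h1, h2⟩ h⟩
  choose y hy using hex
  refine ⟨fun x n => y n x, fun x n h1 h2 => hy n h1 h2 x, ?_, ?_⟩
  · intro x n h1 h2 ε hε h
    have k := hy n h1 h2 x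
    refine dist_le0 (f := (y n x).1) (g := x.1) hε ?_
    refine le_trans (le_of_eq ?_) h
    exact eLpNorm_congr_ae (k.sub (ae_eq_refl _))
  · intro x x' n n' h1 h2 h1' h2' ε hε h
    have k := hy n h1 h2 x
    have k' := hy n' h1' h2' x'
    have h3 : dist (y n x) (y n' x') ≤ ε := by
      refine dist_le0 (f := (y n x).1) (g := (y n' x').1) hε ?_
      refine le_trans (le_of_eq ?_) h
      exact eLpNorm_congr_ae (k.sub k')
    have := dist_nonneg (x := x) (y := x')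
    linarith

/-- the modification of the viscosity on `(0,T]`. -/
noncomputable def pw (T ν : ℝ) (h n : ℝ → ℝ) : ℝ → ℝ :=
  fun t => (Ioc 0 T).indicator (fun t => n t - ν) t + (Ioc 0 T)ᶜ.indicator h t

theorem pw_mem {h n : ℝ → ℝ} (hh : MemLp h p (volume.restrict (Ioi 0)))
    (hn : MemLp n p (volume.restrict (Ioc 0 T))) :
    MemLp (pw T ν h n) p (volume.restrict (Ioi 0)) := by
  have hfin := fin_m T
  have h1 : MemLp ((Ioc 0 T).indicator (fun t => n t - ν)) p (volume.restrict (Ioi 0)) := by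
    rw [memLp_indicator_iff_restrict measurableSet_Ioc,
      Measure.restrict_restrict measurableSet_Ioc, inter_eq_left.mpr Ioc_subset_Ioi_self]
    exact hn.sub (memLp_const ν)
  exact h1.add (hh.indicator measurableSet_Ioc.compl)

theorem pw_in {h n : ℝ → ℝ} {t : ℝ} (ht : t ∈ Ioc 0 T) : pw T ν h n t = n t - ν := by
  unfold pw
  rw [indicator_of_mem ht, indicator_of_notMem (show t ∉ (Ioc 0 T)ᶜ from fun h => h ht), add_zero]

theorem pw_out {h n : ℝ → ℝ} {t : ℝ} (ht : t ∉ Ioc 0 T) : pw T ν h n t = h t := by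
  unfold pw
  rw [indicator_of_notMem ht, indicator_of_mem (show t ∈ (Ioc 0 T)ᶜ from ht), zero_add]

theorem pw_nonneg {h n : ℝ → ℝ} (hh : ∀ᵐ t ∂(volume.restrict (Ioi 0)), 0 ≤ h t)
    (hn : ∀ᵐ s ∂(volume.restrict (Ioc 0 T)), ν ≤ n s) :
    ∀ᵐ t ∂(volume.restrict (Ioi 0)), 0 ≤ pw T ν h n t := by
  have hl : ∀ᵐ t ∂(volume : Measure ℝ), t ∈ Ioc 0 T → ν ≤ n t :=
    (ae_restrict_iff' measurableSet_Ioc).mp hn
  filter_upwards [hh, ae_restrict_of_ae hl] with t h2 h3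
  by_cases ht : t ∈ Ioc 0 T
  · rw [pw_in ht]
    have := h3 ht
    linarith
  · rw [pw_out ht]
    exact h2

theorem ind_norm (f : ℝ → ℝ) :
    eLpNorm ((Ioc 0 T).indicator f) p (volume.restrict (Ioi 0))
      = eLpNorm f p (volume.restrict (Ioc 0 T)) := by
  rw [eLpNorm_indicator_eq_eLpNorm_restrict measurableSet_Ioc,
    Measure.restrict_restrict measurableSet_Ioc, inter_eq_left.mpr Ioc_subset_Ioi_self]

theorem pr_incr : ∃ R, PR ν T p (Incr p) (fun h t => ν + h.fn t) R := by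
  classical
  have hfin := fin_m T
  have hp1 : (1 : ℝ≥0∞) ≤ p := Fact.out
  have hex : ∀ (x : Incr p) (n : ℝ → ℝ), ∃ y : Incr p,
      MemLp n p (volume.restrict (Ioc 0 T)) →
      (∀ᵐ s ∂(volume.restrict (Ioc 0 T)), ν ≤ n s) →
      y.1.fn =ᵐ[volume.restrict (Ioi 0)] pw T ν x.1.fn n := by
    intro x n
    by_cases h : MemLp n p (volume.restrict (Ioc 0 T)) ∧
      (∀ᵐ s ∂(volume.restrict (Ioc 0 T)), ν ≤ n s)
    · obtain ⟨f, hf⟩ := inf_exists_fn (pw_mem (ν := ν) (inf_memLp x.1) h.1)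
      exact ⟨⟨f, by filter_upwards [hf, pw_nonneg x.2 h.2] with s h1 h2; rw [h1]; exact h2⟩,
        fun _ _ => hf⟩
    · exact ⟨x, fun h1 h2 => absurd ⟨h1, h2⟩ h⟩
  choose R hR using hex
  refine ⟨R, ?_, ?_, ?_⟩
  · intro x n h1 h2
    filter_upwards [ae_mono (sub_Ioi T) (hR x n h1 h2), ae_restrict_mem measurableSet_Ioc]
      with t k1 k2
    show ν + (R x n).1.fn t = n t
    rw [k1, pw_in k2]
    ring
  · intro x n h1 h2 ε hε h
    have k1 := inf_eLpNorm_sub (R x n).1 x.1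
    have e1 : (R x n).1.fn - x.1.fn =ᵐ[volume.restrict (Ioi 0)]
        (Ioc 0 T).indicator (n - fun t => ν + x.fn t) := by
      filter_upwards [hR x n h1 h2] with t k
      show (R x n).1.fn t - x.1.fn t = _
      rw [k]
      by_cases ht : t ∈ Ioc 0 T
      · rw [pw_in ht, indicator_of_mem ht]
        show n t - ν - x.1.fn t = n t - (ν + x.1.fn t)
        ring
      · rw [pw_out ht, indicator_of_notMem ht, sub_self]
    rw [eLpNorm_congr_ae e1, ind_norm] at k1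
    have k2 := k1.symm.le.trans h
    exact (ENNReal.ofReal_le_ofReal_iff hε).mp k2
  · intro x x' n n' h1 h2 h1' h2' ε hε h
    have k1 := inf_eLpNorm_sub (R x n).1 (R x' n').1
    have e1 : (R x n).1.fn - (R x' n').1.fn =ᵐ[volume.restrict (Ioi 0)]
        (Ioc 0 T).indicator (n - n') + (Ioc 0 T)ᶜ.indicator (x.1.fn - x'.1.fn) := by
      filter_upwards [hR x n h1 h2, hR x' n' h1' h2'] with t k k'
      show (R x n).1.fn t - (R x' n').1.fn t = _
      rw [k, k', Pi.add_apply]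
      by_cases ht : t ∈ Ioc 0 T
      · rw [pw_in ht, pw_in ht, indicator_of_mem ht, indicator_of_notMem (show t ∉ (Ioc 0 T)ᶜ from fun h => h ht)]
        simp only [Pi.sub_apply]
        ring
      · rw [pw_out ht, pw_out ht, indicator_of_notMem ht,
          indicator_of_mem (show t ∈ (Ioc 0 T)ᶜ from ht)]
        simp only [Pi.sub_apply]
        ring
    rw [eLpNorm_congr_ae e1] at k1
    have m1 : AEStronglyMeasurable ((Ioc 0 T).indicator (n - n')) (volume.restrict (Ioi 0)) := by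
      have : MemLp ((Ioc 0 T).indicator (n - n')) p (volume.restrict (Ioi 0)) := by
        rw [memLp_indicator_iff_restrict measurableSet_Ioc,
          Measure.restrict_restrict measurableSet_Ioc, inter_eq_left.mpr Ioc_subset_Ioi_self]
        exact h1.sub h1'
      exact this.aestronglyMeasurable
    have m2 : AEStronglyMeasurable ((Ioc 0 T)ᶜ.indicator (x.1.fn - x'.1.fn))
        (volume.restrict (Ioi 0)) :=
      (((inf_memLp x.1).sub (inf_memLp x'.1)).indicator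
        measurableSet_Ioc.compl).aestronglyMeasurable
    have k3 : ENNReal.ofReal (dist (R x n).1 (R x' n').1)
        ≤ ENNReal.ofReal ε + ENNReal.ofReal (dist x.1 x'.1) := by
      rw [← k1]
      refine (eLpNorm_add_le m1 m2 hp1).trans (add_le_add ?_ ?_)
      · rw [ind_norm]; exact h
      · refine (eLpNorm_indicator_le _).trans ?_
        exact (inf_eLpNorm_sub x.1 x'.1).le
    rw [← ENNReal.ofReal_add hε dist_nonneg] at k3
    have k4 := (ENNReal.ofReal_le_ofReal_iff (add_nonneg hε dist_nonneg)).mp k3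
    have e2 : dist (R x n) (R x' n') = dist (R x n).1 (R x' n').1 := rfl
    have e3 : dist x x' = dist x.1 x'.1 := rfl
    rw [e2, e3]
    linarith

end pub

end H772R2.NSZ
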