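import Mathlib
import Pool.Agent.H772R2.NSZ.ParZ

/-!
Contractibility of the set of regular viscosities.
-/

set_option linter.unusedSectionVars false

open MeasureTheory Set Filter Topology Metric
open scoped InnerProductSpace NNReal ENNReal unitInterval

namespace H772R2.NSZ

open H772R2.NS H772R2.NS.Pub
open H772R2.NSV

theorem contr {X : Type} [MetricSpace X] {G : Set X} (hne : G.Nonempty)
    (c : I → X → X → X) (hc : Continuous fun q : I × X × X => c q.1 q.2.1 q.2.2)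
    (c0 : ∀ x y, c 0 x y = x) (c1 : ∀ x y, c 1 x y = y)
    (happ : ∀ {Θ : Type} [MetricSpace Θ] (φ : Θ → X), Continuous φ → ∀ A : Set Θ, IsClosed A →
      (∀ θ ∈ A, φ θ ∈ G) → ∃ ψ : Θ → X, Continuous ψ ∧ (∀ θ ∈ A, ψ θ = φ θ) ∧ ∀ θ, ψ θ ∈ G) :
    ContractibleSpace G := by
  obtain ⟨x, hx⟩ := hne
  rw [contractible_iff_id_nullhomotopic]
  obtain ⟨ψ, h1, h2, h3⟩ := happ (Θ := I × G) (fun q => c q.1 q.2 x)
    (hc.comp (continuous_fst.prodMk ((continuous_subtype_val.comp continuous_snd).prodMk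
      continuous_const))) ({q | q.1 = 0} ∪ {q | q.1 = 1})
    ((isClosed_eq continuous_fst continuous_const).union
      (isClosed_eq continuous_fst continuous_const)) (by
    rintro ⟨s, y⟩ (h | h)
    · have h' : s = 0 := h
      show c s y x ∈ G
      rw [h', c0]; exact y.2
    · have h' : s = 1 := h
      show c s y x ∈ G
      rw [h', c1]; exact hx)
  refine ⟨⟨x, hx⟩, ⟨⟨⟨fun q => ⟨ψ q, h3 q⟩, h1.subtype_mk _⟩, fun y => ?_, fun y => ?_⟩⟩⟩
  · refine Subtype.ext ?_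
    show ψ (0, y) = y
    rw [h2 (0, y) (Or.inl rfl)]
    exact c0 _ _
  · refine Subtype.ext ?_
    show ψ (1, y) = x
    rw [h2 (1, y) (Or.inr rfl)]
    exact c1 _ _

section pub

variable {ν T : ℝ} {p : ℝ≥0∞} [Fact (1 ≤ p)]

/-- convex combinations in a closed convex set. -/
theorem conv_exists {μ : Measure ℝ} {b : ℝ} :
    ∃ c : I → {h : Lp ℝ p μ // ∀ᵐ t ∂μ, b ≤ h t} → {h : Lp ℝ p μ // ∀ᵐ t ∂μ, b ≤ h t} →
      {h : Lp ℝ p μ // ∀ᵐ t ∂μ, b ≤ h t},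
      (Continuous fun q : I × {h : Lp ℝ p μ // ∀ᵐ t ∂μ, b ≤ h t}
        × {h : Lp ℝ p μ // ∀ᵐ t ∂μ, b ≤ h t} => c q.1 q.2.1 q.2.2) ∧
      (∀ x y, c 0 x y = x) ∧ ∀ x y, c 1 x y = y := by
  refine ⟨fun s x y => ⟨(1 - (s : ℝ)) • x.1 + (s : ℝ) • y.1, ?_⟩, ?_, ?_, ?_⟩
  · filter_upwards [Lp.coeFn_add ((1 - (s : ℝ)) • x.1) ((s : ℝ) • y.1),
      Lp.coeFn_smul (1 - (s : ℝ)) x.1, Lp.coeFn_smul (s : ℝ) y.1, x.2, y.2]
      with t h1 h2 h3 h4 h5
    rw [h1, Pi.add_apply, h2, h3, Pi.smul_apply, Pi.smul_apply, smul_eq_mul, smul_eq_mul]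
    have := s.2
    nlinarith [this.1, this.2]
  · refine Continuous.subtype_mk ?_ _
    fun_prop
  · intro x y
    refine Subtype.ext ?_
    simp
  · intro x y
    refine Subtype.ext ?_
    simp

theorem conv_visc : ∃ c : I → Pub.Visc ν T p → Pub.Visc ν T p → Pub.Visc ν T p,
    (Continuous fun q : I × Pub.Visc ν T p × Pub.Visc ν T p => c q.1 q.2.1 q.2.2) ∧
    (∀ x y, c 0 x y = x) ∧ ∀ x y, c 1 x y = y :=
  conv_exists (p := p) (μ := (volume : Measure ℝ).restrict (Ioc 0 T)) (b := ν)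

theorem conv_incr : ∃ c : I → Incr p → Incr p → Incr p,
    (Continuous fun q : I × Incr p × Incr p => c q.1 q.2.1 q.2.2) ∧
    (∀ x y, c 0 x y = x) ∧ ∀ x y, c 1 x y = y :=
  conv_exists (p := p) (μ := (volume : Measure ℝ).restrict (Ioi 0)) (b := 0)

end pub

end H772R2.NSZ
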