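import Mathlib
import Pool.Agent.H772R2.NSV.PubV

/-!
Public definitions: continuous families of data.
-/

open MeasureTheory Set Filter Topology
open scoped InnerProductSpace ENNReal ContDiff

namespace H772R2.NS.Pub

/-- A continuous family of data with parameter `θ ∈ Θ`: initial velocities `u0 θ ∈ V = H¹_{0,σ}(Ω)`
with gradients `z0 θ`, and forces `⟨f(t), φ⟩ = (F θ t, ∇φ)` with `F θ ∈ H¹(0,T; L²)` for every `T`
(with derivative `F' θ`), such that the initial acceleration `P(-u₀·∇u₀ + ν Δu₀ + f(0))` is in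
`L²(Ω)`; `u0 θ` depends continuously on `θ` in `V`, and `F θ` in `H¹(0,T; L²)` for every `T`. -/
structure IsFamily {Ω : Set R3} {Θ : Type} [TopologicalSpace Θ] (ν : ℝ) (u0 : Θ → L2 Ω R3)
    (z0 : Θ → L2 Ω Mat) (F F' : Θ → ℝ → L2 Ω Mat) : Prop where
  grad : ∀ θ, (u0 θ, z0 θ) ∈ H1graph Ω
  force : ∀ θ T, 0 < T → IsH1 T (F θ) (F' θ)
  acc : ∀ θ, ∃ h : L2 Ω R3, ∀ φ, IsTest Ω φ →
    rhs ν (u0 θ) (z0 θ) (F θ 0) φ = ∫ x in Ω, ⟪h.fn x, φ x⟫_ℝ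
  contGrad : Continuous z0
  contForce0 : Continuous fun θ => F θ 0
  contForce : ∀ T, 0 < T → ∀ θ0,
    Tendsto (fun θ => ∫ s in (0 : ℝ)..T, ‖F' θ s - F' θ0 s‖ ^ 2) (𝓝 θ0) (𝓝 0)

end H772R2.NS.Pub
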