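import Mathlib
import Pool.Agent.H772R2.NSZ.PubZ
import Pool.Agent.H772R2.NSZ.Contr
import Pool.Agent.H772R2.NSV.FinalV

/-!
Families of viscosities and data in terms of the public definitions: the theorem.
-/

set_option linter.unusedSectionVars false

open MeasureTheory Set Filter Topology Metric
open scoped InnerProductSpace NNReal ENNReal ContDiff

namespace H772R2.NSZ

open H772R2.NS H772R2.NS.Pub H772R2.NSR
open H772R2.NSG (Coef lh_of_pub mem_cont Base)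
open H772R2.NSV

variable {Θ : Type} [TopologicalSpace Θ]

theorem fam_of_pub {Ω : Set E3} (hΩ : IsOpen Ω) {ν : ℝ} {u0 : Θ → L2V Ω} {z0 : Θ → L2M Ω}
    {F F' : Θ → ℝ → L2M Ω} (h : IsFamily (Ω := (show Set R3 from Ω)) ν u0 z0 F F') {T : ℝ}
    (hT : 0 < T) : Fam (graphW Ω) tensL ν T u0 z0 F F' where
  dat θ := ⟨mem_pub.mpr (h.grad θ), (h.force θ T hT).memLp, (h.force θ T hT).prim⟩
  cmp θ := by
    obtain ⟨g0, hg0⟩ := h.acc θ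
    exact ⟨g0, compat_pub hΩ (mem_pub.mpr (h.grad θ))
      (fun φ hφ => hg0 φ ((isTest_iff φ).mpr hφ))⟩
  cl θ0 δ hδ := by
    have h1 : ∀ᶠ θ in 𝓝 θ0, ‖z0 θ - z0 θ0‖ < δ := by
      have := h.contGrad.continuousAt.eventually (Metric.ball_mem_nhds (z0 θ0) hδ)
      filter_upwards [this] with θ hθ
      exact (dist_eq_norm (z0 θ) (z0 θ0)).symm.trans_lt hθ
    have h2 : ∀ᶠ θ in 𝓝 θ0, ‖F θ 0 - F θ0 0‖ < δ := by
      have := h.contForce0.continuousAt.eventually (Metric.ball_mem_nhds (F θ0 0) hδ)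
      filter_upwards [this] with θ hθ
      exact (dist_eq_norm (F θ 0) (F θ0 0)).symm.trans_lt hθ
    have h3 := (h.contForce T hT θ0).eventually (gt_mem_nhds (show 0 < δ ^ 2 by positivity))
    filter_upwards [h1, h2, h3] with θ k1 k2 k3
    exact ⟨k1.le, k2.le, k3.le⟩

theorem fam_const {Ω : Set E3} {ν T : ℝ} {u0 : Θ → L2V Ω} {z0 : Θ → L2M Ω}
    {F F' : Θ → ℝ → L2M Ω} (h : Fam (graphW Ω) tensL ν T u0 z0 F F') (θ : Θ) {Λ : Type}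
    [TopologicalSpace Λ] : Fam (graphW Ω) tensL ν T (fun _ : Λ => u0 θ) (fun _ => z0 θ)
      (fun _ => F θ) (fun _ => F' θ) where
  dat _ := h.dat θ
  cmp _ := h.cmp θ
  cl _ δ hδ := Eventually.of_forall fun _ => ⟨by simp [hδ.le], by simp [hδ.le], by
    simp; positivity⟩

section mid

variable {Ω : Set E3} {ν : ℝ} {u0 : Θ → L2V Ω} {z0 : Θ → L2M Ω} {F F' : Θ → ℝ → L2M Ω}
  {p : ℝ≥0∞} [Fact (1 ≤ p)]

theorem mid_fin [NormalSpace Θ] [ParacompactSpace Θ] (hΩ : IsOpen Ω)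
    (hb : Bornology.IsBounded Ω) (hν : 0 < ν) {T : ℝ} (hT : 0 < T)
    (hfam : Fam (graphW Ω) tensL ν T u0 z0 F F') (hp5 : p ≤ 5) {A : Set Θ} (hA : IsClosed A)
    {ε : Θ → ℝ} (hε : Continuous ε) (hε0 : ∀ θ, 0 < ε θ) {φ : Θ → Pub.Visc ν T p}
    (hφ : Continuous φ)
    (hg : ∀ θ ∈ A, ∃ u G, IsRegular (show Set R3 from Ω) T (φ θ).fn (F θ) (u0 θ) u G) :
    ∃ (ψ : Θ → Pub.Visc ν T p) (u : Θ → ℝ → L2V Ω) (G : Θ → ℝ → L2M Ω), Continuous ψ ∧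
      (∀ θ ∈ A, ψ θ = φ θ) ∧ (∀ θ, dist (ψ θ) (φ θ) ≤ ε θ) ∧
      (∀ θ, IsRegular (show Set R3 from Ω) T (ψ θ).fn (F θ) (u0 θ) (u θ) (G θ)) ∧
      ∀ θ0, ∀ δ > 0, ∀ᶠ θ in 𝓝 θ0, ∀ t ∈ Icc 0 T, ‖G θ t - G θ0 t‖ ≤ δ := by
  obtain ⟨C, Fr⟩ := exists_frame hΩ hb
  obtain ⟨ι, g, f, lam, E⟩ := exists_eig Fr (rellich_W hΩ hb)
  have hp1 : (1 : ℝ≥0∞) ≤ p := Fact.out
  have hpt : p ≠ ⊤ := ne_top_of_le_ne_top (by norm_num) hp5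
  have hfin := fin_m T
  obtain ⟨R, hR⟩ := pr_visc (ν := ν) (T := T) (p := p)
  have P := px_visc (ν := ν) (T := T) (p := p)
  obtain ⟨ψ, h1, h2, h3, h4⟩ := stepX Fr (exists_triB hΩ) E hν hT (rellich_W hΩ hb) le_rfl hp1
    hp5 hfam P hR hφ hA (fun θ hθ => by
      obtain ⟨u, G, h⟩ := hg θ hθ
      exact ⟨u, G, reg_of_pub hΩ hb (prim_cont (hfam.dat θ).int (hfam.dat θ).prim)
        ((P.nmem _).integrable hp1) h⟩) hε hε0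
  choose u G hG using h4
  exact ⟨ψ, u, G, h1, h2, h3, fun θ => pub_of_reg hΩ (hG θ), fun θ0 δ hδ =>
    sol_cont Fr (exists_triB hΩ) E hν hT (rellich_W hΩ hb) le_rfl hp1 hpt hfam
      (vf_of_px P h1) hG θ0 hδ⟩

theorem mid_inf [NormalSpace Θ] [ParacompactSpace Θ] (hΩ : IsOpen Ω)
    (hb : Bornology.IsBounded Ω) (hν : 0 < ν)
    (hfam : ∀ T, 0 < T → Fam (graphW Ω) tensL ν T u0 z0 F F') (hp5 : p ≤ 5) {A : Set Θ}
    (hA : IsClosed A)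
    {ε : Θ → ℝ} (hε : Continuous ε) (hε0 : ∀ θ, 0 < ε θ) {φ : Θ → Incr p}
    (hφ : Continuous φ)
    (hg : ∀ θ ∈ A, ∃ u G, ∀ T, 0 < T →
      IsRegular (show Set R3 from Ω) T (fun t => ν + (φ θ).fn t) (F θ) (u0 θ) u G) :
    ∃ (ψ : Θ → Incr p) (u : Θ → ℝ → L2V Ω) (G : Θ → ℝ → L2M Ω), Continuous ψ ∧
      (∀ θ ∈ A, ψ θ = φ θ) ∧ (∀ θ, dist (ψ θ) (φ θ) ≤ ε θ) ∧
      (∀ θ T, 0 < T →
        IsRegular (show Set R3 from Ω) T (fun t => ν + (ψ θ).fn t) (F θ) (u0 θ) (u θ) (G θ)) ∧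
      ∀ T, 0 < T → ∀ θ0, ∀ δ > 0, ∀ᶠ θ in 𝓝 θ0, ∀ t ∈ Icc 0 T, ‖G θ t - G θ0 t‖ ≤ δ := by
  obtain ⟨C, Fr⟩ := exists_frame hΩ hb
  obtain ⟨ι, g, f, lam, E⟩ := exists_eig Fr (rellich_W hΩ hb)
  have hp1 : (1 : ℝ≥0∞) ≤ p := Fact.out
  have hpt : p ≠ ⊤ := ne_top_of_le_ne_top (by norm_num) hp5
  have hfin := fun T => fin_m T
  have P := fun T => px_incr (ν := ν) (T := T) (p := p)
  obtain ⟨ψ, h1, h2, h3, h4⟩ := infX Fr (exists_triB hΩ) E hν (rellich_W hΩ hb) le_rfl hp1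
    hp5 hfam (fun T _ => P T) (fun T _ => pr_incr) hφ hA (fun θ hθ => by
      obtain ⟨u, G, h⟩ := hg θ hθ
      exact ⟨u, G, fun T hT => reg_of_pub hΩ hb
        (prim_cont ((hfam T hT).dat θ).int ((hfam T hT).dat θ).prim)
        (((P T).nmem (φ θ)).integrable hp1) (h T hT)⟩) hε hε0
  choose u G hG using h4
  exact ⟨ψ, u, G, h1, h2, h3, fun θ T hT => pub_of_reg hΩ (hG θ T hT), fun T hT θ0 δ hδ =>
    sol_cont Fr (exists_triB hΩ) E hν hT (rellich_W hΩ hb) le_rfl hp1 hpt (hfam T hT)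
      (vf_of_px (P T) h1) (fun θ => hG θ T hT) θ0 hδ⟩

theorem mid_isOpen (hΩ : IsOpen Ω) (hb : Bornology.IsBounded Ω) (hν : 0 < ν) {T : ℝ}
    (hT : 0 < T) (hfam : Fam (graphW Ω) tensL ν T u0 z0 F F') (hp5 : p ≤ 5)
    {φ : Θ → Pub.Visc ν T p} (hφ : Continuous φ) :
    IsOpen {θ | ∃ u G, IsRegular (show Set R3 from Ω) T (φ θ).fn (F θ) (u0 θ) u G} := by
  obtain ⟨C, Fr⟩ := exists_frame hΩ hb
  obtain ⟨ι, g, f, lam, E⟩ := exists_eig Fr (rellich_W hΩ hb)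
  have hp1 : (1 : ℝ≥0∞) ≤ p := Fact.out
  have hpt : p ≠ ⊤ := ne_top_of_le_ne_top (by norm_num) hp5
  have hfin := fin_m T
  have P := px_visc (ν := ν) (T := T) (p := p)
  have h1 := good_open Fr (exists_triB hΩ) E hν hT (rellich_W hΩ hb) le_rfl hp1 hpt hfam
    (vf_of_px P hφ)
  have e : {θ | ∃ u G, IsRegular (show Set R3 from Ω) T (φ θ).fn (F θ) (u0 θ) u G}
      = {θ | ∃ u z, Reg (graphW Ω) tensL T (φ θ).fn (F θ) (u0 θ) u z} := by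
    ext θ
    constructor
    · rintro ⟨u, G, h⟩
      exact ⟨u, G, reg_of_pub hΩ hb (prim_cont (hfam.dat θ).int (hfam.dat θ).prim)
        ((P.nmem _).integrable hp1) h⟩
    · rintro ⟨u, G, h⟩
      exact ⟨u, G, pub_of_reg hΩ h⟩
  rw [e]
  exact h1

theorem mid_contr_fin (hΩ : IsOpen Ω)
    (hb : Bornology.IsBounded Ω) (hν : 0 < ν) {T : ℝ} (hT : 0 < T)
    (hfam : Fam (graphW Ω) tensL ν T u0 z0 F F') (hp5 : p ≤ 5) (θ : Θ) :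
    ContractibleSpace {n : Pub.Visc ν T p | ∃ u G,
      IsRegular (show Set R3 from Ω) T n.fn (F θ) (u0 θ) u G} := by
  obtain ⟨c, hc, c0, c1⟩ := conv_visc (ν := ν) (T := T) (p := p)
  have hne : {n : Pub.Visc ν T p | ∃ u G,
      IsRegular (show Set R3 from Ω) T n.fn (F θ) (u0 θ) u G}.Nonempty := by
    obtain ⟨g0, hg0⟩ := hfam.cmp θ
    obtain ⟨_, k2⟩ := mid_open (Ω := Ω) hΩ hb hν (hfam.dat θ).mem hg0 hT (hfam.dat θ).int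
      (hfam.dat θ).prim (p := p) hp5
    have hfin := fin_m T
    have : Nonempty (Pub.Visc ν T p) := by
      obtain ⟨f, hf⟩ := H772R2.NSG.LpT.exists_fn (T := T) (p := p) (memLp_const ν)
      exact ⟨⟨f, by filter_upwards [hf] with s h1; rw [h1]⟩⟩
    exact k2.nonempty
  refine contr hne c hc c0 c1 fun {Λ} _ φ hφ A hA hg => ?_
  obtain ⟨ψ, u, G, h1, h2, _, h4, _⟩ := mid_fin (Θ := Λ) hΩ hb hν hT (fam_const hfam θ) hp5 hA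
    (ε := fun _ => 1) continuous_const (fun _ => one_pos) hφ hg
  exact ⟨ψ, h1, h2, fun q => ⟨u q, G q, h4 q⟩⟩

theorem mid_contr_inf (hΩ : IsOpen Ω)
    (hb : Bornology.IsBounded Ω) (hν : 0 < ν)
    (hfam : ∀ T, 0 < T → Fam (graphW Ω) tensL ν T u0 z0 F F') (hp5 : p ≤ 5) (θ : Θ) :
    ContractibleSpace {h : Incr p | ∃ u G, ∀ T, 0 < T →
      IsRegular (show Set R3 from Ω) T (fun t => ν + h.fn t) (F θ) (u0 θ) u G} := by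
  obtain ⟨c, hc, c0, c1⟩ := conv_incr (p := p)
  have hne : {h : Incr p | ∃ u G, ∀ T, 0 < T →
      IsRegular (show Set R3 from Ω) T (fun t => ν + h.fn t) (F θ) (u0 θ) u G}.Nonempty := by
    obtain ⟨g0, hg0⟩ := (hfam 1 one_pos).cmp θ
    obtain ⟨_, k2⟩ := mid_glob (Ω := Ω) hΩ hb hν ((hfam 1 one_pos).dat θ).mem hg0
      (fun T hT => ((hfam T hT).dat θ).int)
      (fun a b ha hab => ((hfam (b + 1) (by linarith)).dat θ).prim a b ha hab (by linarith))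
      (p := p) hp5
    have : Nonempty (Incr p) := by
      obtain ⟨f, hf⟩ := inf_exists_fn (p := p) (g := fun _ => (0 : ℝ)) (by
        exact MemLp.zero')
      exact ⟨⟨f, by filter_upwards [hf] with s h1; rw [h1]⟩⟩
    exact k2.nonempty
  refine contr hne c hc c0 c1 fun {Λ} _ φ hφ A hA hg => ?_
  obtain ⟨ψ, u, G, h1, h2, _, h4, _⟩ := mid_inf (Θ := Λ) hΩ hb hν
    (fun T hT => fam_const (hfam T hT) θ) hp5 hA
    (ε := fun _ => 1) continuous_const (fun _ => one_pos) hφ hg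
  exact ⟨ψ, h1, h2, fun q => ⟨u q, G q, h4 q⟩⟩

end mid

theorem families_pub {Ω : Set R3} (hΩ : IsOpen Ω) (hb : Bornology.IsBounded Ω) {ν : ℝ}
    (hν : 0 < ν) {u0 : Θ → L2 Ω R3} {z0 : Θ → L2 Ω Mat} {F F' : Θ → ℝ → L2 Ω Mat}
    (hfam : IsFamily ν u0 z0 F F') {p : ℝ≥0∞} [Fact (1 ≤ p)] (hp5 : p ≤ 5) :
    (∀ {T : ℝ}, 0 < T → ∀ {φ : Θ → Pub.Visc ν T p}, Continuous φ →
      IsOpen {θ | ∃ u G, IsRegular Ω T (φ θ).fn (F θ) (u0 θ) u G}) ∧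
    (∀ [NormalSpace Θ] [ParacompactSpace Θ] {A : Set Θ}, IsClosed A → ∀ {ε : Θ → ℝ},
      Continuous ε → (∀ θ, 0 < ε θ) →
      (∀ {T : ℝ}, 0 < T → ∀ {φ : Θ → Pub.Visc ν T p}, Continuous φ →
        (∀ θ ∈ A, ∃ u G, IsRegular Ω T (φ θ).fn (F θ) (u0 θ) u G) →
        ∃ (ψ : Θ → Pub.Visc ν T p) (u : Θ → ℝ → L2 Ω R3) (G : Θ → ℝ → L2 Ω Mat), Continuous ψ ∧
          (∀ θ ∈ A, ψ θ = φ θ) ∧ (∀ θ, dist (ψ θ) (φ θ) ≤ ε θ) ∧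
          (∀ θ, IsRegular Ω T (ψ θ).fn (F θ) (u0 θ) (u θ) (G θ)) ∧
          ∀ θ0, ∀ δ > 0, ∀ᶠ θ in 𝓝 θ0, ∀ t ∈ Icc 0 T, ‖G θ t - G θ0 t‖ ≤ δ) ∧
      (∀ {φ : Θ → Incr p}, Continuous φ →
        (∀ θ ∈ A, ∃ u G, ∀ T, 0 < T → IsRegular Ω T (fun t => ν + (φ θ).fn t) (F θ) (u0 θ) u G) →
        ∃ (ψ : Θ → Incr p) (u : Θ → ℝ → L2 Ω R3) (G : Θ → ℝ → L2 Ω Mat), Continuous ψ ∧
          (∀ θ ∈ A, ψ θ = φ θ) ∧ (∀ θ, dist (ψ θ) (φ θ) ≤ ε θ) ∧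
          (∀ θ T, 0 < T → IsRegular Ω T (fun t => ν + (ψ θ).fn t) (F θ) (u0 θ) (u θ) (G θ)) ∧
          ∀ T, 0 < T → ∀ θ0, ∀ δ > 0, ∀ᶠ θ in 𝓝 θ0, ∀ t ∈ Icc 0 T, ‖G θ t - G θ0 t‖ ≤ δ)) ∧
    ∀ θ, (∀ {T : ℝ}, 0 < T → ContractibleSpace {n : Pub.Visc ν T p | ∃ u G,
        IsRegular Ω T n.fn (F θ) (u0 θ) u G}) ∧
      ContractibleSpace {h : Incr p | ∃ u G, ∀ T, 0 < T →
        IsRegular Ω T (fun t => ν + h.fn t) (F θ) (u0 θ) u G} := by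
  have hF : ∀ T, 0 < T → Fam (graphW (Ω : Set E3)) tensL ν T u0 z0 F F' := fun T hT =>
    fam_of_pub (Ω := (Ω : Set E3)) hΩ hfam hT
  refine ⟨?_, ?_, ?_⟩
  · intro T hT φ hφ
    exact mid_isOpen (Ω := (Ω : Set E3)) hΩ hb hν hT (hF T hT) hp5 hφ
  · intro _ _ A hA ε hε hε0
    refine ⟨?_, ?_⟩
    · intro T hT φ hφ hg
      exact mid_fin (Ω := (Ω : Set E3)) hΩ hb hν hT (hF T hT) hp5 hA hε hε0 hφ hg
    · intro φ hφ hg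
      exact mid_inf (Ω := (Ω : Set E3)) hΩ hb hν hF hp5 hA hε hε0 hφ hg
  · intro θ
    exact ⟨fun hT => mid_contr_fin (Ω := (Ω : Set E3)) hΩ hb hν hT (hF _ hT) hp5 θ,
      mid_contr_inf (Ω := (Ω : Set E3)) hΩ hb hν hF hp5 θ⟩

end H772R2.NSZ
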